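import Pool.Agent.KS6_96.Bd.Farey

/-!
# Potentials and the involution of level `p`
-/

set_option linter.unusedSectionVars false

namespace Pool.Agent.KS6_96.Bd

variable {p : ℕ} [hp : Fact p.Prime] {F : ℤ × ℤ → ℤ}

theorem Pot.zero (hF : Pot p F) : F (0, 1) = 0 := by
  have := hF.cusp (a := 1) (b := 0) (c := 0) (d := 1) (by norm_num) (Or.inl (dvd_zero _))
  rw [this, hF.inf]

theorem Pot.congr_pm (hF : Pot p F) {m x y : ℤ} (hx : IsCoprime x m) (h : m ∣ x - y) {m' : ℤ}
    (hm' : m' = m ∨ m' = -m) : F (y, m') = F (x, m) := by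
  have h1 : x ≡ y [ZMOD m] := by
    rw [Int.modEq_iff_dvd]
    have := (dvd_neg (a := m)).2 h
    simpa using this
  rcases hm' with rfl | rfl
  · exact (hF.congr hx h1).symm
  · have hcopy : IsCoprime y m := by
      obtain ⟨k, hk⟩ := h
      have : y = x + m * (-k) := by linarith
      rw [this, IsCoprime.add_mul_left_left_iff]
      exact hx
    have h2 : F (y, -m) = F (-y, m) := by
      have := hF.neg (a := -y) (c := m) hcopy.neg_left
      simpa using this
    rw [h2, hF.neg_fst hcopy]
    exact (hF.congr hx h1).symm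

/-- The key lemma. -/
theorem Pot.key (hF : Pot p F) {u v : ℤ × ℤ} (hu : IsCoprime u.1 u.2) (h11 : (p : ℤ) ∣ u.2)
    {m x : ℤ} (hdet : det2 u v = m ∨ det2 u v = -m) (hx : Cong m x u v)
    (hv : IsCoprime v.1 v.2) :
    F v - F u = F (x, m) := by
  obtain ⟨u1, u2⟩ := u
  obtain ⟨v1, v2⟩ := v
  simp only [det2, Cong] at *
  obtain ⟨r, t, hrt⟩ := hu
  -- γ = (u1, -t; u2, r)
  set x' := r * v1 + t * v2 with hx'
  set m' := u1 * v2 - v1 * u2 with hm'
  have e1 : u1 * x' + (-t) * m' = v1 := by
    have : u1 * x' + (-t) * m' = v1 * (r * u1 + t * u2) := by rw [hx', hm']; ring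
    rw [this, hrt, mul_one]
  have e2 : u2 * x' + r * m' = v2 := by
    have : u2 * x' + r * m' = v2 * (r * u1 + t * u2) := by rw [hx', hm']; ring
    rw [this, hrt, mul_one]
  have hcop : IsCoprime x' m' := by
    obtain ⟨α, β, hαβ⟩ := hv
    refine ⟨α * u1 + β * u2, -α * t + β * r, ?_⟩
    have : (α * u1 + β * u2) * x' + (-α * t + β * r) * m' =
      α * (u1 * x' + (-t) * m') + β * (u2 * x' + r * m') := by ring
    rw [this, e1, e2]
    exact hαβ
  have h1 := hF.gamma (x := u1) (q := -t) (r := u2) (s := r) (Or.inl (by linarith)) h11 hcop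
  rw [e1, e2] at h1
  -- m' = ± m
  have hdvd : m ∣ x' - x := by
    have h3 : x' - x = r * (v1 - x * u1) + t * (v2 - x * u2) := by
      have : x' - x * (r * u1 + t * u2) = r * (v1 - x * u1) + t * (v2 - x * u2) := by
        rw [hx']; ring
      rw [hrt, mul_one] at this
      exact this
    rw [h3]
    exact dvd_add (hx.1.mul_left _) (hx.2.mul_left _)
  have hcopm : IsCoprime x m := by
    have h4 : IsCoprime x' m := by
      rcases hdet with h | h
      · rwa [h] at hcop
      · rw [h] at hcop
        simpa using hcop.neg_right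
    obtain ⟨k, hk⟩ := hdvd
    have : x = x' + m * (-k) := by linarith
    rw [this, IsCoprime.add_mul_left_left_iff]
    exact h4
  have h5 : F (x', m') = F (x, m) := by
    apply hF.congr_pm hcopm _ hdet
    have := (dvd_neg (a := m)).2 hdvd
    simpa using this
  rw [← h5]
  linarith

/-- Potentials which change sign under the involution. -/
structure PotW (p : ℕ) (F : ℤ × ℤ → ℤ) : Prop extends Pot p F where
  w : ∀ {a c : ℤ}, IsCoprime a c → F (W p (a, c)) = - F (a, c)

theorem Pot.lower (hF : Pot p F) {k a : ℤ} (j : ℤ) (h : IsCoprime k a) :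
    F (k, a + p * j * k) = F (k, a) := by
  have h1 := hF.gamma (x := 1) (q := 0) (r := p * j) (s := 1) (by norm_num)
    ⟨j, rfl⟩ h
  have h2 := hF.cusp (a := 1) (b := 0) (c := p * j) (d := 1) (by norm_num) (Or.inl ⟨j, rfl⟩)
  rw [hF.zero] at h2
  rw [← h2] at h1
  have e1 : (1 : ℤ) * k + 0 * a = k := by ring
  have e2 : p * j * k + 1 * a = a + p * j * k := by ring
  rw [e1, e2] at h1
  omega

theorem not_dvd_of_coprime {a k : ℤ} (h : IsCoprime a (p * k)) : ¬ (p : ℤ) ∣ a := by
  intro h'
  have := h.isUnit_of_dvd' h' (Dvd.intro k rfl)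
  exact (primep (p := p)).not_isUnit this

/-- The antisymmetrisation of a potential under the involution. -/
theorem Pot.anti (hF : Pot p F) : PotW p (fun w => F w - F (W p w)) where
  inf := by
    have : W p (1, 0) = (0, 1) := by
      have := W_dvd (p := p) 1 0
      simpa using this
    simp only [this, hF.inf, hF.zero, sub_zero]
  neg := by
    intro a c h
    rw [hF.neg h]
    congr 1
    by_cases hc : (p : ℤ) ∣ c
    · obtain ⟨k, rfl⟩ := hc
      have e : -((p : ℤ) * k) = p * (-k) := by ring
      rw [e, W_dvd, W_dvd]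
      exact hF.neg (a := -k) (c := a) (h.of_mul_right_right.symm.neg_left)
    · rw [W_not hc, W_not (fun h' => hc ((dvd_neg).1 h'))]
      have := hF.neg (a := -c) (c := p * a)
        ((IsCoprime.mul_right (isCoprimep hc) h.symm).neg_left)
      rw [← this]
      congr 1
      apply Prod.ext <;> simp
  neg_fst := by
    intro a c h
    rw [hF.neg_fst h]
    congr 1
    by_cases hc : (p : ℤ) ∣ c
    · obtain ⟨k, rfl⟩ := hc
      rw [W_dvd, W_dvd]
      have hk : IsCoprime k a := h.of_mul_right_right.symm
      rw [hF.neg hk, hF.neg_fst hk]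
    · rw [W_not hc, W_not hc]
      have h1 : IsCoprime c (p * a) := IsCoprime.mul_right (isCoprimep hc) h.symm
      have e : (p : ℤ) * -a = -(p * a) := by ring
      rw [e, hF.neg h1, hF.neg_fst h1]
  congr := by
    intro a a' c h h'
    rw [hF.congr h h']
    congr 1
    obtain ⟨j, hj⟩ := Int.modEq_iff_dvd.1 h'
    have ha' : a' = a + c * j := by linarith
    by_cases hc : (p : ℤ) ∣ c
    · obtain ⟨k, rfl⟩ := hc
      rw [W_dvd, W_dvd]
      have hk : IsCoprime (-k) a := h.of_mul_right_right.symm.neg_left
      have := hF.lower (-j) hk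
      rw [← this]
      congr 1
      rw [ha']
      apply Prod.ext
      · rfl
      · simp only; ring
    · rw [W_not hc, W_not hc]
      have h1 : IsCoprime (-c) (p * a) :=
        (IsCoprime.mul_right (isCoprimep hc) h.symm).neg_left
      have := hF.lower (-j) h1
      rw [← this]
      congr 1
      rw [ha']
      apply Prod.ext
      · rfl
      · simp only; ring
  cusp := by
    intro a b c d h h'
    rw [hF.cusp h h']
    congr 1
    rcases h' with h' | h'
    · obtain ⟨k, rfl⟩ := h'
      have hd : ¬ (p : ℤ) ∣ d := by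
        intro hd
        exact not_dvd_pm h (dvd_sub (hd.mul_left a) ((Dvd.intro k rfl).mul_left b))
      rw [W_dvd, W_not hd]
      apply hF.cusp (a := -k) (b := -d) (c := a) (d := p * b) _ (Or.inr ⟨b, rfl⟩)
      have e : -k * (p * b) - -d * a = a * d - b * (p * k) := by ring
      rw [e]; exact h
    · obtain ⟨k, rfl⟩ := h'
      have hd : ¬ (p : ℤ) ∣ c := by
        intro hd
        exact not_dvd_pm h (dvd_sub ((Dvd.intro k rfl).mul_left a) (hd.mul_left b))
      rw [W_dvd, W_not hd]
      apply hF.cusp (a := -c) (b := -k) (c := p * a) (d := b) _ (Or.inl ⟨a, rfl⟩)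
      have e : -c * b - -k * (p * a) = a * (p * k) - b * c := by ring
      rw [e]; exact h
  gamma := by
    intro x q r s hdet hr a c hac
    obtain ⟨r', rfl⟩ := hr
    have g1 := hF.gamma hdet ⟨r', rfl⟩ hac
    have hs : ¬ (p : ℤ) ∣ s := by
      intro hs
      exact not_dvd_pm hdet (dvd_sub (hs.mul_left x) ((Dvd.intro r' rfl).mul_left q))
    have hdet' : s * x - (-r') * (-(p * q)) = 1 ∨ s * x - (-r') * (-(p * q)) = -1 := by
      have e : s * x - (-r') * (-(p * q)) = x * s - q * (p * r') := by ring
      rw [e]; exact hdet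
    have hW : W p (x, p * r') = (-r', x) := W_dvd x r'
    have hc2 : F (-r', x) = F (s, -(p * q)) :=
      hF.cusp (a := s) (b := -r') (c := -(p * q)) (d := x) hdet' (Or.inl ⟨-q, by ring⟩)
    rw [hW, hc2]
    have main : F (W p (x * a + q * c, p * r' * a + s * c)) - F (W p (a, c)) =
        F (s, -(p * q)) := by
      by_cases hc : (p : ℤ) ∣ c
      · obtain ⟨k, rfl⟩ := hc
        have e : (p : ℤ) * r' * a + s * (p * k) = p * (r' * a + s * k) := by ring
        rw [e, W_dvd, W_dvd]
        have hk : IsCoprime (-k) a := hac.of_mul_right_right.symm.neg_left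
        have := hF.gamma (x := s) (q := -r') (r := -(p * q)) (s := x) hdet'
          ⟨-q, by ring⟩ hk
        rw [← this]
        congr 2
        apply Prod.ext
        · simp only; ring
        · simp only; ring
      · have hn : ¬ (p : ℤ) ∣ p * r' * a + s * c := by
          intro h'
          have h2 : (p : ℤ) ∣ s * c := by
            have e : s * c = (p * r' * a + s * c) - p * (r' * a) := by ring
            rw [e]
            exact dvd_sub h' (Dvd.intro _ rfl)
          rcases (primep (p := p)).dvd_or_dvd h2 with h3 | h3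
          · exact hs h3
          · exact hc h3
        rw [W_not hc, W_not hn]
        have hk : IsCoprime (-c) (p * a) :=
          (IsCoprime.mul_right (isCoprimep hc) hac.symm).neg_left
        have := hF.gamma (x := s) (q := -r') (r := -(p * q)) (s := x) hdet'
          ⟨-q, by ring⟩ hk
        rw [← this]
        congr 2
        apply Prod.ext
        · simp only; ring
        · simp only; ring
    linarith
  w := by
    intro a c h
    by_cases hc : (p : ℤ) ∣ c
    · obtain ⟨k, rfl⟩ := hc
      have ha := not_dvd_of_coprime h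
      rw [W_dvd, W_not ha]
      have e : ((-a, (p : ℤ) * -k) : ℤ × ℤ) = (-a, -(p * k)) := by
        apply Prod.ext
        · rfl
        · simp only; ring
      rw [e, hF.neg h]
      ring
    · rw [W_not hc, W_dvd, hF.neg h]
      ring

end Pool.Agent.KS6_96.Bd
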