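import Pool.Agent.KS6_96.Bd.Lift2
import Pool.Agent.KS6_96.Bd.PotW

/-!
# Existence of a symbol which lifts the Shimura symbol

The symbol `(c : d) ↦ (d / c) ^ 12` with values in the cyclic group of the twelfth powers of
`ZMod p` is the reduction of an integral symbol.
-/

set_option linter.unusedSectionVars false

namespace Pool.Agent.KS6_96.Bd

variable {p : ℕ} [hp : Fact p.Prime]

/-- The smaller of the representatives of `x` and `-x`. -/
def sm (x : ZMod p) : ℕ := min x.val (-x).val

theorem sm_neg (x : ZMod p) : sm (-x) = sm x := by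
  unfold sm
  rw [neg_neg, min_comm]

theorem sm_eq {x y : ZMod p} (h : sm x = sm y) : x = y ∨ x = -y := by
  have inj := ZMod.val_injective p
  unfold sm at h
  rcases min_choice x.val (-x).val with h1 | h1 <;> rcases min_choice y.val (-y).val with h2 | h2
    <;> rw [h1, h2] at h
  · exact Or.inl (inj h)
  · exact Or.inr (inj h)
  · right
    have := inj h
    rw [← this, neg_neg]
  · left
    exact neg_injective (inj h)

open Classical in
/-- A section of the exponential map. -/
noncomputable def lg (g y : ZMod p) : ℤ :=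
  if y = 1 then 0 else if h : ∃ k : ℤ, g ^ k = y then h.choose else 0

theorem lg_one (g : ZMod p) : lg g 1 = 0 := by
  unfold lg; rw [if_pos rfl]

theorem lg_spec {g y : ZMod p} (h : ∃ k : ℤ, g ^ k = y) : g ^ lg g y = y := by
  unfold lg
  by_cases hy : y = 1
  · rw [if_pos hy, zpow_zero, hy]
  · rw [if_neg hy, dif_pos h]
    exact h.choose_spec

/-- An antisymmetric even lift of `x ^ 12`. -/
noncomputable def yv (g x : ZMod p) : ℤ :=
  if sm x < sm x⁻¹ then lg g (x ^ 12) else if sm x⁻¹ < sm x then - lg g (x⁻¹ ^ 12) else 0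

theorem yv_neg (g x : ZMod p) : yv g (-x) = yv g x := by
  unfold yv
  have e1 : (-x)⁻¹ = -x⁻¹ := inv_neg
  have e2 : (-x) ^ 12 = x ^ 12 := by ring
  have e3 : (-x⁻¹) ^ 12 = x⁻¹ ^ 12 := by ring
  rw [e1, sm_neg, sm_neg, e2, e3]

theorem yv_inv (g x : ZMod p) : yv g x⁻¹ = - yv g x := by
  unfold yv
  rw [inv_inv]
  rcases lt_trichotomy (sm x) (sm x⁻¹) with h | h | h
  · rw [if_neg (not_lt.2 h.le), if_pos h, if_pos h]
  · rw [if_neg (by omega), if_neg (by omega), if_neg (by omega), if_neg (by omega), neg_zero]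
  · rw [if_pos h, if_neg (not_lt.2 h.le), if_pos h, neg_neg]

theorem yv_zero {g x : ZMod p} (h : x ^ 12 = 1) : yv g x = 0 := by
  unfold yv
  have h' : x⁻¹ ^ 12 = 1 := by rw [inv_pow, h, inv_one]
  rw [h, h', lg_one, neg_zero]
  split_ifs <;> rfl

theorem yv_spec {g x : ZMod p} (hx : x ≠ 0) (hg : ∀ y : ZMod p, y ≠ 0 → ∃ k : ℤ, g ^ k = y ^ 12) :
    g ^ yv g x = x ^ 12 := by
  unfold yv
  split_ifs with h1 h2
  · exact lg_spec (hg x hx)
  · rw [zpow_neg, lg_spec (hg x⁻¹ (inv_ne_zero hx)), inv_pow, inv_inv]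
  · have h3 : sm x = sm x⁻¹ := by omega
    rw [zpow_zero]
    rcases sm_eq h3 with h4 | h4
    · have h5 : x * x = 1 := by
        nth_rewrite 2 [h4]
        exact mul_inv_cancel₀ hx
      have : x ^ 12 = (x * x) ^ 6 := by ring
      rw [this, h5, one_pow]
    · have h5 : x * x = -1 := by
        nth_rewrite 2 [h4]
        rw [mul_neg, mul_inv_cancel₀ hx]
      have : x ^ 12 = (x * x) ^ 6 := by ring
      rw [this, h5]
      norm_num

/-- The lift as a function of two variables. -/
noncomputable def YY (g c d : ZMod p) : ℤ := if c = 0 ∨ d = 0 then 0 else yv g (d / c)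

theorem YY_zl (g d : ZMod p) : YY g 0 d = 0 := by unfold YY; simp

theorem YY_zr (g c : ZMod p) : YY g c 0 = 0 := by unfold YY; simp

theorem YY_of {c d : ZMod p} (g : ZMod p) (hc : c ≠ 0) (hd : d ≠ 0) :
    YY g c d = yv g (d / c) := by
  unfold YY; rw [if_neg (by tauto)]

theorem ea_YY (g : ZMod p) : Ea (YY g) where
  swap := fun c d => by
    by_cases hc : c = 0
    · rw [hc, YY_zl, YY_zr, neg_zero]
    by_cases hd : d = 0
    · rw [hd, YY_zl, YY_zr, neg_zero]
    rw [YY_of g hc hd, YY_of g hd hc]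
    have : c / d = (d / c)⁻¹ := by rw [inv_div]
    rw [this, yv_inv]
  negl := fun c d => by
    by_cases hc : c = 0
    · rw [hc, neg_zero]
    by_cases hd : d = 0
    · rw [hd, YY_zr, YY_zr]
    rw [YY_of g hc hd, YY_of g (neg_ne_zero.2 hc) hd, div_neg, yv_neg]
  mul := fun l c d hl => by
    by_cases hc : c = 0
    · rw [hc, mul_zero, YY_zl, YY_zl]
    by_cases hd : d = 0
    · rw [hd, mul_zero, YY_zr, YY_zr]
    rw [YY_of g hc hd, YY_of g (mul_ne_zero hl hc) (mul_ne_zero hl hd), mul_div_mul_left _ _ hl]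

theorem YY_self_neg (g c : ZMod p) : YY g c (-c) = 0 := by
  by_cases hc : c = 0
  · rw [hc, YY_zl]
  · rw [YY_of g hc (neg_ne_zero.2 hc)]
    apply yv_zero
    have : -c / c = -1 := by rw [neg_div, div_self hc]
    rw [this]
    norm_num

theorem YY_neg_self (g c : ZMod p) : YY g (-c) c = 0 := by
  have := YY_self_neg g (-c)
  rwa [neg_neg] at this

theorem YY_fix {g c d : ZMod p} (h : c * c + c * d + d * d = 0) : YY g c d = 0 := by
  by_cases hc : c = 0
  · rw [hc, YY_zl]
  by_cases hd : d = 0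
  · rw [hd, YY_zr]
  rw [YY_of g hc hd]
  apply yv_zero
  have h3 : d ^ 3 = c ^ 3 := by linear_combination (d - c) * h
  have : (d / c) ^ 12 = (d ^ 3) ^ 4 / (c ^ 3) ^ 4 := by
    rw [div_pow]; congr 1 <;> ring
  rw [this, h3, div_self (pow_ne_zero _ (pow_ne_zero _ hc))]

theorem zpow_RR {g : ZMod p} (hg0 : g ≠ 0)
    (hg : ∀ y : ZMod p, y ≠ 0 → ∃ k : ℤ, g ^ k = y ^ 12) (c d : ZMod p) :
    g ^ RR (YY g) c d = 1 := by
  unfold RR
  by_cases hc : c = 0
  · subst hc
    have e : -(0 : ZMod p) - d = -d := by ring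
    rw [e, YY_zl, YY_zr, YY_self_neg]
    simp
  by_cases hd : d = 0
  · subst hd
    have e : -c - (0 : ZMod p) = -c := by ring
    rw [e, YY_zl, YY_zr, YY_neg_self]
    simp
  by_cases he : -c - d = 0
  · rw [he, YY_zl, YY_zr]
    have e : d = -c := by linear_combination -he
    rw [e, YY_self_neg]
    simp
  rw [YY_of g hc hd, YY_of g hd he, YY_of g he hc, zpow_add₀ hg0, zpow_add₀ hg0,
    yv_spec (div_ne_zero hd hc) hg, yv_spec (div_ne_zero he hd) hg, yv_spec (div_ne_zero hc he) hg]
  field_simp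

theorem RR_mul {Y : ZMod p → ZMod p → ℤ} (hY : Ea Y) (l c d : ZMod p) (hl : l ≠ 0) :
    RR Y (l * c) (l * d) = RR Y c d := by
  unfold RR
  have e : -(l * c) - l * d = l * (-c - d) := by ring
  rw [e, hY.mul _ _ _ hl, hY.mul _ _ _ hl, hY.mul _ _ _ hl]

theorem RR_cyc (Y : ZMod p → ZMod p → ℤ) (c d : ZMod p) : RR Y d (-c - d) = RR Y c d := by
  unfold RR
  have e : -d - (-c - d) = c := by ring
  rw [e]
  ring

theorem RR_swap {Y : ZMod p → ZMod p → ℤ} (hY : Ea Y) (c d : ZMod p) :
    RR Y d c = - RR Y c d := by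
  unfold RR
  have e : -d - c = -c - d := by ring
  rw [e, hY.swap c d, hY.swap (-c - d) c, hY.swap d (-c - d)]
  ring

theorem RR_fix {g c d : ZMod p} (h : c * c + c * d + d * d = 0) : RR (YY g) c d = 0 := by
  unfold RR
  rw [YY_fix h, YY_fix (c := d) (d := -c - d) (by linear_combination h),
    YY_fix (c := -c - d) (d := c) (by linear_combination h)]
  ring

/-- **Existence of the integral symbol.** -/
theorem exists_symb {g : ZMod p} (hg0 : g ≠ 0)
    (hg : ∀ y : ZMod p, y ≠ 0 → ∃ k : ℤ, g ^ k = y ^ 12) :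
    ∃ X : ZMod p → ZMod p → ℤ, Symb X ∧
      ∀ c d, c ≠ 0 → d ≠ 0 → g ^ X c d = (d / c) ^ 12 := by
  classical
  set u : (ZMod p)ˣ := Units.mk0 g hg0 with hu
  set n : ℤ := (orderOf u : ℤ) with hn
  have hnpos : n ≠ 0 := by
    rw [hn]
    exact_mod_cast (orderOf_pos u).ne'
  have hone : ∀ k : ℤ, g ^ k = 1 ↔ n ∣ k := by
    intro k
    rw [hn, orderOf_dvd_iff_zpow_eq_one, Units.ext_iff]
    simp [hu]
  have hdvd : ∀ c d, n ∣ RR (YY g) c d := fun c d => (hone _).1 (zpow_RR hg0 hg c d)
  choose G hG using hdvd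
  have hY := ea_YY g
  have him : InIm G := by
    apply inIm_of
    · intro l c d hl
      have h1 := RR_mul hY l c d hl
      rw [hG, hG] at h1
      exact mul_left_cancel₀ hnpos h1
    · intro c d
      have h1 := RR_cyc (YY g) c d
      rw [hG, hG] at h1
      exact mul_left_cancel₀ hnpos h1
    · intro c d
      have h1 := RR_swap hY c d
      rw [hG, hG] at h1
      apply mul_left_cancel₀ hnpos
      rw [h1]; ring
    · intro c d h
      have h1 := RR_fix (g := g) h
      rw [hG] at h1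
      exact (mul_eq_zero.1 h1).resolve_left hnpos
  obtain ⟨X', hX', hR⟩ := him
  have hX0 : Ea (fun c d => YY g c d + (-n) * X' c d) := hY.add (hX'.smul (-n))
  set X0 : ZMod p → ZMod p → ℤ := fun c d => YY g c d + (-n) * X' c d with hX0def
  have hR0 : ∀ c d, RR X0 c d = 0 := by
    intro c d
    have : RR X0 c d = RR (YY g) c d - n * RR X' c d := by
      unfold RR
      rw [hX0def]
      ring
    rw [this, hR, hG]
    ring
  have hself : ∀ c, X0 c c = 0 := by
    intro c
    have := hX0.swap c c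
    omega
  have hnegr : ∀ c d, X0 c (-d) = X0 c d := by
    intro c d
    rw [hX0.swap, hX0.negl, ← hX0.swap]
  have hval : ∀ c d, c ≠ 0 → d ≠ 0 → g ^ X0 c d = (d / c) ^ 12 := by
    intro c d hc hd
    have h1 : g ^ ((-n) * X' c d) = 1 := (hone _).2 ⟨-X' c d, by ring⟩
    rw [hX0def]
    change g ^ (YY g c d + (-n) * X' c d) = _
    rw [zpow_add₀ hg0, h1, mul_one, YY_of g hc hd, yv_spec (div_ne_zero hd hc) hg]
  refine ⟨fun c d => if c = 0 ∨ d = 0 then 0 else X0 c d, ?_, ?_⟩
  · have hzl : ∀ d : ZMod p, (if (0 : ZMod p) = 0 ∨ d = 0 then (0 : ℤ) else X0 0 d) = 0 := by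
      intro d; simp
    have hzr : ∀ d : ZMod p, (if d = 0 ∨ (0 : ZMod p) = 0 then (0 : ℤ) else X0 d 0) = 0 := by
      intro d; simp
    have hof : ∀ c d : ZMod p, c ≠ 0 → d ≠ 0 →
        (if c = 0 ∨ d = 0 then (0 : ℤ) else X0 c d) = X0 c d := by
      intro c d hc hd
      rw [if_neg (by tauto)]
    refine ⟨?_, ?_, ?_, ?_, hzl, hzr, ?_⟩
    · intro c d
      by_cases hc : c = 0
      · subst hc; rw [hzl, hzr, neg_zero]
      by_cases hd : d = 0
      · subst hd; rw [hzl, hzr, neg_zero]
      rw [hof c d hc hd, hof d c hd hc, hX0.swap]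
    · intro c d
      by_cases hc : c = 0
      · subst hc; rw [neg_zero]
      by_cases hd : d = 0
      · subst hd; rw [hzr, hzr]
      rw [hof c d hc hd, hof (-c) d (neg_ne_zero.2 hc) hd, hX0.negl]
    · intro c d
      by_cases hc : c = 0
      · subst hc; rw [hzl, hzl]
      by_cases hd : d = 0
      · subst hd; rw [neg_zero]
      rw [hof c d hc hd, hof c (-d) hc (neg_ne_zero.2 hd), hnegr]
    · intro c d
      by_cases hc : c = 0
      · subst hc
        by_cases hd : d = 0
        · subst hd; simp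
        · simp [hd, hself]
      by_cases hd : d = 0
      · subst hd
        rw [hzr, add_zero, hzl, hof c c hc hc, hself]; rfl
      by_cases he : c + d = 0
      · rw [he, hzr, hzl, hof c d hc hd]
        have e : d = -c := by linear_combination he
        rw [e, hnegr, hself]; rfl
      rw [hof c d hc hd, hof d (c + d) hd he, hof (c + d) c he hc]
      have h1 := hR0 c d
      unfold RR at h1
      have e : -c - d = -(c + d) := by ring
      rw [e, hnegr, hX0.negl] at h1
      exact h1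
    · intro l c d hl
      by_cases hc : c = 0
      · subst hc; rw [mul_zero, hzl, hzl]
      by_cases hd : d = 0
      · subst hd; rw [mul_zero, hzr, hzr]
      rw [hof c d hc hd, hof (l * c) (l * d) (mul_ne_zero hl hc) (mul_ne_zero hl hd),
        hX0.mul l c d hl]
  · intro c d hc hd
    change g ^ (if c = 0 ∨ d = 0 then (0 : ℤ) else X0 c d) = _
    rw [if_neg (by tauto)]
    exact hval c d hc hd

open Classical in
/-- The reduction of the potential. -/
noncomputable def Phi12 (a c : ZMod p) : ZMod p := if c = 0 then (a ^ 12)⁻¹ else c ^ 12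

theorem pow12_of_pm {x y : ZMod p} (h : x * y = 1 ∨ x * y = -1) : x ^ 12 * y ^ 12 = 1 := by
  have : x ^ 12 * y ^ 12 = (x * y) ^ 12 := by ring
  rw [this]
  rcases h with h | h <;> rw [h] <;> norm_num

theorem zpow_Fp {g : ZMod p} (hg0 : g ≠ 0) {X : ZMod p → ZMod p → ℤ} (hX : Symb X)
    (hgX : ∀ c d, c ≠ 0 → d ≠ 0 → g ^ X c d = (d / c) ^ 12) (a c : ℤ) (hac : IsCoprime a c) :
    g ^ Fp X (a, c) = Phi12 (a : ZMod p) (c : ZMod p) := by
  refine farey_induction (P := fun w => g ^ Fp X w = Phi12 (w.1 : ZMod p) (w.2 : ZMod p))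
    ?_ ?_ a c hac
  · rw [Fp_inf]
    simp [Phi12]
  · intro a b c d h hb
    simp only at hb ⊢
    have h1 := Fp_step hX h
    have h2 : Fp X (a, c) = Fp X (b, d) - X (c : ZMod p) (d : ZMod p) := by omega
    have hdet : (a : ZMod p) * d - b * c = 1 ∨ (a : ZMod p) * d - b * c = -1 := by
      rcases h with h | h
      · left; exact_mod_cast congrArg (Int.cast : ℤ → ZMod p) h
      · right
        have := congrArg (Int.cast : ℤ → ZMod p) h
        push_cast at this
        exact this
    rw [h2, zpow_sub₀ hg0, hb]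
    unfold Phi12
    by_cases hc : (c : ZMod p) = 0
    · by_cases hd : (d : ZMod p) = 0
      · exfalso
        rw [hc, hd, mul_zero, mul_zero, sub_zero] at hdet
        rcases hdet with h | h
        · exact zero_ne_one h
        · have : (1 : ZMod p) = 0 := by linear_combination h
          exact one_ne_zero this
      · rw [hc, hX.zl, if_pos rfl, if_neg hd, zpow_zero, div_one]
        rw [hc, mul_zero, sub_zero] at hdet
        exact eq_inv_of_mul_eq_one_right (pow12_of_pm hdet)
    · by_cases hd : (d : ZMod p) = 0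
      · rw [hd, hX.zr, if_pos rfl, if_neg hc, zpow_zero, div_one]
        rw [hd, mul_zero, zero_sub] at hdet
        have hdet' : (b : ZMod p) * c = 1 ∨ (b : ZMod p) * c = -1 := by
          rcases hdet with h | h
          · right; linear_combination -h
          · left; linear_combination -h
        exact (eq_inv_of_mul_eq_one_right (pow12_of_pm hdet')).symm
      · rw [if_neg hc, if_neg hd, hgX _ _ hc hd]
        field_simp

/-- **Main existence theorem.** If `p - 1` does not divide `24`, there is a potential which changes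
sign under the involution and does not vanish at some `(x, p)`. -/
theorem exists_potW (h24 : ¬ (p - 1) ∣ 24) :
    ∃ F : ℤ × ℤ → ℤ, PotW p F ∧ ∃ x : ℤ, ¬ (p : ℤ) ∣ x ∧ F (x, p) ≠ 0 := by
  obtain ⟨g0, hgen⟩ := IsCyclic.exists_generator (α := (ZMod p)ˣ)
  set g : ZMod p := (g0 : ZMod p) ^ 12 with hgdef
  have hg0 : g ≠ 0 := pow_ne_zero _ g0.ne_zero
  have hg : ∀ y : ZMod p, y ≠ 0 → ∃ k : ℤ, g ^ k = y ^ 12 := by
    intro y hy
    obtain ⟨k, hk⟩ := Subgroup.mem_zpowers_iff.1 (hgen (Units.mk0 y hy))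
    refine ⟨k, ?_⟩
    have h1 : ((g0 ^ k : (ZMod p)ˣ) : ZMod p) = y := by rw [hk]; rfl
    rw [hgdef, ← h1, Units.val_zpow_eq_zpow_val, ← zpow_natCast, ← zpow_natCast, ← zpow_mul,
      ← zpow_mul]
    congr 1
    ring
  obtain ⟨X, hX, hgX⟩ := exists_symb hg0 hg
  refine ⟨_, (pot_Fp hX).anti, ((g0 : ZMod p).val : ℤ), ?_, ?_⟩
  · intro h
    have h1 := zmod_eq_zero h
    rw [Int.cast_natCast, ZMod.natCast_zmod_val] at h1
    exact g0.ne_zero h1
  · set x : ℤ := ((g0 : ZMod p).val : ℤ) with hx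
    have hxc : (x : ZMod p) = g0 := by rw [hx, Int.cast_natCast, ZMod.natCast_zmod_val]
    have hxn : ¬ (p : ℤ) ∣ x := by
      intro h
      have h1 := zmod_eq_zero h
      rw [hxc] at h1
      exact g0.ne_zero h1
    have hcop : IsCoprime x (p : ℤ) := isCoprimep hxn
    intro h0
    have hW : W p (x, (p : ℤ)) = (-1, x) := by
      have := W_dvd (p := p) x 1
      rwa [mul_one] at this
    rw [hW] at h0
    have h1 : Fp X (x, (p : ℤ)) = Fp X (-1, x) := by omega
    have h2 := zpow_Fp hg0 hX hgX x p hcop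
    have h3 := zpow_Fp hg0 hX hgX (-1) x (isCoprime_one_left.neg_left)
    rw [h1, h3, hxc] at h2
    unfold Phi12 at h2
    have hp0 : ((p : ℤ) : ZMod p) = 0 := by simp
    rw [if_neg g0.ne_zero, if_pos hp0] at h2
    have h4 : ((g0 : ZMod p)) ^ 24 = 1 := by
      have hne : (g0 : ZMod p) ^ 12 ≠ 0 := pow_ne_zero _ g0.ne_zero
      have : (g0 : ZMod p) ^ 24 = (g0 : ZMod p) ^ 12 * (g0 : ZMod p) ^ 12 := by ring
      rw [this]
      nth_rewrite 1 [h2]
      exact inv_mul_cancel₀ hne
    have h5 : g0 ^ 24 = 1 := by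
      apply Units.ext
      rw [Units.val_pow_eq_pow_val, h4, Units.val_one]
    have h6 : orderOf g0 ∣ 24 := orderOf_dvd_of_pow_eq_one h5
    have h7 : orderOf g0 = p - 1 := by
      rw [orderOf_eq_card_of_forall_mem_zpowers hgen, Nat.card_eq_fintype_card,
        ZMod.card_units_eq_totient, Nat.totient_prime hp.out]
    rw [h7] at h6
    exact h24 h6

end Pool.Agent.KS6_96.Bd
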