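import Mathlib

/-!
# Potentials of even symbols of prime level

`Symb X`: `X c d` is an even, antisymmetric, homogeneous function of `c, d` in `ZMod p` satisfying
the three term relation. `Fp X` is the function on primitive integer vectors with
`Fp X (b, d) - Fp X (a, c) = X c d` whenever `a * d - b * c = 1` or `-1`. (The case `p = 11` is in
the library module `Pool.Graph.R_seed8.W584.Farey`; this file is the version for all primes `p`.)
-/

set_option linter.unusedSectionVars false

namespace Pool.Agent.KS6_96.Bd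

/-- Even, antisymmetric, homogeneous symbols of level `p` with the three term relation. -/
structure Symb {p : ℕ} (X : ZMod p → ZMod p → ℤ) : Prop where
  swap : ∀ c d, X d c = - X c d
  negl : ∀ c d, X (-c) d = X c d
  negr : ∀ c d, X c (-d) = X c d
  three : ∀ c d, X c d + X d (c + d) + X (c + d) c = 0
  zl : ∀ d, X 0 d = 0
  zr : ∀ d, X d 0 = 0
  mul : ∀ l c d, l ≠ 0 → X (l * c) (l * d) = X c d

section general

variable {p : ℕ} {X : ZMod p → ZMod p → ℤ}

theorem Symb.one_one (hX : Symb X) : X 1 1 = 0 := by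
  have := hX.swap 1 1
  omega

/-- The Euclidean recursion for the potential of `X`. -/
def K (X : ZMod p → ZMod p → ℤ) : ℕ → ℕ → ℤ
  | 0, _ => 0
  | (c + 1), d =>
    if d % (c + 1) = 0 then 0
    else K X (d % (c + 1)) (c + 1) - X ((c + 1 : ℕ) : ZMod p) ((d % (c + 1) : ℕ) : ZMod p)
termination_by c _ => c
decreasing_by exact Nat.mod_lt _ (Nat.succ_pos c)

theorem K_zero (d : ℕ) : K X 0 d = 0 := by rw [K]

theorem K_pos {c : ℕ} (hc : 0 < c) (d : ℕ) :
    K X c d = if d % c = 0 then 0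
      else K X (d % c) c - X ((c : ℕ) : ZMod p) ((d % c : ℕ) : ZMod p) := by
  obtain ⟨c, rfl⟩ : ∃ c', c = c' + 1 := ⟨c - 1, by omega⟩
  rw [K]

theorem K_congr {c d d' : ℕ} (h : d % c = d' % c) : K X c d = K X c d' := by
  rcases Nat.eq_zero_or_pos c with rfl | hc
  · rw [K_zero, K_zero]
  · rw [K_pos hc, K_pos hc, h]

theorem K_of_lt {c d : ℕ} (hd : 0 < d) (h : d < c) :
    K X c d = K X d c - X (c : ZMod p) (d : ZMod p) := by
  rw [K_pos (by omega) d, Nat.mod_eq_of_lt h, if_neg (by omega)]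

theorem K_one (d : ℕ) : K X 1 d = 0 := by
  rw [K_pos one_pos, if_pos (Nat.mod_one d)]

/-- `K` changes by `X` under the swap. -/
theorem K_swap (hX : Symb X) {c d : ℕ} (h : Nat.Coprime c d) :
    K X d c = K X c d + X (c : ZMod p) (d : ZMod p) := by
  rcases Nat.eq_zero_or_pos c with rfl | hc
  · have : d = 1 := by simpa using h
    subst this
    simp [K_zero, K_one, hX.zl]
  rcases Nat.eq_zero_or_pos d with rfl | hd
  · have : c = 1 := by simpa using h
    subst this
    simp [K_zero, K_one, hX.zr]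
  rcases lt_trichotomy d c with h1 | h1 | h1
  · rw [K_of_lt hd h1]; ring
  · subst h1
    have : d = 1 := by simpa using h
    subst this
    simp [hX.one_one]
  · rw [K_of_lt hc h1, hX.swap]; ring

/-- `K` is even in the second argument. -/
theorem K_sub (hX : Symb X) {c d : ℕ} (h : Nat.Coprime c d) (hd : 0 < d) (hdc : d < c) :
    K X c (c - d) = K X c d := by
  have h1 : K X c (c - d) = K X (c - d) c - X (c : ZMod p) ((c - d : ℕ) : ZMod p) :=
    K_of_lt (by omega) (by omega)
  have h2 : K X c d = K X d c - X (c : ZMod p) (d : ZMod p) := K_of_lt hd hdc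
  have h3 : K X (c - d) c = K X (c - d) d := by
    apply K_congr
    have : c = d + (c - d) := by omega
    conv_lhs => rw [this]
    simp
  have h4 : K X d c = K X d (c - d) := by
    apply K_congr
    have : c = (c - d) + d := by omega
    conv_lhs => rw [this]
    simp
  have hcop : Nat.Coprime (c - d) d := by
    have : c = (c - d) + d := by omega
    rw [this] at h
    simpa using h
  have h5 := K_swap hX hcop
  have h6 := hX.three ((c - d : ℕ) : ZMod p) (d : ZMod p)
  have h7 : ((c - d : ℕ) : ZMod p) + (d : ZMod p) = (c : ZMod p) := by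
    rw [← Nat.cast_add]
    congr 1
    omega
  rw [h7] at h6
  have h8 := hX.swap (c : ZMod p) (d : ZMod p)
  rw [h1, h2, h3, h4, h5]
  rw [h8] at h6
  linarith

/-- `K` on pairs of integers. -/
def KZ (X : ZMod p → ZMod p → ℤ) (c d : ℤ) : ℤ := K X c.natAbs (d % c).toNat

theorem KZ_congr {c d d' : ℤ} (h : d ≡ d' [ZMOD c]) : KZ X c d = KZ X c d' := by
  unfold KZ
  rw [h.eq]

theorem KZ_neg_left (c d : ℤ) : KZ X (-c) d = KZ X c d := by
  unfold KZ
  rw [Int.natAbs_neg, Int.emod_neg]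

theorem KZ_natCast (c d : ℕ) : KZ X c d = K X c d := by
  unfold KZ
  rw [Int.natAbs_natCast]
  apply K_congr
  have : ((d : ℤ) % (c : ℤ)) = ((d % c : ℕ) : ℤ) := by push_cast; rfl
  rw [this, Int.toNat_natCast, Nat.mod_mod]

theorem KZ_neg_right (hX : Symb X) {c d : ℤ} (h : IsCoprime c d) : KZ X c (-d) = KZ X c d := by
  wlog hc : 0 ≤ c generalizing c with H
  · have := H (c := -c) h.neg_left (by omega)
    rwa [KZ_neg_left, KZ_neg_left] at this
  obtain ⟨c, rfl⟩ := Int.eq_ofNat_of_zero_le hc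
  rcases Nat.eq_zero_or_pos c with rfl | hc0
  · simp [KZ, K_zero]
  -- reduce d
  have hd0 : 0 ≤ d % (c : ℤ) := Int.emod_nonneg _ (by omega)
  have hd1 : d % (c : ℤ) < c := Int.emod_lt_of_pos _ (by omega)
  obtain ⟨e, he⟩ := Int.eq_ofNat_of_zero_le hd0
  have hde : d ≡ (e : ℤ) [ZMOD c] := by
    rw [← he]; exact (Int.mod_modEq d c).symm
  have hcop : Nat.Coprime c e := by
    rw [← Nat.isCoprime_iff_coprime]
    have h1 : IsCoprime (c : ℤ) (d + (c : ℤ) * (-(d / (c : ℤ)))) := by
      rw [IsCoprime.add_mul_left_right_iff]; exact h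
    have h2 : d + (c : ℤ) * (-(d / (c : ℤ))) = (e : ℤ) := by
      rw [← he, Int.emod_def]; ring
    rwa [h2] at h1
  rw [KZ_congr hde, KZ_congr (show -d ≡ -(e : ℤ) [ZMOD c] from hde.neg)]
  rcases Nat.eq_zero_or_pos e with rfl | he0
  · simp
  have hec : e < c := by
    have : (e : ℤ) < c := by rw [← he]; exact hd1
    exact_mod_cast this
  have h3 : -(e : ℤ) ≡ ((c - e : ℕ) : ℤ) [ZMOD c] := by
    rw [Int.modEq_iff_dvd]
    refine ⟨1, ?_⟩
    push_cast [Nat.cast_sub hec.le]
    ring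
  rw [KZ_congr h3, KZ_natCast, KZ_natCast]
  exact K_sub hX hcop he0 hec

theorem KZ_swap (hX : Symb X) {c d : ℤ} (h : IsCoprime c d) :
    KZ X d c = KZ X c d + X (c : ZMod p) (d : ZMod p) := by
  wlog hc : 0 ≤ c generalizing c with H
  · have := H (c := -c) h.neg_left (by omega)
    rw [KZ_neg_left, KZ_neg_right hX h.symm] at this
    rw [this]
    push_cast
    rw [hX.negl]
  wlog hd : 0 ≤ d generalizing d with H
  · have := H (d := -d) h.neg_right (by omega)
    rw [KZ_neg_left, KZ_neg_right hX h] at this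
    rw [this]
    push_cast
    rw [hX.negr]
  obtain ⟨c, rfl⟩ := Int.eq_ofNat_of_zero_le hc
  obtain ⟨d, rfl⟩ := Int.eq_ofNat_of_zero_le hd
  have hcop : Nat.Coprime c d := by
    rwa [← Nat.isCoprime_iff_coprime]
  simp only [KZ_natCast, Int.cast_natCast]
  exact K_swap hX hcop

/-- The potential of the symbol on primitive vectors `(a, c)`. -/
def Fp (X : ZMod p → ZMod p → ℤ) (w : ℤ × ℤ) : ℤ := KZ X w.2 (Int.gcdA w.1 w.2)

theorem Fp_eq {a c d : ℤ} (h : a * d ≡ 1 [ZMOD c]) : Fp X (a, c) = KZ X c d := by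
  unfold Fp
  have hcop : IsCoprime a c := by
    obtain ⟨k, hk⟩ := (Int.modEq_iff_dvd.1 h)
    exact ⟨d, k, by linarith⟩
  apply KZ_congr
  have h1 : a * Int.gcdA a c ≡ 1 [ZMOD c] := by
    have := Int.gcd_eq_gcd_ab a c
    rw [Int.isCoprime_iff_gcd_eq_one.1 hcop] at this
    rw [Int.modEq_iff_dvd]
    exact ⟨Int.gcdB a c, by push_cast at this; linarith⟩
  -- d ≡ d * (a * gcdA) = gcdA
  have h2 : Int.gcdA a c ≡ (a * d) * Int.gcdA a c [ZMOD c] := by
    have := (h.mul_right (Int.gcdA a c)).symm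
    simpa using this
  have h3 : (a * d) * Int.gcdA a c ≡ d [ZMOD c] := by
    have := h1.mul_left d
    have e : d * (a * Int.gcdA a c) = (a * d) * Int.gcdA a c := by ring
    rw [e] at this
    simpa using this
  exact h2.trans h3

theorem Fp_step1 (hX : Symb X) {a b c d : ℤ} (h : a * d - b * c = 1) :
    Fp X (b, d) - Fp X (a, c) = X (c : ZMod p) (d : ZMod p) := by
  have h1 : Fp X (a, c) = KZ X c d := Fp_eq (by
    rw [Int.modEq_iff_dvd]; exact ⟨-b, by linarith⟩)
  have h2 : Fp X (b, d) = KZ X d (-c) := Fp_eq (by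
    rw [Int.modEq_iff_dvd]; exact ⟨a, by linarith⟩)
  have hcop : IsCoprime c d := ⟨-b, a, by linarith⟩
  rw [h1, h2, KZ_neg_right hX hcop.symm, KZ_swap hX hcop]
  ring

theorem Fp_neg (hX : Symb X) {a c : ℤ} (h : IsCoprime a c) : Fp X (-a, -c) = Fp X (a, c) := by
  obtain ⟨x, y, hxy⟩ := h
  have h1 : Fp X (a, c) = KZ X c x := Fp_eq (by
    rw [Int.modEq_iff_dvd]; exact ⟨y, by linarith⟩)
  have h2 : Fp X (-a, -c) = KZ X (-c) (-x) := Fp_eq (by
    rw [Int.modEq_iff_dvd]; exact ⟨-y, by linarith⟩)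
  have hcop : IsCoprime c x := ⟨y, a, by linarith⟩
  rw [h1, h2, KZ_neg_left, KZ_neg_right hX hcop]

theorem Fp_neg_fst (hX : Symb X) {a c : ℤ} (h : IsCoprime a c) :
    Fp X (-a, c) = Fp X (a, c) := by
  obtain ⟨x, y, hxy⟩ := h
  have h1 : Fp X (a, c) = KZ X c x := Fp_eq (by
    rw [Int.modEq_iff_dvd]; exact ⟨y, by linarith⟩)
  have h2 : Fp X (-a, c) = KZ X c (-x) := Fp_eq (by
    rw [Int.modEq_iff_dvd]; exact ⟨y, by linarith⟩)
  have hcop : IsCoprime c x := ⟨y, a, by linarith⟩
  rw [h1, h2, KZ_neg_right hX hcop]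

/-- The increment formula. -/
theorem Fp_step (hX : Symb X) {a b c d : ℤ} (h : a * d - b * c = 1 ∨ a * d - b * c = -1) :
    Fp X (b, d) - Fp X (a, c) = X (c : ZMod p) (d : ZMod p) := by
  rcases h with h | h
  · exact Fp_step1 hX h
  · have h1 := Fp_step1 hX (a := a) (b := -b) (c := c) (d := -d) (by linarith)
    have hcop : IsCoprime b d := ⟨c, -a, by linarith⟩
    rw [Fp_neg hX hcop] at h1
    rw [h1]
    push_cast
    rw [hX.negr]

theorem Fp_congr {a a' c : ℤ} (h : IsCoprime a c) (hc : a ≡ a' [ZMOD c]) :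
    Fp X (a, c) = Fp X (a', c) := by
  obtain ⟨x, y, hxy⟩ := h
  have h1 : Fp X (a, c) = KZ X c x := Fp_eq (by
    rw [Int.modEq_iff_dvd]; exact ⟨y, by linarith⟩)
  have h2 : Fp X (a', c) = KZ X c x := Fp_eq (by
    have : a * x ≡ 1 [ZMOD c] := by
      rw [Int.modEq_iff_dvd]; exact ⟨y, by linarith⟩
    exact (hc.symm.mul_right x).trans this)
  rw [h1, h2]

theorem Fp_inf : Fp X (1, 0) = 0 := by
  rw [Fp_eq (d := 1) (by simp)]
  simp [KZ, K_zero]

theorem Fp_zero (hX : Symb X) : Fp X (0, 1) = 0 := by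
  have := Fp_step1 hX (a := 1) (b := 0) (c := 0) (d := 1) (by norm_num)
  rw [Fp_inf] at this
  simpa [hX.zl] using this

end general

/-- Induction along the Farey graph. -/
theorem farey_induction {P : ℤ × ℤ → Prop} (h0 : P (1, 0))
    (hstep : ∀ a b c d : ℤ, (a * d - b * c = 1 ∨ a * d - b * c = -1) → P (b, d) → P (a, c)) :
    ∀ a c : ℤ, IsCoprime a c → P (a, c) := by
  have key : ∀ n : ℕ, ∀ a c : ℤ, c.natAbs = n → IsCoprime a c → P (a, c) := by
    intro n
    induction n using Nat.strong_induction_on with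
    | _ n ih =>
      intro a c hn hac
      rcases eq_or_ne c 0 with rfl | hc
      · have ha : a = 1 ∨ a = -1 := by
          rw [isCoprime_zero_right] at hac
          exact Int.isUnit_iff.1 hac
        rcases ha with rfl | rfl
        · exact h0
        · have h01 : P (0, 1) := hstep 0 1 1 0 (by norm_num) h0
          exact hstep (-1) 0 0 1 (by norm_num) h01
      · obtain ⟨x, y, hxy⟩ := hac
        -- d = x % c
        set d := x % c with hd
        have hd0 : 0 ≤ d := Int.emod_nonneg _ hc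
        have hd1 : d < |c| := Int.emod_lt_abs _ hc
        have hx : x = d + c * (x / c) := by rw [hd, Int.emod_def]; ring
        have hdet : a * d - (-(y + a * (x / c))) * c = 1 := by
          have : x * a + y * c = 1 := hxy
          rw [hx] at this
          linarith
        have hlt : d.natAbs < n := by
          rw [← hn]
          have : (d.natAbs : ℤ) < (c.natAbs : ℤ) := by
            rw [Int.natCast_natAbs, Int.natCast_natAbs, abs_of_nonneg hd0]
            exact hd1
          exact_mod_cast this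
        have hcop : IsCoprime (-(y + a * (x / c))) d := ⟨-c, a, by linarith⟩
        exact hstep a _ c d (Or.inl hdet) (ih _ hlt _ d rfl hcop)
  intro a c h
  exact key _ a c rfl h

section prime

variable {p : ℕ} [hp : Fact p.Prime]

theorem primep : Prime (p : ℤ) := Nat.prime_iff_prime_int.1 hp.out

theorem zmod_eq_zero {d : ℤ} (h : (p : ℤ) ∣ d) : (d : ZMod p) = 0 := by
  rw [ZMod.intCast_zmod_eq_zero_iff_dvd]; exact_mod_cast h

theorem zmod_ne_zero {d : ℤ} (h : ¬ (p : ℤ) ∣ d) : (d : ZMod p) ≠ 0 := by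
  intro h'
  apply h
  have := (ZMod.intCast_zmod_eq_zero_iff_dvd d p).1 h'
  exact_mod_cast this

theorem dvd_of_zmod {d : ℤ} (h : (d : ZMod p) = 0) : (p : ℤ) ∣ d := by
  by_contra h'
  exact zmod_ne_zero h' h

theorem isCoprimep {d : ℤ} (h : ¬ (p : ℤ) ∣ d) : IsCoprime d p := by
  have := ((primep (p := p)).coprime_iff_not_dvd (n := d)).2 h
  exact this.symm

theorem not_dvd_one : ¬ (p : ℤ) ∣ 1 := by
  intro h
  exact (primep (p := p)).not_isUnit (isUnit_of_dvd_one h)

theorem not_dvd_pm {m : ℤ} (h : m = 1 ∨ m = -1) : ¬ (p : ℤ) ∣ m := by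
  rcases h with rfl | rfl
  · exact not_dvd_one
  · intro h
    exact not_dvd_one ((dvd_neg).1 h)

/-- The determinant of two integer vectors. -/
def det2 (u v : ℤ × ℤ) : ℤ := u.1 * v.2 - v.1 * u.2

/-- `v` is congruent to `x * u` modulo `m`. -/
def Cong (m x : ℤ) (u v : ℤ × ℤ) : Prop := m ∣ v.1 - x * u.1 ∧ m ∣ v.2 - x * u.2

/-- The involution of primitive vectors given by the matrix `(0, -1; p, 0)`. -/
def W (p : ℕ) (w : ℤ × ℤ) : ℤ × ℤ :=
  if (p : ℤ) ∣ w.2 then (-(w.2 / p), w.1) else (-w.2, p * w.1)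

theorem W_not {a c : ℤ} (h : ¬ (p : ℤ) ∣ c) : W p (a, c) = (-c, p * a) := by
  unfold W; rw [if_neg h]

theorem W_dvd (a c : ℤ) : W p (a, p * c) = (-c, a) := by
  unfold W
  rw [if_pos (Dvd.intro c rfl)]
  have : (p : ℤ) ≠ 0 := (primep (p := p)).ne_zero
  simp only [Int.mul_ediv_cancel_left c this]

/-- The functions on primitive vectors which give functionals on the coinvariants. -/
structure Pot (p : ℕ) (F : ℤ × ℤ → ℤ) : Prop where
  inf : F (1, 0) = 0
  neg : ∀ {a c : ℤ}, IsCoprime a c → F (-a, -c) = F (a, c)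
  neg_fst : ∀ {a c : ℤ}, IsCoprime a c → F (-a, c) = F (a, c)
  congr : ∀ {a a' c : ℤ}, IsCoprime a c → a ≡ a' [ZMOD c] → F (a, c) = F (a', c)
  cusp : ∀ {a b c d : ℤ}, (a * d - b * c = 1 ∨ a * d - b * c = -1) →
    ((p : ℤ) ∣ c ∨ (p : ℤ) ∣ d) → F (b, d) = F (a, c)
  gamma : ∀ {x q r s : ℤ}, (x * s - q * r = 1 ∨ x * s - q * r = -1) → (p : ℤ) ∣ r →
    ∀ {a c : ℤ}, IsCoprime a c → F (x * a + q * c, r * a + s * c) - F (a, c) = F (x, r)

/-- Quasi-invariance of `Fp` under `Γ₀(p)` extended by matrices of determinant `-1`. -/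
theorem Fp_gamma {X : ZMod p → ZMod p → ℤ} (hX : Symb X) {x q r s : ℤ}
    (hdet : x * s - q * r = 1 ∨ x * s - q * r = -1)
    (hr : (p : ℤ) ∣ r) {a c : ℤ} (hac : IsCoprime a c) :
    Fp X (x * a + q * c, r * a + s * c) - Fp X (a, c) = Fp X (x, r) := by
  have hs : (s : ZMod p) ≠ 0 := by
    apply zmod_ne_zero
    intro h11
    exact not_dvd_pm hdet (dvd_sub (h11.mul_left x) (hr.mul_left q))
  have hr0 : (r : ZMod p) = 0 := zmod_eq_zero hr
  refine farey_induction (P := fun w => Fp X (x * w.1 + q * w.2, r * w.1 + s * w.2) - Fp X w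
    = Fp X (x, r)) ?_ ?_ a c hac
  · simp [Fp_inf]
  · intro a b c d h hb
    simp only at hb ⊢
    have h1 := Fp_step hX h
    have h2 : Fp X (x * b + q * d, r * b + s * d) - Fp X (x * a + q * c, r * a + s * c) =
        X ((r * a + s * c : ℤ) : ZMod p) ((r * b + s * d : ℤ) : ZMod p) := by
      apply Fp_step hX
      have e : (x * a + q * c) * (r * b + s * d) - (x * b + q * d) * (r * a + s * c) =
          (x * s - q * r) * (a * d - b * c) := by ring
      rw [e]
      rcases hdet with h3 | h3 <;> rcases h with h4 | h4 <;> rw [h3, h4] <;> norm_num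
    have h5 : X ((r * a + s * c : ℤ) : ZMod p) ((r * b + s * d : ℤ) : ZMod p) =
        X (c : ZMod p) (d : ZMod p) := by
      push_cast
      rw [hr0, zero_mul, zero_add, zero_mul, zero_add]
      exact hX.mul _ _ _ hs
    linarith

theorem pot_Fp {X : ZMod p → ZMod p → ℤ} (hX : Symb X) : Pot p (Fp X) where
  inf := Fp_inf
  neg := Fp_neg hX
  neg_fst := Fp_neg_fst hX
  congr := Fp_congr
  cusp := by
    intro a b c d h h'
    have h1 := Fp_step hX h
    rcases h' with h' | h'
    · rw [zmod_eq_zero h', hX.zl] at h1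
      omega
    · rw [zmod_eq_zero h', hX.zr] at h1
      omega
  gamma := Fp_gamma hX

end prime

end Pool.Agent.KS6_96.Bd
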