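import Pool.Agent.KS6_96.Bd.Farey

/-!
# Three term sums of even antisymmetric functions

The three term sums of the even, antisymmetric, homogeneous functions on `ZMod p × ZMod p` with
integer values are all the antisymmetric, cyclically invariant, homogeneous functions which vanish
at the zeros of `c² + c d + d²`.
-/

set_option linter.unusedSectionVars false

namespace Pool.Agent.KS6_96.Bd

variable {p : ℕ} [hp : Fact p.Prime]

/-- Even, antisymmetric, homogeneous functions. -/
structure Ea (X : ZMod p → ZMod p → ℤ) : Prop where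
  swap : ∀ c d, X d c = - X c d
  negl : ∀ c d, X (-c) d = X c d
  mul : ∀ l c d, l ≠ 0 → X (l * c) (l * d) = X c d

/-- The three term sum. -/
def RR (X : ZMod p → ZMod p → ℤ) (c d : ZMod p) : ℤ := X c d + X d (-c - d) + X (-c - d) c

theorem Ea.add {X Y : ZMod p → ZMod p → ℤ} (hX : Ea X) (hY : Ea Y) :
    Ea (fun c d => X c d + Y c d) where
  swap := fun c d => by rw [hX.swap, hY.swap]; ring
  negl := fun c d => by rw [hX.negl, hY.negl]
  mul := fun l c d h => by rw [hX.mul l c d h, hY.mul l c d h]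

theorem Ea.smul {X : ZMod p → ZMod p → ℤ} (hX : Ea X) (n : ℤ) :
    Ea (fun c d => n * X c d) where
  swap := fun c d => by rw [hX.swap]; ring
  negl := fun c d => by rw [hX.negl]
  mul := fun l c d h => by rw [hX.mul l c d h]

theorem ea_zero : Ea (fun _ _ => 0 : ZMod p → ZMod p → ℤ) where
  swap := fun _ _ => by simp
  negl := fun _ _ => rfl
  mul := fun _ _ _ _ => rfl

/-- `g` is a three term sum. -/
def InIm (g : ZMod p → ZMod p → ℤ) : Prop := ∃ X, Ea X ∧ ∀ c d, RR X c d = g c d

theorem InIm.add {g h : ZMod p → ZMod p → ℤ} (hg : InIm g) (hh : InIm h) :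
    InIm (fun c d => g c d + h c d) := by
  obtain ⟨X, hX, hX'⟩ := hg
  obtain ⟨Y, hY, hY'⟩ := hh
  refine ⟨_, hX.add hY, fun c d => ?_⟩
  change _ = g c d + h c d
  rw [← hX', ← hY']
  unfold RR
  ring

theorem InIm.smul {g : ZMod p → ZMod p → ℤ} (hg : InIm g) (n : ℤ) :
    InIm (fun c d => n * g c d) := by
  obtain ⟨X, hX, hX'⟩ := hg
  refine ⟨_, hX.smul n, fun c d => ?_⟩
  change _ = n * g c d
  rw [← hX']
  unfold RR
  ring

theorem inIm_zero : InIm (fun _ _ => 0 : ZMod p → ZMod p → ℤ) :=
  ⟨_, ea_zero, fun c d => by simp [RR]⟩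

theorem InIm.sum {ι : Type*} (s : Finset ι) {g : ι → ZMod p → ZMod p → ℤ}
    (hg : ∀ i ∈ s, InIm (g i)) : InIm (fun c d => ∑ i ∈ s, g i c d) := by
  classical
  induction s using Finset.induction_on with
  | empty => simpa using inIm_zero
  | insert i s hi ih =>
    have h1 := (hg i (Finset.mem_insert_self i s)).add
      (ih fun j hj => hg j (Finset.mem_insert_of_mem hj))
    obtain ⟨X, hX, hX'⟩ := h1
    refine ⟨X, hX, fun c d => ?_⟩
    rw [hX' c d]
    exact (Finset.sum_insert (f := fun j => g j c d) hi).symm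

/-- The indicator of the point `(a : b)`. -/
def dl (a b c d : ZMod p) : ℤ := if (c ≠ 0 ∨ d ≠ 0) ∧ a * d = b * c then 1 else 0

theorem dl_congr {a b c d a' b' c' d' : ZMod p} (h1 : (c ≠ 0 ∨ d ≠ 0) ↔ (c' ≠ 0 ∨ d' ≠ 0))
    (h2 : a * d = b * c ↔ a' * d' = b' * c') : dl a b c d = dl a' b' c' d' := by
  unfold dl
  by_cases h : (c ≠ 0 ∨ d ≠ 0) ∧ a * d = b * c
  · rw [if_pos h, if_pos ⟨h1.1 h.1, h2.1 h.2⟩]
  · rw [if_neg h, if_neg (fun h' => h ⟨h1.2 h'.1, h2.2 h'.2⟩)]

theorem dl_swap (a b c d : ZMod p) : dl a b d c = dl b a c d := by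
  apply dl_congr
  · exact or_comm
  · rw [eq_comm]

theorem dl_negl (a b c d : ZMod p) : dl a b (-c) d = dl a (-b) c d := by
  apply dl_congr
  · simp
  · rw [mul_neg, neg_mul]

theorem dl_mul (a b l c d : ZMod p) (hl : l ≠ 0) : dl a b (l * c) (l * d) = dl a b c d := by
  apply dl_congr
  · simp [hl]
  · constructor
    · intro h
      have : l * (a * d) = l * (b * c) := by linear_combination h
      exact mul_left_cancel₀ hl this
    · intro h
      linear_combination l * h

theorem dl_neg_neg (a b c d : ZMod p) : dl (-a) (-b) c d = dl a b c d := by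
  apply dl_congr Iff.rfl
  constructor
  · intro h; linear_combination -h
  · intro h; linear_combination -h

/-- The basic even antisymmetric function. -/
def al (a b c d : ZMod p) : ℤ := dl a b c d + dl a (-b) c d - dl b a c d - dl (-b) a c d

theorem ea_al (a b : ZMod p) : Ea (al a b) where
  swap := fun c d => by
    unfold al
    have e1 : dl a (-b) d c = dl (-b) a c d := dl_swap _ _ _ _
    have e2 : dl (-b) a d c = dl a (-b) c d := dl_swap _ _ _ _
    have e3 : dl a b d c = dl b a c d := dl_swap _ _ _ _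
    have e4 : dl b a d c = dl a b c d := dl_swap _ _ _ _
    rw [e1, e2, e3, e4]
    ring
  negl := fun c d => by
    unfold al
    have e3 : dl b (-a) c d = dl (-b) a c d := by
      have := dl_neg_neg b (-a) c d
      rw [neg_neg] at this
      exact this.symm
    have e4 : dl (-b) (-a) c d = dl b a c d := dl_neg_neg _ _ _ _
    rw [dl_negl, dl_negl, dl_negl, dl_negl, neg_neg, e3, e4]
    ring
  mul := fun l c d hl => by
    unfold al
    rw [dl_mul _ _ _ _ _ hl, dl_mul _ _ _ _ _ hl, dl_mul _ _ _ _ _ hl, dl_mul _ _ _ _ _ hl]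

/-- The cyclic sum of the indicator. -/
def ga (a b c d : ZMod p) : ℤ := dl a b c d + dl a b d (-c - d) + dl a b (-c - d) c

/-- The antisymmetrisation of `ga`. -/
def be (a b c d : ZMod p) : ℤ := ga a b c d - ga b a c d

theorem RR_al (a b c d : ZMod p) : RR (al a b) c d = be a b c d + be a (-b) c d := by
  unfold RR al be ga
  ring

theorem nz_cyc (c d : ZMod p) : (c ≠ 0 ∨ d ≠ 0) ↔ (-c - d ≠ 0 ∨ c ≠ 0) := by
  by_cases hc : c = 0
  · subst hc; simp
  · simp [hc]

theorem nz_cyc2 (c d : ZMod p) : (d ≠ 0 ∨ -c - d ≠ 0) ↔ (c ≠ 0 ∨ d ≠ 0) := by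
  by_cases hd : d = 0
  · subst hd; simp
  · simp [hd]

theorem ga_cyc (a b c d : ZMod p) : ga b (-a - b) c d = ga a b c d := by
  unfold ga
  have e1 : dl b (-a - b) c d = dl a b (-c - d) c := by
    apply dl_congr (nz_cyc c d)
    constructor
    · intro h; linear_combination h
    · intro h; linear_combination h
  have e2 : dl b (-a - b) d (-c - d) = dl a b c d := by
    apply dl_congr (nz_cyc2 c d)
    constructor
    · intro h; linear_combination h
    · intro h; linear_combination h
  have e3 : dl b (-a - b) (-c - d) c = dl a b d (-c - d) := by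
    apply dl_congr ((nz_cyc c d).symm.trans (nz_cyc2 c d).symm)
    constructor
    · intro h; linear_combination h
    · intro h; linear_combination h
  rw [e1, e2, e3]
  ring

theorem be_cyc (a b c d : ZMod p) : be b (-a - b) c d = be a b c d := by
  unfold be
  have h := ga_cyc (-a - b) b c d
  have e : -(-a - b) - b = a := by ring
  rw [e] at h
  rw [ga_cyc, ← h]

theorem im_neg {a b : ZMod p} (h : InIm (be a b)) : InIm (be a (-b)) := by
  have h0 : InIm (RR (al a b)) := ⟨al a b, ea_al a b, fun c d => rfl⟩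
  have h1 := InIm.add h0 (h.smul (-1))
  obtain ⟨X, hX, hX'⟩ := h1
  refine ⟨X, hX, fun c d => ?_⟩
  rw [hX']
  change RR (al a b) c d + -1 * be a b c d = _
  rw [RR_al]
  ring

theorem im_swap {a b : ZMod p} (h : InIm (be a b)) : InIm (be b a) := by
  obtain ⟨X, hX, hX'⟩ := h.smul (-1)
  refine ⟨X, hX, fun c d => ?_⟩
  rw [hX']
  unfold be
  ring

theorem im_cyc {a b : ZMod p} (h : InIm (be a b)) : InIm (be b (-a - b)) := by
  obtain ⟨X, hX, hX'⟩ := h
  refine ⟨X, hX, fun c d => ?_⟩
  rw [hX', be_cyc]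

theorem im_add {a b : ZMod p} (h : InIm (be a b)) : InIm (be (a + b) b) := by
  have h1 := im_swap (im_neg (im_cyc h))
  have e : -(-a - b) = a + b := by ring
  rwa [e] at h1

theorem im_nat (k : ℕ) : InIm (be (((k + 1 : ℕ) : ZMod p)) 1) := by
  induction k with
  | zero =>
    refine ⟨_, ea_zero, fun c d => ?_⟩
    simp [RR, be]
  | succ k ih =>
    have := im_add ih
    have e : ((k + 1 + 1 : ℕ) : ZMod p) = ((k + 1 : ℕ) : ZMod p) + 1 := by push_cast; ring
    rw [e]
    exact this

theorem im_one (x : ZMod p) : InIm (be x 1) := by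
  have h := im_nat (p := p) (x.val + (p - 1))
  have e : ((x.val + (p - 1) + 1 : ℕ) : ZMod p) = x := by
    have h1 : x.val + (p - 1) + 1 = x.val + p := by have := hp.out.pos; omega
    rw [h1]
    push_cast
    rw [ZMod.natCast_zmod_val, ZMod.natCast_self, add_zero]
  rwa [e] at h

theorem im_inf : InIm (be (1 : ZMod p) 0) := im_swap (im_one 0)

/-- Completeness of the points. -/
theorem sum_dl {h : ZMod p → ZMod p → ℤ} (hh : ∀ l c d, l ≠ 0 → h (l * c) (l * d) = h c d)
    {c d : ZMod p} (hcd : c ≠ 0 ∨ d ≠ 0) :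
    ∑ x : ZMod p, h x 1 * dl x 1 c d + h 1 0 * dl 1 0 c d = h c d := by
  by_cases hd : d = 0
  · subst hd
    have hc : c ≠ 0 := by simpa using hcd
    have h0 : ∑ x : ZMod p, h x 1 * dl x 1 c 0 = 0 := by
      apply Finset.sum_eq_zero
      intro x _
      unfold dl
      rw [if_neg, mul_zero]
      rintro ⟨-, h⟩
      rw [mul_zero, one_mul] at h
      exact hc h.symm
    have h1 : dl 1 0 c 0 = 1 := by
      unfold dl
      rw [if_pos]
      exact ⟨Or.inl hc, by simp⟩
    rw [h0, h1, zero_add, mul_one]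
    have := hh c 1 0 hc
    rw [mul_one, mul_zero] at this
    exact this.symm
  · rw [Finset.sum_eq_single (c / d)]
    · have h1 : dl (c / d) 1 c d = 1 := by
        unfold dl
        rw [if_pos]
        refine ⟨hcd, ?_⟩
        field_simp
      have h2 : dl 1 0 c d = 0 := by
        unfold dl
        rw [if_neg]
        rintro ⟨-, h⟩
        rw [one_mul, zero_mul] at h
        exact hd h
      rw [h1, h2, mul_one, mul_zero, add_zero]
      have := hh d (c / d) 1 hd
      rw [mul_one, mul_div_cancel₀ _ hd] at this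
      exact this.symm
    · intro x _ hx
      unfold dl
      rw [if_neg, mul_zero]
      rintro ⟨-, h⟩
      apply hx
      rw [one_mul] at h
      rw [← h]
      field_simp
    · intro h
      exact absurd (Finset.mem_univ _) h

theorem ga_swap (a b c d : ZMod p) :
    ga b a c d = dl a b d c + dl a b (-c - d) d + dl a b c (-c - d) := by
  unfold ga
  rw [← dl_swap a b c d, ← dl_swap a b d (-c - d), ← dl_swap a b (-c - d) c]

theorem be_eq (a b c d : ZMod p) :
    be a b c d = (dl a b c d + dl a b d (-c - d) + dl a b (-c - d) c) -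
      (dl a b d c + dl a b (-c - d) d + dl a b c (-c - d)) := by
  unfold be
  rw [ga_swap a b c d]
  unfold ga
  rfl

/-- The antisymmetrisation of a homogeneous function is a three term sum. -/
theorem im_anti {h : ZMod p → ZMod p → ℤ} (hh : ∀ l c d, l ≠ 0 → h (l * c) (l * d) = h c d) :
    InIm (fun c d => h c d + h d (-c - d) + h (-c - d) c - h d c - h (-c - d) d -
      h c (-c - d)) := by
  have h1 : InIm (fun c d => (∑ x : ZMod p, h x 1 * be x 1 c d) + h 1 0 * be 1 0 c d) :=
    (InIm.sum Finset.univ (fun x _ => (im_one x).smul (h x 1))).add (im_inf.smul (h 1 0))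
  obtain ⟨X, hX, hX'⟩ := h1
  refine ⟨X, hX, fun c d => ?_⟩
  rw [hX']
  change (∑ x : ZMod p, h x 1 * be x 1 c d) + h 1 0 * be 1 0 c d =
    h c d + h d (-c - d) + h (-c - d) c - h d c - h (-c - d) d - h c (-c - d)
  by_cases hcd : c ≠ 0 ∨ d ≠ 0
  · have s1 := sum_dl hh hcd
    have s2 := sum_dl hh ((nz_cyc2 c d).2 hcd)
    have s3 := sum_dl hh ((nz_cyc c d).1 hcd)
    have s4 := sum_dl hh hcd.symm
    have s5 := sum_dl hh ((nz_cyc2 c d).2 hcd).symm
    have s6 := sum_dl hh ((nz_cyc c d).1 hcd).symm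
    rw [← s1, ← s2, ← s3, ← s4, ← s5, ← s6]
    simp only [be_eq]
    simp only [mul_sub, mul_add, Finset.sum_sub_distrib, Finset.sum_add_distrib]
    ring
  · push Not at hcd
    obtain ⟨rfl, rfl⟩ := hcd
    have h0 : ∀ a b : ZMod p, be a b 0 0 = 0 := by
      intro a b
      unfold be ga dl
      simp
    simp only [h0, mul_zero, Finset.sum_const_zero, sub_zero, neg_zero, add_zero]
    ring

end Pool.Agent.KS6_96.Bd
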