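import Pool.Agent.KS6_96.Bd.Lift

/-!
# Surjectivity of the three term sum
-/

set_option linter.unusedSectionVars false

namespace Pool.Agent.KS6_96.Bd

/-- `x` is a lower bound of six numbers. -/
def Mn (x a1 a2 a3 a4 a5 a6 : ℕ) : Prop :=
  x ≤ a1 ∧ x ≤ a2 ∧ x ≤ a3 ∧ x ≤ a4 ∧ x ≤ a5 ∧ x ≤ a6

theorem exists_Mn (a1 a2 a3 a4 a5 a6 : ℕ) :
    Mn a1 a1 a2 a3 a4 a5 a6 ∨ Mn a2 a1 a2 a3 a4 a5 a6 ∨ Mn a3 a1 a2 a3 a4 a5 a6 ∨
      Mn a4 a1 a2 a3 a4 a5 a6 ∨ Mn a5 a1 a2 a3 a4 a5 a6 ∨ Mn a6 a1 a2 a3 a4 a5 a6 := by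
  have hmem : min a1 (min a2 (min a3 (min a4 (min a5 a6)))) = a1 ∨
      min a1 (min a2 (min a3 (min a4 (min a5 a6)))) = a2 ∨
      min a1 (min a2 (min a3 (min a4 (min a5 a6)))) = a3 ∨
      min a1 (min a2 (min a3 (min a4 (min a5 a6)))) = a4 ∨
      min a1 (min a2 (min a3 (min a4 (min a5 a6)))) = a5 ∨
      min a1 (min a2 (min a3 (min a4 (min a5 a6)))) = a6 := by
    rcases min_choice a1 (min a2 (min a3 (min a4 (min a5 a6)))) with h | h
    · exact Or.inl h
    · rw [h]
      rcases min_choice a2 (min a3 (min a4 (min a5 a6))) with h | h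
      · exact Or.inr (Or.inl h)
      · rw [h]
        rcases min_choice a3 (min a4 (min a5 a6)) with h | h
        · exact Or.inr (Or.inr (Or.inl h))
        · rw [h]
          rcases min_choice a4 (min a5 a6) with h | h
          · exact Or.inr (Or.inr (Or.inr (Or.inl h)))
          · rw [h]
            rcases min_choice a5 a6 with h | h
            · exact Or.inr (Or.inr (Or.inr (Or.inr (Or.inl h))))
            · exact Or.inr (Or.inr (Or.inr (Or.inr (Or.inr h))))
  have hle : Mn (min a1 (min a2 (min a3 (min a4 (min a5 a6))))) a1 a2 a3 a4 a5 a6 := by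
    unfold Mn
    refine ⟨?_, ?_, ?_, ?_, ?_, ?_⟩
    · exact min_le_left _ _
    · exact (min_le_right _ _).trans (min_le_left _ _)
    · exact (min_le_right _ _).trans ((min_le_right _ _).trans (min_le_left _ _))
    · exact (min_le_right _ _).trans ((min_le_right _ _).trans ((min_le_right _ _).trans
        (min_le_left _ _)))
    · exact (min_le_right _ _).trans ((min_le_right _ _).trans ((min_le_right _ _).trans
        ((min_le_right _ _).trans (min_le_left _ _))))
    · exact (min_le_right _ _).trans ((min_le_right _ _).trans ((min_le_right _ _).trans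
        ((min_le_right _ _).trans (min_le_right _ _))))
  rcases hmem with h | h | h | h | h | h <;> rw [h] at hle <;> tauto

open Classical in
/-- The indicator of the minimum of six numbers. -/
noncomputable def mi (x a1 a2 a3 a4 a5 a6 : ℕ) : ℤ := if Mn x a1 a2 a3 a4 a5 a6 then 1 else 0

theorem mi_one {x a1 a2 a3 a4 a5 a6 : ℕ} (h : Mn x a1 a2 a3 a4 a5 a6) :
    mi x a1 a2 a3 a4 a5 a6 = 1 := by
  unfold mi; rw [if_pos h]

theorem mi_zero {x a1 a2 a3 a4 a5 a6 : ℕ} (h : ¬ Mn x a1 a2 a3 a4 a5 a6) :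
    mi x a1 a2 a3 a4 a5 a6 = 0 := by
  unfold mi; rw [if_neg h]

theorem mi_congr {x a1 a2 a3 a4 a5 a6 y b1 b2 b3 b4 b5 b6 : ℕ}
    (h : Mn x a1 a2 a3 a4 a5 a6 ↔ Mn y b1 b2 b3 b4 b5 b6) :
    mi x a1 a2 a3 a4 a5 a6 = mi y b1 b2 b3 b4 b5 b6 := by
  by_cases h' : Mn x a1 a2 a3 a4 a5 a6
  · rw [mi_one h', mi_one (h.1 h')]
  · rw [mi_zero h', mi_zero (fun h'' => h' (h.2 h''))]

theorem sum_mi {a1 a2 a3 a4 a5 a6 : ℕ} (h12 : a1 ≠ a2) (h13 : a1 ≠ a3) (h14 : a1 ≠ a4)
    (h15 : a1 ≠ a5) (h16 : a1 ≠ a6) (h23 : a2 ≠ a3) (h24 : a2 ≠ a4) (h25 : a2 ≠ a5)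
    (h26 : a2 ≠ a6) (h34 : a3 ≠ a4) (h35 : a3 ≠ a5) (h36 : a3 ≠ a6) (h45 : a4 ≠ a5)
    (h46 : a4 ≠ a6) (h56 : a5 ≠ a6) :
    mi a1 a1 a2 a3 a4 a5 a6 + mi a2 a1 a2 a3 a4 a5 a6 + mi a3 a1 a2 a3 a4 a5 a6 +
      mi a4 a1 a2 a3 a4 a5 a6 + mi a5 a1 a2 a3 a4 a5 a6 + mi a6 a1 a2 a3 a4 a5 a6 = 1 := by
  rcases exists_Mn a1 a2 a3 a4 a5 a6 with h | h | h | h | h | h
  · rw [mi_one h, mi_zero, mi_zero, mi_zero, mi_zero, mi_zero]
    · norm_num
    all_goals unfold Mn at *; omega
  · rw [mi_zero, mi_one h, mi_zero, mi_zero, mi_zero, mi_zero]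
    · norm_num
    all_goals unfold Mn at *; omega
  · rw [mi_zero, mi_zero, mi_one h, mi_zero, mi_zero, mi_zero]
    · norm_num
    all_goals unfold Mn at *; omega
  · rw [mi_zero, mi_zero, mi_zero, mi_one h, mi_zero, mi_zero]
    · norm_num
    all_goals unfold Mn at *; omega
  · rw [mi_zero, mi_zero, mi_zero, mi_zero, mi_one h, mi_zero]
    · norm_num
    all_goals unfold Mn at *; omega
  · rw [mi_zero, mi_zero, mi_zero, mi_zero, mi_zero, mi_one h]
    · norm_num
    all_goals unfold Mn at *; omega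

variable {p : ℕ} [hp : Fact p.Prime]

/-- The rank of the point `(c : d)`. -/
def rk (c d : ZMod p) : ℕ := if d = 0 then p else (c / d).val

theorem rk_mul {l : ZMod p} (c d : ZMod p) (hl : l ≠ 0) : rk (l * c) (l * d) = rk c d := by
  unfold rk
  by_cases hd : d = 0
  · rw [if_pos hd, if_pos (by rw [hd, mul_zero])]
  · rw [if_neg hd, if_neg (mul_ne_zero hl hd), mul_div_mul_left _ _ hl]

theorem rk_inj {c d c' d' : ZMod p} (h : rk c d = rk c' d') : c * d' = c' * d := by
  unfold rk at h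
  by_cases hd : d = 0
  · by_cases hd' : d' = 0
    · rw [hd, hd']; ring
    · rw [if_pos hd, if_neg hd'] at h
      have := ZMod.val_lt (c' / d')
      omega
  · by_cases hd' : d' = 0
    · rw [if_pos hd', if_neg hd] at h
      have := ZMod.val_lt (c / d)
      omega
    · rw [if_neg hd, if_neg hd'] at h
      have := ZMod.val_injective p h
      field_simp at this
      rw [this, mul_comm]

/-- The weight of the point `(c : d)`. -/
noncomputable def wt (c d : ZMod p) : ℤ :=
  mi (rk c d) (rk c d) (rk d (-c - d)) (rk (-c - d) c) (rk d c) (rk (-c - d) d) (rk c (-c - d))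

theorem wt_mul {l : ZMod p} (c d : ZMod p) (hl : l ≠ 0) : wt (l * c) (l * d) = wt c d := by
  unfold wt
  have e : -(l * c) - l * d = l * (-c - d) := by ring
  rw [e]
  simp only [rk_mul _ _ hl]

theorem proj_of_cross {c d c' d' : ZMod p} (h1 : c ≠ 0 ∨ d ≠ 0) (h2 : c' ≠ 0 ∨ d' ≠ 0)
    (h : c * d' = c' * d) : ∃ l : ZMod p, l ≠ 0 ∧ c = l * c' ∧ d = l * d' := by
  by_cases hc : c' = 0
  · subst hc
    have hd' : d' ≠ 0 := by simpa using h2
    have hc0 : c = 0 := by
      rw [zero_mul] at h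
      exact (mul_eq_zero.1 h).resolve_right hd'
    have hd : d ≠ 0 := by
      rcases h1 with h1 | h1
      · exact absurd hc0 h1
      · exact h1
    exact ⟨d / d', div_ne_zero hd hd', by rw [hc0, mul_zero], by field_simp⟩
  · by_cases hc0 : c = 0
    · exfalso
      rw [hc0, zero_mul] at h
      have hd : d = 0 := (mul_eq_zero.1 h.symm).resolve_left hc
      rcases h1 with h1 | h1
      · exact h1 hc0
      · exact h1 hd
    · refine ⟨c / c', div_ne_zero hc0 hc, by field_simp, ?_⟩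
      field_simp
      rw [h]; ring

/-- **Surjectivity of the three term sum.** -/
theorem inIm_of {g : ZMod p → ZMod p → ℤ} (hmul : ∀ l c d, l ≠ 0 → g (l * c) (l * d) = g c d)
    (hcyc : ∀ c d, g d (-c - d) = g c d) (hswap : ∀ c d, g d c = - g c d)
    (hfix : ∀ c d, c * c + c * d + d * d = 0 → g c d = 0) : InIm g := by
  have h1 := im_anti (h := fun c d => wt c d * g c d) (fun l c d hl => by
    rw [wt_mul c d hl, hmul l c d hl])
  obtain ⟨X, hX, hX'⟩ := h1
  refine ⟨X, hX, fun c d => ?_⟩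
  rw [hX']
  change wt c d * g c d + wt d (-c - d) * g d (-c - d) + wt (-c - d) c * g (-c - d) c -
    wt d c * g d c - wt (-c - d) d * g (-c - d) d - wt c (-c - d) * g c (-c - d) = g c d
  have g2 : g d (-c - d) = g c d := hcyc c d
  have g3 : g (-c - d) c = g c d := by
    have := hcyc (-c - d) c
    have e : -(-c - d) - c = d := by ring
    rw [e] at this
    exact this.symm
  have g4 : g d c = - g c d := hswap c d
  have g5 : g (-c - d) d = - g c d := by rw [hswap, g2]
  have g6 : g c (-c - d) = - g c d := by rw [hswap, g3]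
  rw [g2, g3, g4, g5, g6]
  by_cases h0 : g c d = 0
  · rw [h0]; ring
  have hcd : c ≠ 0 ∨ d ≠ 0 := by
    by_contra h
    push Not at h
    apply h0
    apply hfix
    rw [h.1, h.2]; ring
  have q0 : c * c + c * d + d * d ≠ 0 := fun h => h0 (hfix c d h)
  have n2 := (nz_cyc2 c d).2 hcd
  have n3 := (nz_cyc c d).1 hcd
  have key : ∀ {a b a' b' : ZMod p}, (a ≠ 0 ∨ b ≠ 0) → (a' ≠ 0 ∨ b' ≠ 0) → g a b = g c d →
      g a' b' = - g c d → rk a b ≠ rk a' b' := by
    intro a b a' b' n n' e e' h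
    obtain ⟨l, hl, h1, h2⟩ := proj_of_cross n n' (rk_inj h)
    rw [h1, h2, hmul l _ _ hl, e'] at e
    omega
  have w2 : wt d (-c - d) = mi (rk d (-c - d)) (rk c d) (rk d (-c - d)) (rk (-c - d) c) (rk d c)
      (rk (-c - d) d) (rk c (-c - d)) := by
    unfold wt
    have e : -d - (-c - d) = c := by ring
    rw [e]
    apply mi_congr
    unfold Mn
    tauto
  have w3 : wt (-c - d) c = mi (rk (-c - d) c) (rk c d) (rk d (-c - d)) (rk (-c - d) c) (rk d c)
      (rk (-c - d) d) (rk c (-c - d)) := by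
    unfold wt
    have e : -(-c - d) - c = d := by ring
    rw [e]
    apply mi_congr
    unfold Mn
    tauto
  have w4 : wt d c = mi (rk d c) (rk c d) (rk d (-c - d)) (rk (-c - d) c) (rk d c)
      (rk (-c - d) d) (rk c (-c - d)) := by
    unfold wt
    have e : -d - c = -c - d := by ring
    rw [e]
    apply mi_congr
    unfold Mn
    tauto
  have w5 : wt (-c - d) d = mi (rk (-c - d) d) (rk c d) (rk d (-c - d)) (rk (-c - d) c) (rk d c)
      (rk (-c - d) d) (rk c (-c - d)) := by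
    unfold wt
    have e : -(-c - d) - d = c := by ring
    rw [e]
    apply mi_congr
    unfold Mn
    tauto
  have w6 : wt c (-c - d) = mi (rk c (-c - d)) (rk c d) (rk d (-c - d)) (rk (-c - d) c) (rk d c)
      (rk (-c - d) d) (rk c (-c - d)) := by
    unfold wt
    have e : -c - (-c - d) = d := by ring
    rw [e]
    apply mi_congr
    unfold Mn
    tauto
  have hs := sum_mi (a1 := rk c d) (a2 := rk d (-c - d)) (a3 := rk (-c - d) c) (a4 := rk d c)
    (a5 := rk (-c - d) d) (a6 := rk c (-c - d))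
    (fun h => q0 (by linear_combination -(rk_inj h)))
    (fun h => q0 (by linear_combination rk_inj h))
    (key hcd hcd.symm rfl g4)
    (key hcd n2.symm rfl g5)
    (key hcd n3.symm rfl g6)
    (fun h => q0 (by linear_combination -(rk_inj h)))
    (key n2 hcd.symm g2 g4)
    (key n2 n2.symm g2 g5)
    (key n2 n3.symm g2 g6)
    (key n3 hcd.symm g3 g4)
    (key n3 n2.symm g3 g5)
    (key n3 n3.symm g3 g6)
    (fun h => q0 (by linear_combination rk_inj h))
    (fun h => q0 (by linear_combination -(rk_inj h)))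
    (fun h => q0 (by linear_combination rk_inj h))
  have w1 : wt c d = mi (rk c d) (rk c d) (rk d (-c - d)) (rk (-c - d) c) (rk d c)
      (rk (-c - d) d) (rk c (-c - d)) := rfl
  rw [w2, w3, w4, w5, w6, w1]
  linear_combination (g c d) * hs

end Pool.Agent.KS6_96.Bd
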