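import Mathlib

/-!
# The ring `ℤ[1/p]` is a Euclidean domain
-/

set_option linter.unusedSectionVars false

namespace Pool.Agent.KS6_96.Bd

/-- The ring `ℤ[1/p]`. -/
abbrev Zp (p : ℕ) : Type := Localization.Away (p : ℤ)

variable {p : ℕ} [hp : Fact p.Prime]

theorem powers_le : Submonoid.powers (p : ℤ) ≤ nonZeroDivisors ℤ :=
  powers_le_nonZeroDivisors_of_noZeroDivisors (by exact_mod_cast hp.out.ne_zero)

instance instDomZp : IsDomain (Zp p) :=
  IsLocalization.isDomain_localization (powers_le (p := p))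

theorem cast_inj {a b : ℤ} (h : (a : Zp p) = (b : Zp p)) : a = b := by
  have hinj : Function.Injective (algebraMap ℤ (Zp p)) :=
    IsLocalization.injective (Zp p) (powers_le (p := p))
  apply hinj
  simpa using h

instance instCharZeroZp : CharZero (Zp p) := by
  constructor
  intro a b h
  have : ((a : ℤ) : Zp p) = ((b : ℤ) : Zp p) := by simpa using h
  exact_mod_cast cast_inj this

theorem isUnit_p : IsUnit (p : Zp p) := by
  have := IsLocalization.Away.algebraMap_isUnit (S := Zp p) (p : ℤ)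
  simpa using this

theorem exists_num (x : Zp p) : ∃ (n : ℤ) (k : ℕ), x * (p : Zp p) ^ k = (n : Zp p) := by
  obtain ⟨n, k, h⟩ := IsLocalization.Away.surj (p : ℤ) x
  refine ⟨k, n, ?_⟩
  simpa using h

/-- The Euclidean norm: the least positive integer in the ideal generated by `x`. -/
noncomputable def nrmZ (x : Zp p) : ℕ := sInf {m : ℕ | 0 < m ∧ ∃ y : Zp p, (m : Zp p) = x * y}

theorem nrmZ_zero : nrmZ (0 : Zp p) = 0 := by
  unfold nrmZ
  have : {m : ℕ | 0 < m ∧ ∃ y : Zp p, (m : Zp p) = 0 * y} = ∅ := by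
    ext m
    simp only [zero_mul, exists_const, Set.mem_ofPred_eq, Set.mem_empty_iff_false, iff_false,
      not_and]
    intro hm h
    exact hm.ne' (by exact_mod_cast h)
  rw [this, Nat.sInf_empty]

theorem nrmZ_spec {x : Zp p} (hx : x ≠ 0) :
    0 < nrmZ x ∧ ∃ y : Zp p, (nrmZ x : Zp p) = x * y := by
  have hne : {m : ℕ | 0 < m ∧ ∃ y : Zp p, (m : Zp p) = x * y}.Nonempty := by
    obtain ⟨n, k, h⟩ := exists_num x
    have hn : n ≠ 0 := by
      rintro rfl
      have h2 : (p : Zp p) ^ k ≠ 0 := pow_ne_zero _ isUnit_p.ne_zero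
      have : x * (p : Zp p) ^ k = 0 := by simpa using h
      exact (mul_ne_zero hx h2) this
    refine ⟨n.natAbs, Int.natAbs_pos.2 hn, ?_⟩
    rcases Int.natAbs_eq n with h1 | h1
    · refine ⟨(p : Zp p) ^ k, ?_⟩
      rw [h, h1]
      simp
    · refine ⟨-((p : Zp p) ^ k), ?_⟩
      have h5 : ((n.natAbs : ℤ) : Zp p) = -(n : Zp p) := by
        have : (n.natAbs : ℤ) = -n := by omega
        rw [this]
        push_cast
        rfl
      have h6 : (n.natAbs : Zp p) = -(n : Zp p) := by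
        rw [← h5]; exact (Int.cast_natCast _).symm
      rw [h6, ← h]
      ring
  exact Nat.sInf_mem hne

theorem nrmZ_le {x : Zp p} {m : ℕ} (hm : 0 < m) {y : Zp p} (h : (m : Zp p) = x * y) :
    nrmZ x ≤ m := Nat.sInf_le ⟨hm, y, h⟩

theorem exists_div (a : Zp p) {b : Zp p} (hb : b ≠ 0) :
    ∃ q r : Zp p, b * q + r = a ∧ nrmZ r < nrmZ b := by
  obtain ⟨hm, y, hy⟩ := nrmZ_spec hb
  obtain ⟨n, k, hn⟩ := exists_num a
  obtain ⟨u, hu⟩ := isUnit_p (p := p)
  have huk : (p : Zp p) ^ k * ((u⁻¹ : (Zp p)ˣ) : Zp p) ^ k = 1 := by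
    rw [← hu, ← mul_pow, Units.mul_inv, one_pow]
  set m := nrmZ b with hmdef
  refine ⟨y * ((n / (m : ℤ) : ℤ) : Zp p) * ((u⁻¹ : (Zp p)ˣ) : Zp p) ^ k,
    ((n % (m : ℤ) : ℤ) : Zp p) * ((u⁻¹ : (Zp p)ˣ) : Zp p) ^ k, ?_, ?_⟩
  · have h1 : ((m : ℤ) * (n / (m : ℤ)) + n % (m : ℤ) : ℤ) = n := Int.mul_ediv_add_emod n m
    have h2 : (m : Zp p) * ((n / (m : ℤ) : ℤ) : Zp p) + ((n % (m : ℤ) : ℤ) : Zp p) =
        (n : Zp p) := by
      exact_mod_cast congrArg (Int.cast : ℤ → Zp p) h1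
    have h3 : b * (y * ((n / (m : ℤ) : ℤ) : Zp p) * ((u⁻¹ : (Zp p)ˣ) : Zp p) ^ k) +
        ((n % (m : ℤ) : ℤ) : Zp p) * ((u⁻¹ : (Zp p)ˣ) : Zp p) ^ k =
        ((b * y) * ((n / (m : ℤ) : ℤ) : Zp p) + ((n % (m : ℤ) : ℤ) : Zp p)) *
          ((u⁻¹ : (Zp p)ˣ) : Zp p) ^ k := by ring
    rw [h3, ← hy, h2, ← hn, mul_assoc, huk, mul_one]
  · have hr0 : 0 ≤ n % (m : ℤ) := Int.emod_nonneg _ (by omega)
    have hr1 : n % (m : ℤ) < m := Int.emod_lt_of_pos _ (by omega)
    obtain ⟨r, hr⟩ := Int.eq_ofNat_of_zero_le hr0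
    rw [hr] at hr1 ⊢
    rcases Nat.eq_zero_or_pos r with rfl | hrpos
    · simp only [Nat.cast_zero, Int.cast_zero, zero_mul, nrmZ_zero]
      exact hm
    · have hle : nrmZ (((r : ℤ) : Zp p) * ((u⁻¹ : (Zp p)ˣ) : Zp p) ^ k) ≤ r := by
        apply nrmZ_le hrpos (y := (p : Zp p) ^ k)
        have h4 : ((r : ℤ) : Zp p) * ((u⁻¹ : (Zp p)ˣ) : Zp p) ^ k * (p : Zp p) ^ k =
          ((r : ℤ) : Zp p) * ((p : Zp p) ^ k * ((u⁻¹ : (Zp p)ˣ) : Zp p) ^ k) := by ring
        rw [h4, huk, mul_one]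
        simp
      have : r < m := by exact_mod_cast hr1
      omega

open Classical in
/-- The Euclidean domain structure on `ℤ[1/p]`. -/
@[instance_reducible]
noncomputable def euclideanZp (p : ℕ) [Fact p.Prime] : EuclideanDomain (Zp p) :=
  { (inferInstance : CommRing (Zp p)), (inferInstance : Nontrivial (Zp p)) with
    quotient := fun a b => if hb : b = 0 then 0 else (exists_div a hb).choose
    quotient_zero := fun a => by simp
    remainder := fun a b => if hb : b = 0 then a else (exists_div a hb).choose_spec.choose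
    quotient_mul_add_remainder_eq := fun a b => by
      by_cases hb : b = 0
      · simp [hb]
      · simp only [hb, dite_false]
        exact (exists_div a hb).choose_spec.choose_spec.1
    r := fun x y => nrmZ x < nrmZ y
    r_wellFounded := (measure nrmZ).wf
    remainder_lt := fun a b hb => by
      simp only [hb, dite_false]
      exact (exists_div a hb).choose_spec.choose_spec.2
    mul_left_not_lt := fun a b hb => by
      intro h
      have ha : a ≠ 0 := by
        rintro rfl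
        rw [zero_mul] at h
        exact lt_irrefl _ h
      obtain ⟨hm, y, hy⟩ := nrmZ_spec (mul_ne_zero ha hb)
      have : nrmZ a ≤ nrmZ (a * b) := nrmZ_le hm (y := b * y) (by rw [hy]; ring)
      omega }

/-- The properties of the ring `ℤ[1/p]` which are used. -/
structure IsZp (p : ℕ) (R : Type*) [CommRing R] : Prop where
  inj : ∀ {a b : ℤ}, (a : R) = (b : R) → a = b
  unit : IsUnit (p : R)
  num : ∀ x : R, ∃ (n : ℤ) (k : ℕ), x * (p : R) ^ k = (n : R)

theorem isZp_Zp : IsZp p (Zp p) := ⟨cast_inj, isUnit_p, exists_num⟩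

theorem isZp_euclidean : @IsZp p (Zp p) (euclideanZp p).toCommRing := isZp_Zp

theorem IsZp.isUnit_cast {R : Type*} [CommRing R] (H : IsZp p R) {n : ℤ}
    (h : IsUnit (n : R)) : ∃ k : ℕ, n = (p : ℤ) ^ k ∨ n = -(p : ℤ) ^ k := by
  obtain ⟨u, hu⟩ := h
  obtain ⟨m, k, hm⟩ := H.num ((u⁻¹ : Rˣ) : R)
  have h1 : ((n * m : ℤ) : R) = (((p : ℤ) ^ k : ℤ) : R) := by
    push_cast
    rw [← hm, ← hu, ← mul_assoc, Units.mul_inv, one_mul]
  have h2 : n * m = (p : ℤ) ^ k := H.inj h1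
  have h3 : n.natAbs ∣ p ^ k := by
    have : (n * m).natAbs = p ^ k := by rw [h2, Int.natAbs_pow]; rfl
    rw [← this, Int.natAbs_mul]
    exact Dvd.intro _ rfl
  obtain ⟨i, -, hi⟩ := (Nat.dvd_prime_pow hp.out).1 h3
  refine ⟨i, ?_⟩
  have := Int.natAbs_eq n
  rw [hi] at this
  push_cast at this
  exact this

end Pool.Agent.KS6_96.Bd
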