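import Pool.Agent.KS6_96.Bd.Phi

/-!
# Quasi-invariance of `phi` under integer matrices with determinant `± p ^ n`
-/

set_option linter.unusedSectionVars false

namespace Pool.Agent.KS6_96.Bd

variable {p : ℕ} [hp : Fact p.Prime] {F : ℤ × ℤ → ℤ}

/-- The primitive vector on the ray of `w`. -/
def nrm (w : ℤ × ℤ) : ℤ × ℤ := (w.1 / Int.gcd w.1 w.2, w.2 / Int.gcd w.1 w.2)

theorem nrm_smul {g : ℤ} (hg : 0 < g) {w : ℤ × ℤ} (hw : Prim w) : nrm (g * w.1, g * w.2) = w := by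
  unfold nrm
  have h1 : Int.gcd w.1 w.2 = 1 := Int.isCoprime_iff_gcd_eq_one.1 hw
  have h2 : (Int.gcd (g * w.1) (g * w.2) : ℤ) = g := by
    rw [Int.gcd_mul_left, h1, mul_one, Int.natCast_natAbs, abs_of_pos hg]
  simp only [h2]
  rw [Int.mul_ediv_cancel_left _ hg.ne', Int.mul_ediv_cancel_left _ hg.ne']

theorem exists_prim {w : ℤ × ℤ} (hw : w ≠ 0) :
    ∃ g : ℤ, 0 < g ∧ ∃ u : ℤ × ℤ, Prim u ∧ w = (g * u.1, g * u.2) := by
  have hpos : 0 < Int.gcd w.1 w.2 := by
    rw [Int.gcd_pos_iff]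
    by_contra h
    push Not at h
    apply hw
    exact Prod.ext h.1 h.2
  refine ⟨Int.gcd w.1 w.2, by exact_mod_cast hpos,
    (w.1 / Int.gcd w.1 w.2, w.2 / Int.gcd w.1 w.2), ?_, ?_⟩
  · exact Int.isCoprime_iff_gcd_eq_one.2 (Int.gcd_ediv_gcd_ediv_gcd hpos)
  · apply Prod.ext
    · exact (Int.mul_ediv_cancel' (Int.gcd_dvd_left ..)).symm
    · exact (Int.mul_ediv_cancel' (Int.gcd_dvd_right ..)).symm

theorem nrm_of_prim {w : ℤ × ℤ} (hw : Prim w) : nrm w = w := by
  have := nrm_smul one_pos hw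
  simpa using this

theorem nrm_mulv {x q r s : ℤ} (hdet : x * s - q * r = 1 ∨ x * s - q * r = -1) {w : ℤ × ℤ}
    (hw : w ≠ 0) : nrm (mulv x q r s w) = mulv x q r s (nrm w) := by
  obtain ⟨g, hg, u, hu, rfl⟩ := exists_prim hw
  rw [nrm_smul hg hu]
  have : mulv x q r s (g * u.1, g * u.2) =
      (g * (mulv x q r s u).1, g * (mulv x q r s u).2) := by
    unfold mulv
    apply Prod.ext <;> simp only <;> ring
  rw [this, nrm_smul hg (prim_mulv hdet hu)]

theorem nrm_Delta {w : ℤ × ℤ} (hw : w ≠ 0) : nrm (p * w.1, w.2) = Del p (nrm w) := by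
  obtain ⟨g, hg, u, hu, rfl⟩ := exists_prim hw
  rw [nrm_smul hg hu]
  obtain ⟨a, c⟩ := u
  have hpp : 0 < (p : ℤ) := by exact_mod_cast hp.out.pos
  by_cases h : (p : ℤ) ∣ c
  · obtain ⟨k, rfl⟩ := h
    rw [Del_mul]
    have hak : Prim (a, k) := IsCoprime.of_mul_right_right (show IsCoprime a (p * k) from hu)
    have := nrm_smul (g := g * p) (by positivity) hak
    simp only at this ⊢
    rw [← this]
    congr 1
    apply Prod.ext <;> simp only <;> ring
  · rw [Del_not h]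
    have hp' : Prim (p * a, c) := by
      have := prim_Del (p := p) hu
      rwa [Del_not h] at this
    have := nrm_smul hg hp'
    simp only at this ⊢
    rw [← this]
    congr 1
    apply Prod.ext <;> simp only
    ring

theorem mulv_ne_zero {x q r s : ℤ} (hdet : x * s - q * r ≠ 0) {w : ℤ × ℤ} (hw : w ≠ 0) :
    mulv x q r s w ≠ 0 := by
  intro h
  apply hw
  have h1 : x * w.1 + q * w.2 = 0 := congrArg Prod.fst h
  have h2 : r * w.1 + s * w.2 = 0 := congrArg Prod.snd h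
  have h3 : (x * s - q * r) * w.1 = 0 := by linear_combination s * h1 - q * h2
  have h4 : (x * s - q * r) * w.2 = 0 := by linear_combination x * h2 - r * h1
  apply Prod.ext
  · exact (mul_eq_zero.1 h3).resolve_left hdet
  · exact (mul_eq_zero.1 h4).resolve_left hdet

theorem exists_row {y q r s : ℤ} (hdet : (p : ℤ) ∣ y * s - q * r) :
    ∃ x z : ℤ, IsCoprime x z ∧ (p : ℤ) ∣ x * y + z * r ∧ (p : ℤ) ∣ x * q + z * s := by
  -- a column which is nonzero modulo p
  have key : ∀ a b c d : ℤ, (p : ℤ) ∣ a * d - b * c → ¬ ((p : ℤ) ∣ a ∧ (p : ℤ) ∣ c) →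
      ∃ x y : ℤ, IsCoprime x y ∧ x * a + y * c = 0 ∧ (p : ℤ) ∣ x * b + y * d := by
    intro a b c d h hn
    have hne : ((a, c) : ℤ × ℤ) ≠ 0 := by
      intro h0
      apply hn
      have h1 : a = 0 := congrArg Prod.fst h0
      have h2 : c = 0 := congrArg Prod.snd h0
      rw [h1, h2]
      simp
    obtain ⟨g, hg, u, hu, hw⟩ := exists_prim hne
    have h1 : a = g * u.1 := congrArg Prod.fst hw
    have h2 : c = g * u.2 := congrArg Prod.snd hw
    have hg11 : ¬ (p : ℤ) ∣ g := by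
      intro h11
      apply hn
      rw [h1, h2]
      exact ⟨h11.mul_right _, h11.mul_right _⟩
    refine ⟨u.2, -u.1, hu.symm.neg_right, ?_, ?_⟩
    · rw [h1, h2]; ring
    · have h3 : (p : ℤ) ∣ g * (u.2 * b + -u.1 * d) := by
        have : g * (u.2 * b + -u.1 * d) = -(a * d - b * c) := by rw [h1, h2]; ring
        rw [this]
        exact dvd_neg.2 h
      exact ((primep (p := p)).dvd_or_dvd h3).resolve_left hg11
  by_cases h1 : (p : ℤ) ∣ y ∧ (p : ℤ) ∣ r
  · by_cases h2 : (p : ℤ) ∣ q ∧ (p : ℤ) ∣ s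
    · exact ⟨1, 0, isCoprime_one_left, by simpa using h1.1, by simpa using h2.1⟩
    · obtain ⟨x, z, hxy, h3, -⟩ := key q y s r (by
        have : q * r - y * s = -(y * s - q * r) := by ring
        rw [this]; exact dvd_neg.2 hdet) h2
      refine ⟨x, z, hxy, dvd_add (h1.1.mul_left _) (h1.2.mul_left _), ?_⟩
      rw [h3]
      exact dvd_zero _
  · obtain ⟨x, z, hxy, h3, h4⟩ := key y q r s hdet h1
    refine ⟨x, z, hxy, ?_, h4⟩
    rw [h3]
    exact dvd_zero _

/-- Factorisation of an integer matrix with determinant divisible by `p`. -/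
theorem exists_factor {a q r s m : ℤ} (hdet : a * s - q * r = p * m) :
    ∃ p1 q1 r1 s1 p2 q2 r2 s2 : ℤ, p1 * s1 - q1 * r1 = 1 ∧ p2 * s2 - q2 * r2 = m ∧
      ∀ w : ℤ × ℤ, mulv a q r s w =
        mulv p1 q1 r1 s1 (p * (mulv p2 q2 r2 s2 w).1, (mulv p2 q2 r2 s2 w).2) := by
  obtain ⟨x, y, ⟨t, z, hxy⟩, ⟨p', hp'⟩, ⟨q', hq'⟩⟩ :=
    exists_row (p := p) (y := a) (q := q) (r := r) (s := s) (Dvd.intro m hdet.symm)
  -- γ⁻¹ = (x, y; -z, t), γ = (t, -y; z, x)
  refine ⟨t, -y, z, x, p', q', -z * a + t * r, -z * q + t * s, by linarith, ?_, ?_⟩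
  · have h1 : (p : ℤ) * (p' * (-z * q + t * s) - q' * (-z * a + t * r)) = p * m := by
      have e : (p : ℤ) * (p' * (-z * q + t * s) - q' * (-z * a + t * r)) =
        (p * p') * (-z * q + t * s) - (p * q') * (-z * a + t * r) := by ring
      rw [e, ← hp', ← hq', ← hdet]
      linear_combination (a * s - q * r) * hxy
    exact mul_left_cancel₀ (primep (p := p)).ne_zero h1
  · intro w
    unfold mulv
    apply Prod.ext
    · simp only
      linear_combination (-(a * w.1 + q * w.2)) * hxy + (t * w.1) * hp' + (t * w.2) * hq'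
    · simp only
      linear_combination (-(r * w.1 + s * w.2)) * hxy + (z * w.1) * hp' + (z * w.2) * hq'

/-- Quasi-invariance of `phi` under integer matrices of determinant `± p ^ n`. -/
theorem phi_quasi (hF : PotW p F) : ∀ n : ℕ, ∀ a q r s : ℤ,
    (a * s - q * r = (p : ℤ) ^ n ∨ a * s - q * r = -(p : ℤ) ^ n) →
    ∃ h : ℤ × ℤ → ℤ, ∀ u v : ℤ × ℤ, Compl p u v →
      Compl p (nrm (mulv a q r s u)) (nrm (mulv a q r s v)) ∧
      phi p F (nrm (mulv a q r s u)) (nrm (mulv a q r s v)) - phi p F u v = h v - h u := by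
  intro n
  have hp0 : (p : ℤ) ≠ 0 := (primep (p := p)).ne_zero
  have hne : ∀ {u v : ℤ × ℤ}, Compl p u v → u ≠ 0 ∧ v ≠ 0 := by
    intro u v h
    constructor
    · rintro rfl
      have : IsCoprime (0 : ℤ) 0 := h.1
      exact not_isCoprime_zero_zero this
    · rintro rfl
      have : IsCoprime (0 : ℤ) 0 := h.2.1
      exact not_isCoprime_zero_zero this
  induction n with
  | zero =>
    intro a q r s hdet
    have hdet' : a * s - q * r = 1 ∨ a * s - q * r = -1 := by simpa using hdet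
    refine ⟨0, fun u v h => ?_⟩
    rw [nrm_of_prim (prim_mulv hdet' h.1), nrm_of_prim (prim_mulv hdet' h.2.1)]
    refine ⟨complp_mulv hdet' h, ?_⟩
    rw [phi_mulv hF hdet' h]
    simp
  | succ n ih =>
    intro a q r s hdet
    have hdet' : ∃ m : ℤ, a * s - q * r = p * m ∧ (m = (p : ℤ) ^ n ∨ m = -(p : ℤ) ^ n) := by
      rcases hdet with h | h
      · exact ⟨(p : ℤ) ^ n, by rw [h]; ring, Or.inl rfl⟩
      · exact ⟨-(p : ℤ) ^ n, by rw [h]; ring, Or.inr rfl⟩
    obtain ⟨m, hm1, hm2⟩ := hdet'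
    obtain ⟨p1, q1, r1, s1, p2, q2, r2, s2, h1, h2, hfac⟩ := exists_factor hm1
    obtain ⟨h, hh⟩ := ih p2 q2 r2 s2 (by rw [h2]; exact hm2)
    have hm0 : p2 * s2 - q2 * r2 ≠ 0 := by
      rw [h2]
      have h11 : (p : ℤ) ^ n ≠ 0 := pow_ne_zero _ hp0
      rcases hm2 with h | h <;> rw [h]
      · exact h11
      · exact neg_ne_zero.2 h11
    have hP : ∀ w : ℤ × ℤ, w ≠ 0 → nrm (mulv a q r s w) =
        mulv p1 q1 r1 s1 (Del p (nrm (mulv p2 q2 r2 s2 w))) := by
      intro w hw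
      have hw2 := mulv_ne_zero hm0 hw
      have hw3 : ((p * (mulv p2 q2 r2 s2 w).1, (mulv p2 q2 r2 s2 w).2) : ℤ × ℤ) ≠ 0 := by
        intro h0
        apply hw2
        have e1 : (p : ℤ) * (mulv p2 q2 r2 s2 w).1 = 0 := congrArg Prod.fst h0
        have e2 : (mulv p2 q2 r2 s2 w).2 = 0 := congrArg Prod.snd h0
        exact Prod.ext ((mul_eq_zero.1 e1).resolve_left hp0) e2
      rw [hfac w, nrm_mulv (Or.inl h1) hw3, nrm_Delta hw2]
    refine ⟨fun w => h w + F (nrm (mulv p2 q2 r2 s2 w)), fun u v huv => ?_⟩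
    obtain ⟨hu0, hv0⟩ := hne huv
    rw [hP u hu0, hP v hv0]
    obtain ⟨hc1, hq1⟩ := hh u v huv
    obtain ⟨hc2, hq2⟩ := phi_Del hF hc1
    refine ⟨complp_mulv (Or.inl h1) hc2, ?_⟩
    rw [phi_mulv hF (Or.inl h1) hc2]
    linarith

end Pool.Agent.KS6_96.Bd
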