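import Pool.Agent.KS6_96.Bd.SBCyc
import Pool.Agent.KS6_96.Bd.Lines

/-!
# A potential which does not vanish gives an element of infinite order
-/

namespace Pool.Agent.KS6_96.Bd.SB

open Submodule

set_option linter.unusedSectionVars false

variable {p : ℕ} [hp : Fact p.Prime] {F : ℤ × ℤ → ℤ}
variable {R : Type} [CommRing R] [IsDomain R]

open Classical in
/-- The symbol, extended by zero. -/
noncomputable def GG (p : ℕ) (F : ℤ × ℤ → ℤ) (A B : Submodule R (Fin 2 → R)) : ℤ :=
  if Line A ∧ Line B ∧ IsCompl A B then ff p F A B else 0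

theorem span_neg_vec (w : ℤ × ℤ) : span R {vec R (-w)} = span R {vec R w} := by
  have : vec R (-w) = - vec R w := by
    apply ext2 <;> simp [vec]
  rw [this, ← Set.neg_singleton, Submodule.span_neg]

theorem sym_GG (H : IsZp p R) : Sym (GG (R := R) p F) where
  line := by
    intro A B hA hB hAB
    obtain ⟨w, hw, rfl⟩ := exists_gen H hA
    obtain ⟨w', hw', rfl⟩ := exists_gen H hB
    have h1 : vec R w ∈ span R {vec R w'} := hAB (mem_span_singleton_self _)
    rcases eq_or_neg_of_det hw' hw (det_eq_zero_of_mem H h1) with h | h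
    · rw [h]
    · rw [h, span_neg_vec]
  antisymm := by
    intro A B
    unfold GG
    have e : (Line A ∧ Line B ∧ IsCompl A B) ↔ (Line B ∧ Line A ∧ IsCompl B A) := by
      rw [isCompl_comm]; tauto
    by_cases h : Line A ∧ Line B ∧ IsCompl A B
    · rw [if_pos h, if_pos (e.1 h), ff_antisymm]
    · rw [if_neg h, if_neg (fun h' => h (e.2 h')), neg_zero]
  zero := by
    intro A B h
    unfold GG
    rw [if_neg]
    tauto

theorem prim_GG (hF : PotW p F) (H : IsZp p R) (g : (Fin 2 → R) ≃ₗ[R] (Fin 2 → R)) :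
    ∃ f, Prim (GG (R := R) p F) g f := by
  classical
  obtain ⟨h, hh⟩ := ff_quasi hF H g
  refine ⟨fun A => if Line A then h A else 0, ?_, ?_⟩
  · intro A B hA hB hAB
    have hAB' : IsCompl (A.map (g : (Fin 2 → R) →ₗ[R] (Fin 2 → R)))
        (B.map (g : (Fin 2 → R) →ₗ[R] (Fin 2 → R))) :=
      (Submodule.orderIsoMapComap g).isCompl hAB
    unfold GG
    rw [if_pos ⟨(line_map_iff g A).2 hA, (line_map_iff g B).2 hB, hAB'⟩, if_pos ⟨hA, hB, hAB⟩]
    simp only [hA, hB, if_true]
    exact hh A B hA hB hAB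
  · intro A hA
    simp only [hA, if_false]

theorem line_span (H : IsZp p R) {u v : ℤ × ℤ} (h : Compl p u v) :
    Line (span R {vec R u}) ∧ IsCompl (span R {vec R u}) (span R {vec R v}) := by
  have hc := isCompl_of_complp H h
  have hne : ∀ {w : ℤ × ℤ}, Bd.Prim w → span R {vec R w} ≠ ⊥ := by
    intro w hw h0
    rw [span_singleton_eq_bot] at h0
    have h1 : (w.1 : R) = 0 := congrFun h0 0
    have h2 : (w.2 : R) = 0 := congrFun h0 1
    have h3 : w.1 = 0 := H.inj (by simpa using h1)
    have h4 : w.2 = 0 := H.inj (by simpa using h2)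
    unfold Bd.Prim at hw
    rw [h3, h4] at hw
    exact not_isCoprime_zero_zero hw
  refine ⟨⟨hne h.1, ?_, _, hc⟩, hc⟩
  intro h0
  rw [h0] at hc
  exact hne h.2.1 (eq_bot_of_top_isCompl hc)

theorem GG_span (hF : PotW p F) (H : IsZp p R) {u v : ℤ × ℤ} (h : Compl p u v) :
    GG p F (span R {vec R u}) (span R {vec R v}) = phi p F u v - phi p F v u := by
  unfold GG
  rw [if_pos ⟨(line_span H h).1, (line_span H (complp_symm h)).1, (line_span H h).2⟩,
    ff_span hF H h]

theorem face_sF_indep {M : Type} [AddCommGroup M] [Module R M] {B C C' : Submodule R M}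
    (h : IsCompl B C) (h' : IsCompl B C') : face (sF B C) 0 1 = face (sF B C') 0 1 :=
  (face_sG0 h.symm h).symm.trans (face_sG0 h.symm h')

/-- A chain of unimodular steps from the line of `(1, 0)` to the line of a primitive vector. -/
theorem exists_path (hF : PotW p F) (H : IsZp p R) (a c : ℤ) (hac : IsCoprime a c) :
    ∀ C : Submodule R (Fin 2 → R), IsCompl (span R {vec R (a, c)}) C →
      ∃ ch ∈ chains R (Fin 2 → R) 2 4, bd ch =
        single (face (sF (span R {vec R (a, c)}) C) 0 1) 1 -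
        single (face (sF (span R {vec R (1, 0)}) (span R {vec R (0, 1)})) 0 1) 1 ∧
        ext (lam (GG p F)) ch = 0 := by
  have u0 : Compl p (1, 0) (0, 1) := complp_unimod (by simp [det2])
  refine farey_induction (P := fun w => ∀ C : Submodule R (Fin 2 → R),
      IsCompl (span R {vec R w}) C →
      ∃ ch ∈ chains R (Fin 2 → R) 2 4, bd ch =
        single (face (sF (span R {vec R w}) C) 0 1) 1 -
        single (face (sF (span R {vec R (1, 0)}) (span R {vec R (0, 1)})) 0 1) 1 ∧
        ext (lam (GG p F)) ch = 0) ?_ ?_ a c hac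
  · intro C hC
    refine ⟨0, AddSubgroup.zero_mem _, ?_, ?_⟩
    · rw [map_zero, face_sF_indep hC (line_span H u0).2, sub_self]
    · rw [map_zero]
  · intro a b c d hdet ih C hC
    have hc1 : Compl p (b, d) (a, c) := complp_unimod (by
      simp only [det2]
      rcases hdet with h | h
      · right; linarith
      · left; linarith)
    have hc2 := complp_symm hc1
    obtain ⟨ch, hch, hbd, hlam⟩ := ih _ (line_span H hc1).2
    refine ⟨ch + we (span R {vec R (b, d)}) (span R {vec R (a, c)}),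
      AddSubgroup.add_mem _ hch (we_mem (line_span H hc1).2), ?_, ?_⟩
    · rw [map_add, hbd, bd_we (line_span H hc1).1 (line_span H hc2).1 (line_span H hc1).2 hC]
      abel
    · rw [map_add, hlam, lam_we _ (sym_GG H), GG_span hF H hc1]
      have h1 : det2 (b, d) (a, c) = 1 ∨ det2 (b, d) (a, c) = -1 := by
        simp only [det2]
        rcases hdet with h | h
        · right; linarith
        · left; linarith
      have h2 : det2 (a, c) (b, d) = 1 ∨ det2 (a, c) (b, d) = -1 := by
        simp only [det2]; exact hdet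
      rw [phi_unimod hF hc1.1 hc1.2.1 h1, phi_unimod hF hc2.1 hc2.2.1 h2]
      ring

theorem phi_one (hF : PotW p F) {u v : ℤ × ℤ} (hu : Bd.Prim u) (hv : Bd.Prim v)
    (hdet : det2 u v = p ∨ det2 u v = -p) {x : ℤ} (hx : Cong p x u v) :
    phi p F u v = - F (x, p) := by
  rw [phi_eq hF hu hv (k := 1) (by simpa using hdet) (x := x) (by simpa using hx)]
  simp

/-- A potential with a nonzero value at some `(x, p)` gives an element of infinite order. -/
theorem exists_nontorsion (hF : PotW p F) (H : IsZp p R) {x : ℤ} (hx : ¬ (p : ℤ) ∣ x)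
    (hne : F (x, p) ≠ 0) :
    ∃ z : Coinvariants R (Fin 2 → R) 2, ∀ N : ℤ, N ≠ 0 → N • z ≠ 0 := by
  have hnt : Nontrivial (Fin 2 → R) := inferInstance
  have hcop : IsCoprime x (p : ℤ) := isCoprimep hx
  have d1 : det2 (x, (p : ℤ)) (1, 0) = p ∨ det2 (x, (p : ℤ)) (1, 0) = -p := by
    right; simp [det2]
  have d2 : det2 (1, 0) (x, (p : ℤ)) = p ∨ det2 (1, 0) (x, (p : ℤ)) = -p := by
    left; simp [det2]
  have c1 : Compl p (x, (p : ℤ)) (1, 0) := ⟨hcop, isCoprime_one_left, 1, by simpa using d1⟩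
  have c2 := complp_symm c1
  have u0 : Compl p (1, 0) (0, 1) := complp_unimod (by simp [det2])
  obtain ⟨y, z, hyz⟩ := hcop
  have hcong1 : Cong p y (x, (p : ℤ)) (1, 0) := by
    refine ⟨⟨z, ?_⟩, ⟨-y, ?_⟩⟩ <;> simp only
    · linarith
    · ring
  have hcong2 : Cong p x (1, 0) (x, (p : ℤ)) := by
    refine ⟨⟨0, ?_⟩, ⟨1, ?_⟩⟩ <;> simp only <;> ring
  have hkey := hF.key c1.1 (dvd_refl _) d1 hcong1 c1.2.1
  rw [hF.inf] at hkey
  obtain ⟨ch, hch, hbd, hlam⟩ := exists_path hF H x p c1.1 _ (line_span H c1).2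
  obtain ⟨Λ, hΛ⟩ := exists_functional (sym_GG (F := F) H) (prim_GG hF H) 2
  let z' : Cyc R (Fin 2 → R) (1 + 1) (2 + (1 + 1)) :=
    ⟨ch + we (span R {vec R (x, (p : ℤ))}) (span R {vec R (1, 0)}),
      AddSubgroup.add_mem _ hch (we_mem (line_span H c1).2), by
        change bd (ch + we (span R {vec R (x, (p : ℤ))}) (span R {vec R (1, 0)})) = 0
        rw [map_add, hbd, bd_we (line_span H c1).1 (line_span H c2).1 (line_span H c1).2
          (line_span H u0).2]
        abel⟩
  have hval : ext (lam (GG p F)) (cycChain z') = 2 * F (x, p) := by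
    change ext (lam (GG p F)) (ch + we (span R {vec R (x, (p : ℤ))}) (span R {vec R (1, 0)})) = _
    rw [map_add, hlam, lam_we _ (sym_GG H), GG_span hF H c1, phi_one hF c1.1 c1.2.1 d1 hcong1,
      phi_one hF c2.1 c2.2.1 d2 hcong2]
    linarith
  refine ⟨coClass z', ?_⟩
  intro N hN h0
  have h1 := congrArg Λ h0
  rw [map_zsmul, map_zero, hΛ 1 z', hval] at h1
  apply hN
  rw [smul_eq_mul] at h1
  rcases mul_eq_zero.1 h1 with h2 | h2
  · exact h2
  · exfalso
    apply hne
    omega

end Pool.Agent.KS6_96.Bd.SB
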