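import Pool.Agent.KS6_96.Bd.PotW

/-!
# The function `phi` on pairs of primitive integer vectors with determinant `± p ^ k`
-/

set_option linter.unusedSectionVars false

namespace Pool.Agent.KS6_96.Bd

open Finset

/-- Primitive integer vectors. -/
def Prim (u : ℤ × ℤ) : Prop := IsCoprime u.1 u.2

/-- Pairs of primitive integer vectors with determinant `± p ^ k`. -/
def Compl (p : ℕ) (u v : ℤ × ℤ) : Prop :=
  Prim u ∧ Prim v ∧ ∃ k : ℕ, det2 u v = (p : ℤ) ^ k ∨ det2 u v = -(p : ℤ) ^ k

/-- The symbol on pairs of vectors. -/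
def phi (p : ℕ) (F : ℤ × ℤ → ℤ) (u v : ℤ × ℤ) : ℤ :=
  - ∑ j ∈ range (Nat.log p (det2 u v).natAbs),
      F (Int.gcdA u.1 u.2 * v.1 + Int.gcdB u.1 u.2 * v.2, (p : ℤ) ^ (j + 1))

variable {p : ℕ} [hp : Fact p.Prime] {F : ℤ × ℤ → ℤ}

theorem log_pm {m : ℤ} {k : ℕ} (h : m = (p : ℤ) ^ k ∨ m = -(p : ℤ) ^ k) :
    Nat.log p m.natAbs = k := by
  have : m.natAbs = p ^ k := by
    rcases h with rfl | rfl
    · rw [Int.natAbs_pow]; rfl
    · rw [Int.natAbs_neg, Int.natAbs_pow]; rfl
  rw [this, Nat.log_pow hp.out.one_lt]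

theorem cong_coprime {u v : ℤ × ℤ} (hv : Prim v) {k : ℕ} {x : ℤ} (hk : 0 < k)
    (hx : Cong ((p : ℤ) ^ k) x u v) : ¬ (p : ℤ) ∣ x := by
  intro h
  have h11 : (p : ℤ) ∣ (p : ℤ) ^ k := dvd_pow_self _ (by omega)
  have h1 : (p : ℤ) ∣ v.1 := by
    have := dvd_add (h11.trans hx.1) (h.mul_right u.1)
    simpa using this
  have h2 : (p : ℤ) ∣ v.2 := by
    have := dvd_add (h11.trans hx.2) (h.mul_right u.2)
    simpa using this
  exact (primep (p := p)).not_isUnit (IsCoprime.isUnit_of_dvd' hv h1 h2)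

theorem isCoprimep_pow {d : ℤ} (h : ¬ (p : ℤ) ∣ d) (k : ℕ) : IsCoprime d ((p : ℤ) ^ k) :=
  (isCoprimep h).pow_right

theorem phi_eq (hF : PotW p F) {u v : ℤ × ℤ} (hu : Prim u) (hv : Prim v) {k : ℕ}
    (hdet : det2 u v = (p : ℤ) ^ k ∨ det2 u v = -(p : ℤ) ^ k) {x : ℤ}
    (hx : Cong ((p : ℤ) ^ k) x u v) :
    phi p F u v = - ∑ j ∈ range k, F (x, (p : ℤ) ^ (j + 1)) := by
  unfold phi
  rw [log_pm hdet]
  congr 1
  apply Finset.sum_congr rfl
  intro j hj
  rw [mem_range] at hj
  have hk : 0 < k := by omega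
  have hb : Int.gcdA u.1 u.2 * u.1 + Int.gcdB u.1 u.2 * u.2 = 1 := by
    have := Int.gcd_eq_gcd_ab u.1 u.2
    rw [Int.isCoprime_iff_gcd_eq_one.1 hu] at this
    push_cast at this
    linarith
  have hdiff : Int.gcdA u.1 u.2 * v.1 + Int.gcdB u.1 u.2 * v.2 - x =
      Int.gcdA u.1 u.2 * (v.1 - x * u.1) + Int.gcdB u.1 u.2 * (v.2 - x * u.2) := by
    linear_combination x * hb
  have hd : (p : ℤ) ^ k ∣ Int.gcdA u.1 u.2 * v.1 + Int.gcdB u.1 u.2 * v.2 - x := by
    rw [hdiff]
    exact dvd_add (hx.1.mul_left _) (hx.2.mul_left _)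
  have hd' : (p : ℤ) ^ (j + 1) ∣ Int.gcdA u.1 u.2 * v.1 + Int.gcdB u.1 u.2 * v.2 - x :=
    (pow_dvd_pow (p : ℤ) (by omega)).trans hd
  symm
  apply hF.congr (isCoprimep_pow (cong_coprime hv hk hx) _)
  rw [Int.modEq_iff_dvd]
  exact hd'

/-- Existence of the congruence. -/
theorem exists_cong {u v : ℤ × ℤ} (hu : Prim u) {m : ℤ}
    (hdet : det2 u v = m ∨ det2 u v = -m) : ∃ x : ℤ, Cong m x u v := by
  obtain ⟨r, t, hrt⟩ := hu
  refine ⟨r * v.1 + t * v.2, ?_, ?_⟩
  · have : v.1 - (r * v.1 + t * v.2) * u.1 = -t * det2 u v := by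
      unfold det2
      linear_combination (-v.1) * hrt
    rw [this]
    rcases hdet with h | h <;> rw [h]
    · exact Dvd.intro_left _ rfl
    · exact Dvd.intro_left t (by ring)
  · have : v.2 - (r * v.1 + t * v.2) * u.2 = r * det2 u v := by
      unfold det2
      linear_combination (-v.2) * hrt
    rw [this]
    rcases hdet with h | h <;> rw [h]
    · exact Dvd.intro_left _ rfl
    · exact Dvd.intro_left (-r) (by ring)

/-- The action of an integer matrix. -/
def mulv (p q r s : ℤ) (w : ℤ × ℤ) : ℤ × ℤ := (p * w.1 + q * w.2, r * w.1 + s * w.2)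

theorem det2_mulv (p q r s : ℤ) (u v : ℤ × ℤ) :
    det2 (mulv p q r s u) (mulv p q r s v) = (p * s - q * r) * det2 u v := by
  unfold det2 mulv
  ring

theorem prim_mulv {p q r s : ℤ} (hdet : p * s - q * r = 1 ∨ p * s - q * r = -1) {w : ℤ × ℤ}
    (hw : Prim w) : Prim (mulv p q r s w) := by
  obtain ⟨α, β, h⟩ := hw
  unfold Prim mulv
  rcases hdet with hd | hd
  · refine ⟨α * s - β * r, -α * q + β * p, ?_⟩
    simp only
    linear_combination h + (α * w.1 + β * w.2) * hd
  · refine ⟨-(α * s - β * r), -(-α * q + β * p), ?_⟩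
    simp only
    linear_combination h - (α * w.1 + β * w.2) * hd

theorem pm_mul {a b m : ℤ} (ha : a = 1 ∨ a = -1) (hb : b = m ∨ b = -m) :
    a * b = m ∨ a * b = -m := by
  rcases ha with rfl | rfl <;> rcases hb with rfl | rfl <;> simp

theorem phi_mulv (hF : PotW p F) {x q r s : ℤ} (hdet : x * s - q * r = 1 ∨ x * s - q * r = -1)
    {u v : ℤ × ℤ} (h : Compl p u v) :
    phi p F (mulv x q r s u) (mulv x q r s v) = phi p F u v := by
  obtain ⟨hu, hv, k, hk⟩ := h
  obtain ⟨y, hy⟩ := exists_cong hu hk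
  rw [phi_eq hF hu hv hk hy]
  refine phi_eq hF (prim_mulv hdet hu) (prim_mulv hdet hv) (k := k) ?_ ?_
  · rw [det2_mulv]
    exact pm_mul hdet hk
  · constructor
    · have : (mulv x q r s v).1 - y * (mulv x q r s u).1 =
        x * (v.1 - y * u.1) + q * (v.2 - y * u.2) := by unfold mulv; ring
      rw [this]
      exact dvd_add (hy.1.mul_left _) (hy.2.mul_left _)
    · have : (mulv x q r s v).2 - y * (mulv x q r s u).2 =
        r * (v.1 - y * u.1) + s * (v.2 - y * u.2) := by unfold mulv; ring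
      rw [this]
      exact dvd_add (hy.1.mul_left _) (hy.2.mul_left _)

theorem complp_mulv {x q r s : ℤ} (hdet : x * s - q * r = 1 ∨ x * s - q * r = -1)
    {u v : ℤ × ℤ} (h : Compl p u v) : Compl p (mulv x q r s u) (mulv x q r s v) := by
  obtain ⟨hu, hv, k, hk⟩ := h
  refine ⟨prim_mulv hdet hu, prim_mulv hdet hv, k, ?_⟩
  rw [det2_mulv]
  exact pm_mul hdet hk

theorem pm_neg {b m : ℤ} (hb : b = m ∨ b = -m) : -b = m ∨ -b = -m := by
  rcases hb with rfl | rfl <;> simp

theorem phi_neg_left (hF : PotW p F) {u v : ℤ × ℤ} (h : Compl p u v) :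
    phi p F (-u) v = phi p F u v := by
  obtain ⟨hu, hv, k, hk⟩ := h
  obtain ⟨x, hx⟩ := exists_cong hu hk
  rw [phi_eq hF hu hv hk hx]
  have hu' : Prim (-u) := (show IsCoprime (-u.1) (-u.2) from (IsCoprime.neg_neg hu))
  rw [phi_eq hF (k := k) hu' hv (x := -x)]
  · congr 1
    apply Finset.sum_congr rfl
    intro j hj
    rw [mem_range] at hj
    exact hF.neg_fst (isCoprimep_pow (cong_coprime hv (by omega) hx) _)
  · have : det2 (-u) v = - det2 u v := by unfold det2; simp; ring
    rw [this]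
    exact pm_neg hk
  · constructor
    · have := hx.1; simpa using this
    · have := hx.2; simpa using this

theorem phi_neg_right (hF : PotW p F) {u v : ℤ × ℤ} (h : Compl p u v) :
    phi p F u (-v) = phi p F u v := by
  obtain ⟨hu, hv, k, hk⟩ := h
  obtain ⟨x, hx⟩ := exists_cong hu hk
  rw [phi_eq hF hu hv hk hx]
  have hv' : Prim (-v) := (show IsCoprime (-v.1) (-v.2) from (IsCoprime.neg_neg hv))
  rw [phi_eq hF (k := k) hu hv' (x := -x)]
  · congr 1
    apply Finset.sum_congr rfl
    intro j hj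
    rw [mem_range] at hj
    exact hF.neg_fst (isCoprimep_pow (cong_coprime hv (by omega) hx) _)
  · have : det2 u (-v) = - det2 u v := by unfold det2; simp; ring
    rw [this]
    exact pm_neg hk
  · constructor
    · have := (dvd_neg.2 hx.1)
      have e : (-v).1 - -x * u.1 = -(v.1 - x * u.1) := by simp; ring
      rw [e]; exact this
    · have := (dvd_neg.2 hx.2)
      have e : (-v).2 - -x * u.2 = -(v.2 - x * u.2) := by simp; ring
      rw [e]; exact this

/-- The primitive vector on the line of `(p a, c)`. -/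
def Del (p : ℕ) (w : ℤ × ℤ) : ℤ × ℤ := if (p : ℤ) ∣ w.2 then (w.1, w.2 / p) else (p * w.1, w.2)

theorem Del_mul (a c : ℤ) : Del p (a, p * c) = (a, c) := by
  unfold Del
  simp only [dvd_mul_right, if_true]
  rw [Int.mul_ediv_cancel_left c (primep (p := p)).ne_zero]

theorem Del_not {a c : ℤ} (h : ¬ (p : ℤ) ∣ c) : Del p (a, c) = (p * a, c) := by
  unfold Del
  rw [if_neg h]

theorem prim_Del {w : ℤ × ℤ} (hw : Prim w) : Prim (Del p w) := by
  obtain ⟨a, c⟩ := w
  by_cases h : (p : ℤ) ∣ c
  · obtain ⟨k, rfl⟩ := h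
    rw [Del_mul]
    exact IsCoprime.of_mul_right_right (show IsCoprime a (p * k) from hw)
  · rw [Del_not h]
    exact IsCoprime.mul_left (isCoprimep h).symm hw

theorem phi_unimod (hF : PotW p F) {u v : ℤ × ℤ} (hu : Prim u) (hv : Prim v)
    (h : det2 u v = 1 ∨ det2 u v = -1) : phi p F u v = 0 := by
  have hk : det2 u v = (p : ℤ) ^ 0 ∨ det2 u v = -(p : ℤ) ^ 0 := by simpa using h
  rw [phi_eq hF hu hv hk (x := 0) (by simp [Cong])]
  simp

theorem complp_unimod {u v : ℤ × ℤ} (h : det2 u v = 1 ∨ det2 u v = -1) : Compl p u v := by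
  refine ⟨?_, ?_, 0, by simpa using h⟩
  · unfold det2 at h
    rcases h with h | h
    · exact ⟨v.2, -v.1, by linarith⟩
    · exact ⟨-v.2, v.1, by linarith⟩
  · unfold det2 at h
    rcases h with h | h
    · exact ⟨-u.2, u.1, by linarith⟩
    · exact ⟨u.2, -u.1, by linarith⟩

theorem unimod_of_not_dvd {u v : ℤ × ℤ} {k : ℕ}
    (hk : det2 u v = (p : ℤ) ^ k ∨ det2 u v = -(p : ℤ) ^ k)
    (h : ¬ (p : ℤ) ∣ det2 u v) : det2 u v = 1 ∨ det2 u v = -1 := by
  rcases Nat.eq_zero_or_pos k with rfl | hk0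
  · simpa using hk
  · exfalso
    apply h
    have h11 : (p : ℤ) ∣ (p : ℤ) ^ k := dvd_pow_self _ (by omega)
    rcases hk with hk | hk <;> rw [hk]
    · exact h11
    · exact (dvd_neg).2 h11

theorem not_dvd_fst {u : ℤ × ℤ} (hu : Prim u) (h : (p : ℤ) ∣ u.2) : ¬ (p : ℤ) ∣ u.1 := by
  intro h'
  exact (primep (p := p)).not_isUnit (IsCoprime.isUnit_of_dvd' hu h' h)

theorem pm_mul_cancel {a b m : ℤ} (ha : a ≠ 0) (h : a * b = a * m ∨ a * b = -(a * m)) :
    b = m ∨ b = -m := by
  rcases h with h | h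
  · left; exact mul_left_cancel₀ ha h
  · right; apply mul_left_cancel₀ ha; rw [h]; ring

/-- The change of `phi` under the map `(a, c) ↦ (p a, c)`. -/
theorem phi_Del (hF : PotW p F) {u v : ℤ × ℤ} (h : Compl p u v) :
    Compl p (Del p u) (Del p v) ∧ phi p F (Del p u) (Del p v) - phi p F u v = F v - F u := by
  have hp0 : (p : ℤ) ≠ 0 := (primep (p := p)).ne_zero
  obtain ⟨hu, hv, k, hk⟩ := h
  obtain ⟨a, c⟩ := u
  obtain ⟨b, d⟩ := v
  by_cases hc : (p : ℤ) ∣ c
  · by_cases hd : (p : ℤ) ∣ d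
    · -- both divisible
      obtain ⟨c', rfl⟩ := hc
      obtain ⟨d', rfl⟩ := hd
      have ec : Del p (a, p * c') = (a, c') := Del_mul a c'
      have ed : Del p (b, p * d') = (b, d') := Del_mul b d'
      have e : det2 (a, p * c') (b, p * d') = p * det2 (a, c') (b, d') := by
        unfold det2; ring
      have hk0 : k ≠ 0 := by
        rintro rfl
        have h1 : (p : ℤ) ∣ det2 (a, p * c') (b, p * d') := by rw [e]; exact Dvd.intro _ rfl
        rw [pow_zero] at hk
        exact not_dvd_pm hk h1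
      obtain ⟨n, rfl⟩ := Nat.exists_eq_succ_of_ne_zero hk0
      obtain ⟨x, hx⟩ := exists_cong hu hk
      have hpu : Prim (a, c') := ec ▸ prim_Del hu
      have hpv : Prim (b, d') := ed ▸ prim_Del hv
      have hdet' : det2 (a, c') (b, d') = (p : ℤ) ^ n ∨ det2 (a, c') (b, d') = -(p : ℤ) ^ n := by
        have hk' := hk
        rw [e, Nat.succ_eq_add_one, pow_succ'] at hk'
        exact pm_mul_cancel hp0 hk'
      have hx' : Cong ((p : ℤ) ^ n) x (a, c') (b, d') := by
        constructor
        · exact (pow_dvd_pow (p : ℤ) (Nat.le_succ n)).trans hx.1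
        · have := hx.2
          simp only at this
          have e : (p : ℤ) * d' - x * (p * c') = p * (d' - x * c') := by ring
          rw [e, Nat.succ_eq_add_one, pow_succ'] at this
          exact (mul_dvd_mul_iff_left hp0).1 this
      refine ⟨by rw [ec, ed]; exact ⟨hpu, hpv, n, hdet'⟩, ?_⟩
      rw [ec, ed, phi_eq hF hpu hpv hdet' hx', phi_eq hF hu hv hk hx,
        hF.key hu (Dvd.intro c' rfl) hk hx hv]
      rw [Finset.sum_range_succ]
      ring
    · -- `c` divisible, `d` not
      have hnd : ¬ (p : ℤ) ∣ det2 (a, c) (b, d) := by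
        intro h'
        have h2 : (p : ℤ) ∣ a * d := by
          have : a * d = det2 (a, c) (b, d) + b * c := by unfold det2; ring
          rw [this]; exact dvd_add h' (hc.mul_left b)
        rcases (primep (p := p)).dvd_or_dvd h2 with h3 | h3
        · exact not_dvd_fst hu hc h3
        · exact hd h3
      have hun := unimod_of_not_dvd hk hnd
      obtain ⟨c', rfl⟩ := hc
      have ec : Del p (a, p * c') = (a, c') := Del_mul a c'
      have ed : Del p (b, d) = (p * b, d) := Del_not hd
      have hun' : det2 (a, c') (p * b, d) = 1 ∨ det2 (a, c') (p * b, d) = -1 := by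
        have e : det2 (a, c') (p * b, d) = det2 (a, p * c') (b, d) := by unfold det2; ring
        rw [e]; exact hun
      have hC : Compl p (a, c') (p * b, d) := complp_unimod hun'
      rw [ec, ed]
      refine ⟨hC, ?_⟩
      rw [phi_unimod hF hC.1 hC.2.1 hun', phi_unimod hF hu hv hun]
      rw [hF.cusp hun (Or.inl (Dvd.intro c' rfl))]
      ring
  · by_cases hd : (p : ℤ) ∣ d
    · -- `d` divisible, `c` not
      have hnd : ¬ (p : ℤ) ∣ det2 (a, c) (b, d) := by
        intro h'
        have h2 : (p : ℤ) ∣ b * c := by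
          have : b * c = a * d - det2 (a, c) (b, d) := by unfold det2; ring
          rw [this]; exact dvd_sub (hd.mul_left a) h'
        rcases (primep (p := p)).dvd_or_dvd h2 with h3 | h3
        · exact not_dvd_fst hv hd h3
        · exact hc h3
      have hun := unimod_of_not_dvd hk hnd
      obtain ⟨d', rfl⟩ := hd
      have ed : Del p (b, p * d') = (b, d') := Del_mul b d'
      have ec : Del p (a, c) = (p * a, c) := Del_not hc
      have hun' : det2 (p * a, c) (b, d') = 1 ∨ det2 (p * a, c) (b, d') = -1 := by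
        have e : det2 (p * a, c) (b, d') = det2 (a, c) (b, p * d') := by unfold det2; ring
        rw [e]; exact hun
      have hC : Compl p (p * a, c) (b, d') := complp_unimod hun'
      rw [ec, ed]
      refine ⟨hC, ?_⟩
      rw [phi_unimod hF hC.1 hC.2.1 hun', phi_unimod hF hu hv hun]
      rw [hF.cusp hun (Or.inr (Dvd.intro d' rfl))]
      ring
    · -- neither is divisible
      have ec : Del p (a, c) = (p * a, c) := Del_not hc
      have ed : Del p (b, d) = (p * b, d) := Del_not hd
      have hpu : Prim (p * a, c) := ec ▸ prim_Del hu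
      have hpv : Prim (p * b, d) := ed ▸ prim_Del hv
      have hdet' : det2 (p * a, c) (p * b, d) = (p : ℤ) ^ (k + 1) ∨
          det2 (p * a, c) (p * b, d) = -(p : ℤ) ^ (k + 1) := by
        have e : det2 (p * a, c) (p * b, d) = det2 (a, c) (b, d) * p := by unfold det2; ring
        rw [e, pow_succ]
        rcases hk with hk | hk <;> rw [hk]
        · left; ring
        · right; ring
      obtain ⟨x, hx⟩ := exists_cong hpu hdet'
      have hx' : Cong ((p : ℤ) ^ k) x (a, c) (b, d) := by
        constructor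
        · have := hx.1
          simp only at this
          have e : (p : ℤ) * b - x * (p * a) = p * (b - x * a) := by ring
          rw [e, pow_succ'] at this
          exact (mul_dvd_mul_iff_left hp0).1 this
        · exact (pow_dvd_pow (p : ℤ) (Nat.le_succ k)).trans hx.2
      refine ⟨by rw [ec, ed]; exact ⟨hpu, hpv, k + 1, hdet'⟩, ?_⟩
      rw [ec, ed, phi_eq hF hpu hpv hdet' hx, phi_eq hF hu hv hk hx', Finset.sum_range_succ]
      have hWu : W p (a, c) = (-c, p * a) := W_not hc
      have hWv : W p (b, d) = (-d, p * b) := W_not hd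
      have h1 := hF.w hu
      have h2 := hF.w hv
      rw [hWu] at h1
      rw [hWv] at h2
      have hcop : ∀ {e f : ℤ}, IsCoprime (p * e) f → IsCoprime (-f) (p * e) :=
        fun h => (h.symm).neg_left
      have hkey := hF.key (u := (-c, p * a)) (v := (-d, p * b)) (m := (p : ℤ) ^ (k + 1)) (x := x)
        (hcop hpu) (Dvd.intro a rfl) (by
          have e : det2 (-c, p * a) (-d, p * b) = det2 (p * a, c) (p * b, d) := by
            unfold det2; ring
          rw [e]; exact hdet') (by
          constructor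
          · have := dvd_neg.2 hx.2
            simp only at this ⊢
            have e : -d - x * -c = -(d - x * c) := by ring
            rw [e]; exact this
          · exact hx.1) (hcop hpv)
      rw [h1, h2] at hkey
      rw [← hkey]
      ring

end Pool.Agent.KS6_96.Bd
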