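import Mathlib

/-!
# The stable building of a module and the coinvariants of its homology
-/

namespace Pool.Agent.KS6_96.Bd.SB

open Finset

/-- The poset `[p₁] × ⋯ × [p_k]`. -/
abbrev Idx {k : ℕ} (p : Fin k → ℕ) : Type := (i : Fin k) → Fin (p i + 1)

section summand

variable {R : Type} [CommRing R] {N : Type} [AddCommGroup N] [Module R N]

/-- `W` is a direct summand of `N`. -/
def IsSummand (W : Submodule R N) : Prop := ∃ W' : Submodule R N, IsCompl W W'

end summand

/-- The punctured cube `([a₁ ≤ b₁] × ⋯ × [a_k ≤ b_k]) ∖ {b}`, ordered as a subset of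
`[p₁] × ⋯ × [p_k]`. -/
abbrev PCube {k : ℕ} {p : Fin k → ℕ} (a b : Idx p) : Type :=
  {c : Idx p // (∀ i, c i = a i ∨ c i = b i) ∧ c ≠ b}

theorem PCube.le {k : ℕ} {p : Fin k → ℕ} {a b : Idx p} (hab : a ≤ b) (c : PCube a b) :
    c.1 ≤ b := by
  intro i
  rcases c.2.1 i with h | h
  · rw [h]; exact hab i
  · rw [h]

section colimit

variable {R : Type} [CommRing R] {M : Type} [AddCommGroup M] [Module R M]
variable {ι : Type} [Preorder ι] [DecidableEq ι]

/-- The colimit, in the category of `R`-modules, of a functor `F` on a preordered set whose values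
are submodules of `M` and whose maps are the inclusions.
(`Module.DirectLimit` is the direct sum of the modules divided by the relations which identify
`x` with its images; no directedness is required.) -/
def SubColim (F : ι → Submodule R M) (hF : Monotone F) : Type :=
  Module.DirectLimit (fun i => F i) (fun _ _ h => Submodule.inclusion (hF h))

noncomputable instance (F : ι → Submodule R M) (hF : Monotone F) : AddCommGroup (SubColim F hF) :=
  Module.DirectLimit.addCommGroup (fun i => F i) (fun _ _ h => Submodule.inclusion (hF h))

noncomputable instance (F : ι → Submodule R M) (hF : Monotone F) : Module R (SubColim F hF) :=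
  Module.DirectLimit.module (G := fun i => F i) (fun _ _ h => Submodule.inclusion (hF h))

theorem incl_incl {A B C : Submodule R M} (h : A ≤ B) (h' : B ≤ C) (h'' : A ≤ C) (x : A) :
    Submodule.inclusion h' (Submodule.inclusion h x) = Submodule.inclusion h'' x := rfl

/-- The canonical map of the colimit to a submodule `N` which contains all the `F i`. -/
noncomputable def SubColim.desc (F : ι → Submodule R M) (hF : Monotone F) (N : Submodule R M)
    (hN : ∀ i, F i ≤ N) : SubColim F hF →ₗ[R] N :=
  Module.DirectLimit.lift R ι (fun i => F i) (fun _ _ h => Submodule.inclusion (hF h))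
    (fun i => Submodule.inclusion (hN i)) (fun _ j h x => incl_incl (hF h) (hN j) (hN _) x)

end colimit

section lattice

variable {R : Type} [CommRing R] {M : Type} [AddCommGroup M] [Module R M]

/-- The restriction of `φ` to the punctured cube. -/
def cubeFun {k : ℕ} {p : Fin k → ℕ} (φ : Idx p → Submodule R M) (a b : Idx p) :
    PCube a b → Submodule R M :=
  fun c => φ c.1

theorem cubeFun_mono {k : ℕ} {p : Fin k → ℕ} {φ : Idx p → Submodule R M} (hφ : Monotone φ)
    (a b : Idx p) : Monotone (cubeFun φ a b) := fun _ _ h => hφ h

theorem cubeFun_le {k : ℕ} {p : Fin k → ℕ} {φ : Idx p → Submodule R M} (hφ : Monotone φ)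
    {a b : Idx p} (hab : a ≤ b) (c : PCube a b) : cubeFun φ a b c ≤ φ b := hφ (c.le hab)

/-- The colimit of `φ` over the punctured cube. -/
def CubeColim {k : ℕ} {p : Fin k → ℕ} (φ : Idx p → Submodule R M) (hφ : Monotone φ)
    (a b : Idx p) : Type :=
  SubColim (cubeFun φ a b) (cubeFun_mono hφ a b)

noncomputable instance {k : ℕ} {p : Fin k → ℕ} (φ : Idx p → Submodule R M) (hφ : Monotone φ)
    (a b : Idx p) : AddCommGroup (CubeColim φ hφ a b) :=
  instAddCommGroupSubColim (cubeFun φ a b) (cubeFun_mono hφ a b)

noncomputable instance {k : ℕ} {p : Fin k → ℕ} (φ : Idx p → Submodule R M) (hφ : Monotone φ)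
    (a b : Idx p) : Module R (CubeColim φ hφ a b) :=
  instModuleSubColim (cubeFun φ a b) (cubeFun_mono hφ a b)

/-- The canonical map of the colimit over the punctured cube to `φ b`. -/
noncomputable def cubeMap {k : ℕ} {p : Fin k → ℕ} (φ : Idx p → Submodule R M) (hφ : Monotone φ)
    (a b : Idx p) (hab : a ≤ b) : CubeColim φ hφ a b →ₗ[R] φ b :=
  SubColim.desc (cubeFun φ a b) (cubeFun_mono hφ a b) (φ b) (cubeFun_le hφ hab)

/-- The canonical map of the colimit over the punctured cube of `a ≤ b` to `φ b` is a
monomorphism, and its image is a direct summand. -/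
def CubeCondition {k : ℕ} {p : Fin k → ℕ} (φ : Idx p → Submodule R M) (hφ : Monotone φ)
    (a b : Idx p) (hab : a ≤ b) : Prop :=
  Function.Injective (cubeMap φ hφ a b hab) ∧ IsSummand (LinearMap.range (cubeMap φ hφ a b hab))

/-- `φ` is a lattice: a functor with values in the poset of direct summands of `M`, such that the
canonical map of the colimit of `φ` over the punctured cube of `a ≤ b` to `φ b` is a monomorphism
whose image is a direct summand. -/
structure IsLattice {k : ℕ} {p : Fin k → ℕ} (φ : Idx p → Submodule R M) : Prop where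
  mono : Monotone φ
  summand : ∀ a, IsSummand (φ a)
  cube : ∀ (a b : Idx p) (hab : a ≤ b), CubeCondition φ mono a b hab

end lattice

/-- A shape `(p₁, …, p_k)` and a function on `[p₁] × ⋯ × [p_k]` with values in the submodules. -/
structure Simplex (R : Type) [CommRing R] (M : Type) [AddCommGroup M] [Module R M] (k : ℕ) where
  shape : Fin k → ℕ
  fn : Idx shape → Submodule R M

section simplex

variable {R : Type} [CommRing R] {M : Type} [AddCommGroup M] [Module R M] {k : ℕ}

/-- The conditions that make a lattice full. -/
def Full (σ : Simplex R M k) : Prop :=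
  (∀ a : Idx σ.shape, (∃ i, a i = 0) → σ.fn a = ⊥) ∧ σ.fn (fun i => Fin.last (σ.shape i)) = ⊤

/-- Full lattices. -/
def FullLattice (σ : Simplex R M k) : Prop := IsLattice σ.fn ∧ Full σ

/-- The total degree. -/
def degree (σ : Simplex R M k) : ℕ := ∑ i, σ.shape i

/-- The map `[p₁] × ⋯ × [pᵢ - 1] × ⋯ × [p_k] → [p₁] × ⋯ × [p_k]` which omits the value `j` in
the direction `i` (for `pᵢ > 0`). -/
def delta (p : Fin k → ℕ) (i : Fin k) (j : ℕ) (a : Idx (Function.update p i (p i - 1))) :
    Idx p :=
  fun l => ⟨min (if l = i ∧ j ≤ (a l : ℕ) then (a l : ℕ) + 1 else (a l : ℕ)) (p l),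
    Nat.lt_succ_of_le (min_le_right _ _)⟩

/-- The `j`-th face in the direction `i`. -/
def face (σ : Simplex R M k) (i : Fin k) (j : ℕ) : Simplex R M k where
  shape := Function.update σ.shape i (σ.shape i - 1)
  fn := fun a => σ.fn (delta σ.shape i j a)

variable (R M k) in
/-- Finite formal integral linear combinations. -/
def Chain : Type := Simplex R M k →₀ ℤ

noncomputable instance : AddCommGroup (Chain R M k) :=
  (inferInstance : AddCommGroup (Simplex R M k →₀ ℤ))

/-- The chain `n σ`. -/
noncomputable def single (σ : Simplex R M k) (n : ℤ) : Chain R M k := Finsupp.single σ n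

/-- The coefficient of `σ` in the chain `c`. -/
def coeff (c : Chain R M k) (σ : Simplex R M k) : ℤ := (show Simplex R M k →₀ ℤ from c) σ

/-- The map on chains induced by a map on simplices. -/
noncomputable def mapChain {l : ℕ} (f : Simplex R M k → Simplex R M l) (c : Chain R M k) :
    Chain R M l :=
  Finsupp.mapDomain f c

/-- The extension of a map on simplices to an additive map on chains. -/
noncomputable def extend {A : Type} [AddCommGroup A] (f : Simplex R M k → A) :
    Chain R M k →+ A :=
  Finsupp.liftAddHom fun σ => zmultiplesHom A (f σ)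

open Classical in
/-- The boundary of a simplex in the reduced total complex: the sum over the directions `i` with
`pᵢ > 0` and over `0 ≤ j ≤ pᵢ` of the faces, with sign `(-1) ^ (p₁ + ⋯ + p_{i-1} + j)`, where
faces that are not full are identified with the base point and so are omitted. -/
noncomputable def bdS (σ : Simplex R M k) : Chain R M k :=
  ∑ i : Fin k, if σ.shape i = 0 then 0 else ∑ j ∈ range (σ.shape i + 1),
    if Full (face σ i j) then single (face σ i j) ((-1 : ℤ) ^ (∑ l ∈ Iio i, σ.shape l + j))
    else 0

/-- The boundary operator. -/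
noncomputable def bd : Chain R M k →+ Chain R M k := extend bdS

variable (R M)

/-- The chains of total degree `m` of the reduced total complex of the `k`-fold simplicial pointed
set `D^k(M)`: the free abelian group on the full lattices of total degree `m`. -/
def chains (k m : ℕ) : AddSubgroup (Chain R M k) where
  carrier := {c | ∀ σ, coeff c σ ≠ 0 → FullLattice σ ∧ degree σ = m}
  zero_mem' := fun σ h => absurd rfl h
  add_mem' := by
    intro c d hc hd σ hσ
    by_cases h : coeff c σ = 0
    · apply hd σ
      intro h'
      apply hσ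
      change coeff c σ + coeff d σ = 0
      rw [h, h', add_zero]
    · exact hc σ h
  neg_mem' := by
    intro c hc σ hσ
    apply hc σ
    intro h
    apply hσ
    change - coeff c σ = 0
    rw [h, neg_zero]

/-- The cycles of total degree `m`. -/
noncomputable def cycles (k m : ℕ) : AddSubgroup (Chain R M k) :=
  chains R M k m ⊓ (bd (R := R) (M := M) (k := k)).ker

/-- The group of cycles of total degree `m`. -/
def Cyc (k m : ℕ) : Type := cycles R M k m

noncomputable instance (k m : ℕ) : AddCommGroup (Cyc R M k m) :=
  AddSubgroup.toAddCommGroup (cycles R M k m)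

/-- A cycle as a chain. -/
def cycChain {R : Type} [CommRing R] {M : Type} [AddCommGroup M] [Module R M] {k m : ℕ}
    (z : Cyc R M k m) : Chain R M k := z.1

/-- The subgroup of the cycles of total degree `m` consisting of the boundaries of the chains of
total degree `m + 1`. -/
noncomputable def boundaries (k m : ℕ) : AddSubgroup (Cyc R M k m) :=
  ((chains R M k (m + 1)).map bd).addSubgroupOf (cycles R M k m)

/-- The reduced homology `H̃_m(D^k(M); ℤ)`. -/
def HD (k m : ℕ) : Type := Cyc R M k m ⧸ boundaries R M k m

noncomputable instance (k m : ℕ) : AddCommGroup (HD R M k m) :=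
  QuotientAddGroup.Quotient.addCommGroup (boundaries R M k m)

/-- The homology class of a cycle. -/
noncomputable def homClass {R : Type} [CommRing R] {M : Type} [AddCommGroup M] [Module R M] {k m : ℕ}
    (z : Cyc R M k m) : HD R M k m :=
  QuotientAddGroup.mk z

end simplex

section maps

variable {R : Type} [CommRing R] {M : Type} [AddCommGroup M] [Module R M] {k : ℕ}

/-- The suspension `φ ↦ φ'`, where `φ'(0, a) = 0` and `φ'(1, a) = φ(a)`. -/
def susp (σ : Simplex R M k) : Simplex R M (k + 1) where
  shape := Fin.cons 1 σ.shape
  fn := fun a => if a 0 = 0 then ⊥ else σ.fn (fun i => a i.succ)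

/-- The action of a linear automorphism. -/
def act (g : M ≃ₗ[R] M) (σ : Simplex R M k) : Simplex R M k where
  shape := σ.shape
  fn := fun a => (σ.fn a).map (g : M →ₗ[R] M)

end maps

section stable

variable (R : Type) [CommRing R] (M : Type) [AddCommGroup M] [Module R M]

/-- The group `H̃_{i+k+1}(D^(k+1)(M); ℤ)`. -/
abbrev HDs (i k : ℕ) : Type := HD R M (k + 1) (i + (k + 1))

/-- The direct sum of the groups `H̃_{i+k+1}(D^(k+1)(M); ℤ)` over all `k ≥ 0`. -/
def Stages (i : ℕ) : Type := DirectSum ℕ (HDs R M i)

noncomputable instance (i : ℕ) : AddCommGroup (Stages R M i) :=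
  (inferInstance : AddCommGroup (DirectSum ℕ (HDs R M i)))

variable {R M}

/-- The class of a cycle of `D^(k+1)(M)` in the direct sum. -/
noncomputable def stage {i k : ℕ} (z : Cyc R M (k + 1) (i + (k + 1))) : Stages R M i :=
  DirectSum.of (HDs R M i) k (homClass z)

variable (R M)

/-- The relations which define the colimit: the class of a cycle `z` of `D^(k+1)(M)` is identified
with the class of its suspension `z'`, a cycle of `D^(k+2)(M)`. -/
noncomputable def suspRel (i : ℕ) : AddSubgroup (Stages R M i) :=
  AddSubgroup.closure {x | ∃ (k : ℕ) (z : Cyc R M (k + 1) (i + (k + 1)))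
    (z' : Cyc R M (k + 1 + 1) (i + (k + 1 + 1))),
    cycChain z' = mapChain susp (cycChain z) ∧ x = stage (k := k + 1) z' - stage z}

/-- The homology of the stable building: `H_i(𝐃(M)) = colim_k H̃_{i+k}(D^k(M); ℤ)`. -/
def StableHomology (i : ℕ) : Type := Stages R M i ⧸ suspRel R M i

noncomputable instance (i : ℕ) : AddCommGroup (StableHomology R M i) :=
  QuotientAddGroup.Quotient.addCommGroup (suspRel R M i)

variable {R M}

/-- The class of a cycle of `D^(k+1)(M)` in the homology of the stable building. -/
noncomputable def stableClass {i k : ℕ} (z : Cyc R M (k + 1) (i + (k + 1))) :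
    StableHomology R M i :=
  QuotientAddGroup.mk (stage z)

variable (R M)

/-- The subgroup generated by the elements `g x - x`. -/
noncomputable def actRel (i : ℕ) : AddSubgroup (StableHomology R M i) :=
  AddSubgroup.closure {x | ∃ (g : M ≃ₗ[R] M) (k : ℕ) (z z' : Cyc R M (k + 1) (i + (k + 1))),
    cycChain z' = mapChain (act g) (cycChain z) ∧ x = stableClass z' - stableClass z}

/-- The coinvariants of `GL(M)` on `H_i(𝐃(M))`. -/
def Coinvariants (i : ℕ) : Type := StableHomology R M i ⧸ actRel R M i

noncomputable instance (i : ℕ) : AddCommGroup (Coinvariants R M i) :=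
  QuotientAddGroup.Quotient.addCommGroup (actRel R M i)

end stable

end Pool.Agent.KS6_96.Bd.SB
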