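import Pool.Agent.KS6_96.Bd.SBVan

/-!
# The functional on the coinvariants
-/

namespace Pool.Agent.KS6_96.Bd.SB

open Finset

variable {R : Type} [CommRing R] {M : Type} [AddCommGroup M] [Module R M]
variable {k : ℕ} {G : Submodule R M → Submodule R M → ℤ}

theorem hom_congr {A : Type} [AddCommGroup A] {P Q : Chain R M k →+ A} {m : ℕ}
    (h : ∀ σ : Simplex R M k, FullLattice σ → P (single σ 1) = Q (single σ 1))
    {c : Chain R M k} (hc : c ∈ chains R M k m) : P c = Q c := by
  let c' : Simplex R M k →₀ ℤ := c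
  have h1 : c = ∑ s ∈ c'.support, c' s • single s 1 := by
    have h2 : c' = ∑ s ∈ c'.support, c' s • Finsupp.single s 1 := by
      conv_lhs => rw [← Finsupp.sum_single c']
      unfold Finsupp.sum
      apply Finset.sum_congr rfl
      intro s _
      simp
    exact h2
  rw [h1, map_sum, map_sum]
  apply Finset.sum_congr rfl
  intro σ hσ
  rw [map_zsmul, map_zsmul, h σ (hc σ (Finsupp.mem_support_iff.1 hσ)).1]

theorem lam_bd [Nontrivial M] (hG : Sym G) {m : ℕ} {c : Chain R M k}
    (hc : c ∈ chains R M k m) : ext (lam G) (bd c) = 0 := by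
  have h := hom_congr (P := (ext (lam G)).comp bd) (Q := (0 : Chain R M k →+ ℤ))
    (fun σ hσ => by
      rw [AddMonoidHom.comp_apply, bd_single, one_smul, lam_bdS hG hσ]; rfl) hc
  exact h

/-- The bundled version of `mapChain`. -/
noncomputable def mapChainHom {l : ℕ} (f : Simplex R M k → Simplex R M l) :
    Chain R M k →+ Chain R M l :=
  Finsupp.mapDomain.addMonoidHom (M := ℤ) f

theorem mapChainHom_apply {l : ℕ} (f : Simplex R M k → Simplex R M l) (c : Chain R M k) :
    mapChainHom f c = mapChain f c := rfl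

theorem mapChain_single {l : ℕ} (f : Simplex R M k → Simplex R M l) (σ : Simplex R M k)
    (n : ℤ) : mapChain f (single σ n) = single (f σ) n :=
  Finsupp.mapDomain_single

theorem chain_ext {A : Type} [AddCommGroup A] {P Q : Chain R M k →+ A}
    (h : ∀ (σ : Simplex R M k) (n : ℤ), P (single σ n) = Q (single σ n)) : P = Q :=
  Finsupp.addHom_ext h

theorem lam_mapDomain_susp (c : Chain R M k) :
    ext (lam G) (mapChain susp c) = ext (lam G) c := by
  have h : (ext (lam G)).comp (mapChainHom
      (susp : Simplex R M k → Simplex R M (k + 1))) = ext (lam G) := by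
    apply chain_ext
    intro σ n
    rw [AddMonoidHom.comp_apply, mapChainHom_apply, mapChain_single, ext_single, ext_single,
      lam_susp]
  exact DFunLike.congr_fun h c

theorem lam_mapDomain_act [Nontrivial M] (hG : Sym G) {g : M ≃ₗ[R] M} {f : Submodule R M → ℤ}
    (hf : Prim G g f) {m : ℕ} (c : Cyc R M k m) :
    ext (lam G) (mapChain (act g) (cycChain c)) = ext (lam G) (cycChain c) := by
  have h := hom_congr (P := (ext (nu f)).comp bd) (Q := (ext (lam G)).comp
    (mapChainHom (act g : Simplex R M k → Simplex R M k)) -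
      ext (lam G)) (fun σ hσ => by
      rw [AddMonoidHom.comp_apply, bd_single, one_smul, nu_bdS hG hf hσ]
      rw [AddMonoidHom.sub_apply, AddMonoidHom.comp_apply, mapChainHom_apply,
        mapChain_single, ext_single, ext_single, one_mul, one_mul]) c.2.1
  have h0 : bd (cycChain c) = 0 := c.2.2
  change ext (nu f) (bd (cycChain c)) = ext (lam G) (mapChain (act g) (cycChain c)) -
    ext (lam G) (cycChain c) at h
  rw [h0, map_zero] at h
  omega

/-- The class of a cycle in the coinvariants. -/
noncomputable def coClass {i k : ℕ} (z : Cyc R M (k + 1) (i + (k + 1))) : Coinvariants R M i :=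
  (QuotientAddGroup.mk (stableClass z) : StableHomology R M i ⧸ actRel R M i)

/-- The functional on the coinvariants. -/
theorem exists_functional [Nontrivial M] (hG : Sym G)
    (hP : ∀ g : M ≃ₗ[R] M, ∃ f, Prim G g f) (i : ℕ) :
    ∃ Λ : Coinvariants R M i →+ ℤ, ∀ (k : ℕ) (z : Cyc R M (k + 1) (i + (k + 1))),
      Λ (coClass z) = ext (lam G) (cycChain z) := by
  classical
  -- stage maps
  let C0 : ∀ k m : ℕ, Cyc R M k m →+ ℤ := fun k m =>
    (ext (lam G)).comp (cycles R M k m).subtype
  have hC0 : ∀ (k m : ℕ) (z : Cyc R M k m), C0 k m z = ext (lam G) (cycChain z) :=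
    fun k m z => rfl
  have hB : ∀ k m : ℕ, boundaries R M k m ≤ (C0 k m).ker := by
    intro k m x hx
    obtain ⟨b, hb, hbx⟩ := hx
    rw [AddMonoidHom.mem_ker, hC0]
    have h1 : bd b = cycChain x := hbx
    rw [← h1]
    exact lam_bd hG hb
  let L0 : ∀ k m : ℕ, HD R M k m →+ ℤ := fun k m =>
    QuotientAddGroup.lift (boundaries R M k m) (C0 k m) (hB k m)
  have hL0 : ∀ (k m : ℕ) (z : Cyc R M k m), L0 k m (homClass z) = ext (lam G) (cycChain z) :=
    fun k m z => rfl
  let L1 : Stages R M i →+ ℤ :=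
    (DirectSum.toAddMonoid fun k => L0 (k + 1) (i + (k + 1)) :
      DirectSum ℕ (HDs R M i) →+ ℤ)
  have hL1 : ∀ (k : ℕ) (z : Cyc R M (k + 1) (i + (k + 1))),
      L1 (stage z) = ext (lam G) (cycChain z) := by
    intro k z
    rw [← hL0]
    exact DirectSum.toAddMonoid_of (fun k => L0 (k + 1) (i + (k + 1))) k (homClass z)
  have hS : suspRel R M i ≤ L1.ker := by
    unfold suspRel
    rw [AddSubgroup.closure_le]
    rintro x ⟨k, z, z', hz, rfl⟩
    change L1 _ = 0
    rw [map_sub, hL1, hL1, hz, lam_mapDomain_susp, sub_self]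
  let L2 : StableHomology R M i →+ ℤ := QuotientAddGroup.lift (suspRel R M i) L1 hS
  have hL2 : ∀ (k : ℕ) (z : Cyc R M (k + 1) (i + (k + 1))),
      L2 (stableClass z) = ext (lam G) (cycChain z) := fun k z => hL1 k z
  have hA : actRel R M i ≤ L2.ker := by
    unfold actRel
    rw [AddSubgroup.closure_le]
    rintro x ⟨g, k, z, z', hz, rfl⟩
    obtain ⟨f, hf⟩ := hP g
    change L2 _ = 0
    rw [map_sub, hL2, hL2, hz, lam_mapDomain_act hG hf z, sub_self]
  exact ⟨QuotientAddGroup.lift (actRel R M i) L2 hA, fun k z => hL2 k z⟩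

end Pool.Agent.KS6_96.Bd.SB
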