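import Pool.Agent.KS6_96.Bd.SBFun

/-!
# Lattices coming from decompositions into two summands
-/

namespace Pool.Agent.KS6_96.Bd.SB

open Finset

variable {R : Type} [CommRing R] {M : Type} [AddCommGroup M] [Module R M]
variable {k : ℕ} {p : Fin k → ℕ}

theorem mem_of_comp {φ : Idx p → Submodule R M} {u : Idx p} {π : M →ₗ[R] M}
    (h1 : ∀ c, u ≤ c → ∀ z, π z ∈ φ c) (h2 : ∀ c, ¬ u ≤ c → ∀ z ∈ φ c, π z = 0)
    (c : Idx p) (z : M) (hz : z ∈ φ c) : π z ∈ φ c := by
  by_cases h : u ≤ c
  · exact h1 c h z
  · rw [h2 c h z hz]; exact Submodule.zero_mem _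

theorem exists_section {φ : Idx p → Submodule R M} (hφ : Monotone φ) {u : Idx p}
    {π : M →ₗ[R] M} (h1 : ∀ c, u ≤ c → ∀ z, π z ∈ φ c)
    (h2 : ∀ c, ¬ u ≤ c → ∀ z ∈ φ c, π z = 0) {a b : Idx p} (hab : a ≤ b) :
    ∃ s : M →ₗ[R] CubeColim φ hφ a b, ∀ (c : PCube a b) (z : φ c.1),
      s z = cof hφ c ⟨π z, mem_of_comp h1 h2 c.1 z z.2⟩ := by
  classical
  by_cases h : ∃ c : PCube a b, u ≤ c.1
  · obtain ⟨c0, hc0⟩ := h
    set m : Idx p := fun i => if u i ≤ a i then a i else b i with hm
    have hmc : ∀ c : PCube a b, u ≤ c.1 → m ≤ c.1 := by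
      intro c hc i
      simp only [hm]
      rcases c.2.1 i with h3 | h3
      · have h4 : u i ≤ a i := by rw [← h3]; exact hc i
        rw [if_pos h4, h3]
      · rw [h3]
        split_ifs
        · exact hab i
        · exact le_rfl
    have hum : u ≤ m := by
      intro i
      simp only [hm]
      split_ifs with h3
      · exact h3
      · exact (hc0 i).trans (c0.le hab i)
    have hmP : (∀ i, m i = a i ∨ m i = b i) ∧ m ≠ b := by
      constructor
      · intro i
        simp only [hm]
        split_ifs
        · exact Or.inl rfl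
        · exact Or.inr rfl
      · intro h3
        have h4 := hmc c0 hc0
        rw [h3] at h4
        exact c0.2.2 (le_antisymm (c0.le hab) h4)
    refine ⟨(cof hφ ⟨m, hmP⟩) ∘ₗ (π.codRestrict (φ m) (h1 m hum)), ?_⟩
    intro c z
    by_cases hc : u ≤ c.1
    · have hle : (⟨m, hmP⟩ : PCube a b) ≤ c := hmc c hc
      have h5 := cof_incl hφ hle ((π.codRestrict (φ m) (h1 m hum)) (z : M))
      exact h5.symm
    · have h6 : π z = 0 := h2 c.1 hc z z.2
      have h7 : (⟨π z, mem_of_comp h1 h2 c.1 z z.2⟩ : φ c.1) = 0 := Subtype.ext h6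
      rw [h7, map_zero, LinearMap.comp_apply]
      have h8 : (π.codRestrict (φ m) (h1 m hum)) (z : M) = 0 := Subtype.ext h6
      rw [h8, map_zero]
  · push Not at h
    refine ⟨0, ?_⟩
    intro c z
    have h6 : π z = 0 := h2 c.1 (h c) z z.2
    have h7 : (⟨π z, mem_of_comp h1 h2 c.1 z z.2⟩ : φ c.1) = 0 := Subtype.ext h6
    rw [h7, map_zero, LinearMap.zero_apply]

theorem isSummand_comap {N W : Submodule R M} (hW : IsSummand W) (h : W ≤ N) :
    IsSummand (W.comap N.subtype) := by
  obtain ⟨W', hc⟩ := hW
  refine ⟨W'.comap N.subtype, IsCompl.of_eq ?_ ?_⟩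
  · rw [← Submodule.comap_inf, hc.inf_eq_bot, Submodule.comap_bot, Submodule.ker_subtype]
  · rw [eq_top_iff]
    rintro ⟨z, hz⟩ _
    obtain ⟨w, hw, w', hw', hzz⟩ := Submodule.mem_sup.1 (hc.sup_eq_top.ge (Submodule.mem_top
      (x := z)))
    have h1 : w' ∈ N := by
      have : w' = z - w := by rw [← hzz]; abel
      rw [this]
      exact N.sub_mem hz (h hw)
    exact Submodule.mem_sup.2 ⟨⟨w, h hw⟩, hw, ⟨w', h1⟩, hw', Subtype.ext hzz⟩

open Classical in
/-- The functor with a copy of `X` starting at `u` and a copy of `Y` starting at `v`. -/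
noncomputable def lat2 (X Y : Submodule R M) (u v : Idx p) : Idx p → Submodule R M :=
  fun a => (if u ≤ a then X else ⊥) ⊔ (if v ≤ a then Y else ⊥)

theorem isSummand_four {X Y : Submodule R M} (h : IsCompl X Y) (P Q : Prop) [Decidable P]
    [Decidable Q] : IsSummand ((if P then X else ⊥) ⊔ (if Q then Y else ⊥)) := by
  by_cases h1 : P <;> by_cases h2 : Q <;> simp only [h1, h2, if_true, if_false]
  · rw [h.sup_eq_top]; exact ⟨⊥, isCompl_top_bot⟩
  · rw [sup_bot_eq]; exact ⟨Y, h⟩
  · rw [bot_sup_eq]; exact ⟨X, h.symm⟩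
  · rw [sup_bot_eq]; exact ⟨⊤, isCompl_bot_top⟩

theorem lat2_mono (X Y : Submodule R M) (u v : Idx p) : Monotone (lat2 X Y u v) := by
  classical
  intro a b hab
  unfold lat2
  apply sup_le_sup
  · split_ifs with h1 h2 h2
    · exact le_rfl
    · exact absurd (h1.trans hab) h2
    · exact bot_le
    · exact le_rfl
  · split_ifs with h1 h2 h2
    · exact le_rfl
    · exact absurd (h1.trans hab) h2
    · exact bot_le
    · exact le_rfl

theorem isLattice_lat2 {X Y : Submodule R M} (h : IsCompl X Y) (u v : Idx p) :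
    IsLattice (lat2 X Y u v) := by
  classical
  have hX1 : ∀ c, u ≤ c → ∀ z, X.projection Y h z ∈ lat2 X Y u v c := by
    intro c hc z
    unfold lat2
    rw [if_pos hc]
    exact Submodule.mem_sup_left (Submodule.projection_apply_mem h z)
  have hX2 : ∀ c, ¬ u ≤ c → ∀ z ∈ lat2 X Y u v c, X.projection Y h z = 0 := by
    intro c hc z hz
    unfold lat2 at hz
    rw [if_neg hc, bot_sup_eq] at hz
    rw [Submodule.projection_apply_eq_zero_iff]
    split_ifs at hz
    · exact hz
    · rw [(Submodule.mem_bot R).1 hz]; exact Submodule.zero_mem _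
  have hY1 : ∀ c, v ≤ c → ∀ z, Y.projection X h.symm z ∈ lat2 X Y u v c := by
    intro c hc z
    unfold lat2
    rw [if_pos hc]
    exact Submodule.mem_sup_right (Submodule.projection_apply_mem h.symm z)
  have hY2 : ∀ c, ¬ v ≤ c → ∀ z ∈ lat2 X Y u v c, Y.projection X h.symm z = 0 := by
    intro c hc z hz
    unfold lat2 at hz
    rw [if_neg hc, sup_bot_eq] at hz
    rw [Submodule.projection_apply_eq_zero_iff]
    split_ifs at hz
    · exact hz
    · rw [(Submodule.mem_bot R).1 hz]; exact Submodule.zero_mem _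
  refine ⟨lat2_mono X Y u v, fun a => isSummand_four h _ _, fun a b hab => ⟨?_, ?_⟩⟩
  · obtain ⟨s1, hs1⟩ := exists_section (lat2_mono X Y u v) hX1 hX2 hab
    obtain ⟨s2, hs2⟩ := exists_section (lat2_mono X Y u v) hY1 hY2 hab
    have hcomp : ((s1 + s2) ∘ₗ (lat2 X Y u v b).subtype) ∘ₗ
        (cubeMap (lat2 X Y u v) (lat2_mono X Y u v) a b hab) = LinearMap.id := by
      apply cube_hom_ext
      intro c z
      simp only [LinearMap.comp_apply, LinearMap.id_apply]
      rw [cubeMap_of]
      change s1 (z : M) + s2 (z : M) = _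
      rw [hs1 c z, hs2 c z, ← map_add]
      congr 1
      apply Subtype.ext
      exact Submodule.projection_add_projection_eq_self h (z : M)
    intro x y hxy
    have h1 := LinearMap.congr_fun hcomp x
    have h2 := LinearMap.congr_fun hcomp y
    rw [LinearMap.comp_apply, hxy] at h1
    rw [LinearMap.comp_apply] at h2
    exact h1.symm.trans h2
  · have h1 := map_range_cubeMap (lat2_mono X Y u v) hab
    have h2 : (LinearMap.range (cubeMap (lat2 X Y u v) (lat2_mono X Y u v) a b hab)) =
        (⨆ c : PCube a b, lat2 X Y u v c.1).comap (lat2 X Y u v b).subtype := by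
      rw [← h1, Submodule.comap_map_eq_of_injective (Submodule.injective_subtype _)]
    rw [h2]
    apply isSummand_comap
    · have h3 : (⨆ c : PCube a b, lat2 X Y u v c.1) =
          (if ∃ c : PCube a b, u ≤ c.1 then X else ⊥) ⊔
            (if ∃ c : PCube a b, v ≤ c.1 then Y else ⊥) := by
        apply le_antisymm
        · apply iSup_le
          intro c
          unfold lat2
          apply sup_le_sup
          · split_ifs with h4 h5 h5
            · exact le_rfl
            · exact absurd ⟨c, h4⟩ h5
            · exact bot_le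
            · exact le_rfl
          · split_ifs with h4 h5 h5
            · exact le_rfl
            · exact absurd ⟨c, h4⟩ h5
            · exact bot_le
            · exact le_rfl
        · apply sup_le
          · split_ifs with h4
            · obtain ⟨c, hc⟩ := h4
              refine le_trans ?_ (le_iSup (fun c : PCube a b => lat2 X Y u v c.1) c)
              simp only [lat2, if_pos hc]
              exact le_sup_left
            · exact bot_le
          · split_ifs with h4
            · obtain ⟨c, hc⟩ := h4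
              refine le_trans ?_ (le_iSup (fun c : PCube a b => lat2 X Y u v c.1) c)
              simp only [lat2, if_pos hc]
              exact le_sup_right
            · exact bot_le
      rw [h3]
      exact isSummand_four h _ _
    · apply iSup_le
      intro c
      exact lat2_mono X Y u v (c.le hab)

end Pool.Agent.KS6_96.Bd.SB
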