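import Pool.Agent.KS6_96.Bd.SBLat

/-!
# The chains attached to a full lattice and their behaviour under faces
-/

namespace Pool.Agent.KS6_96.Bd.SB

open Finset

variable {R : Type} [CommRing R] {M : Type} [AddCommGroup M] [Module R M]
variable {k : ℕ}

/-- The point with value `v` in the direction `i` and top value elsewhere. -/
def pt (p : Fin k → ℕ) (i : Fin k) (v : ℕ) : Idx p :=
  fun l => if l = i then ⟨min v (p l), Nat.lt_succ_of_le (min_le_right _ _)⟩ else Fin.last (p l)

theorem pt_val_self (p : Fin k → ℕ) (i : Fin k) (v : ℕ) : (pt p i v i : ℕ) = min v (p i) := by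
  unfold pt; rw [if_pos rfl]

theorem pt_val_ne (p : Fin k → ℕ) {i l : Fin k} (h : l ≠ i) (v : ℕ) :
    (pt p i v l : ℕ) = p l := by
  unfold pt; rw [if_neg h]; rfl

theorem tp_val (p : Fin k → ℕ) (l : Fin k) : (tp p l : ℕ) = p l := rfl

/-- The `i`-th chain attached to `σ`. -/
def E (σ : Simplex R M k) (i : Fin k) (v : ℕ) : Submodule R M := σ.fn (pt σ.shape i v)

theorem idx_ext {p : Fin k → ℕ} {a b : Idx p} (h : ∀ l, (a l : ℕ) = b l) : a = b :=
  funext fun l => Fin.ext (h l)

theorem pt_top (p : Fin k → ℕ) (i : Fin k) {v : ℕ} (h : p i ≤ v) : pt p i v = tp p := by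
  apply idx_ext
  intro l
  by_cases hl : l = i
  · subst hl; rw [pt_val_self, min_eq_right h]; rfl
  · rw [pt_val_ne p hl]; rfl

theorem pt_zero (p : Fin k → ℕ) (i : Fin k) : pt p i 0 i = 0 := by
  apply Fin.ext
  rw [pt_val_self]; simp

theorem pt_mono (p : Fin k → ℕ) (i : Fin k) {v w : ℕ} (h : v ≤ w) : pt p i v ≤ pt p i w := by
  intro l
  rw [Fin.le_def]
  by_cases hl : l = i
  · subst hl; rw [pt_val_self, pt_val_self]; exact min_le_min h le_rfl
  · rw [pt_val_ne p hl, pt_val_ne p hl]

section full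

variable {σ : Simplex R M k}

theorem E_zero (hσ : FullLattice σ) (i : Fin k) : E σ i 0 = ⊥ :=
  hσ.2.1 _ ⟨i, pt_zero σ.shape i⟩

theorem E_top (hσ : FullLattice σ) (i : Fin k) {v : ℕ} (h : σ.shape i ≤ v) : E σ i v = ⊤ := by
  unfold E
  rw [pt_top _ _ h]
  exact hσ.2.2

theorem E_mono (hσ : FullLattice σ) (i : Fin k) {v w : ℕ} (h : v ≤ w) : E σ i v ≤ E σ i w :=
  hσ.1.mono (pt_mono σ.shape i h)

theorem E_summand (hσ : FullLattice σ) (i : Fin k) (v : ℕ) : IsSummand (E σ i v) :=
  hσ.1.summand _

theorem shape_pos [Nontrivial M] (hσ : FullLattice σ) (i : Fin k) : 0 < σ.shape i := by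
  by_contra hcon
  have h1 : E σ i 0 = ⊤ := E_top hσ i (by omega)
  rw [E_zero hσ] at h1
  exact bot_ne_top h1

/-- The point with values `v` in the direction `i` and `w` in the direction `j`. -/
def pt2 (p : Fin k → ℕ) (i : Fin k) (v : ℕ) (j : Fin k) (w : ℕ) : Idx p :=
  fun l => if l = i then ⟨min v (p l), Nat.lt_succ_of_le (min_le_right _ _)⟩ else
    if l = j then ⟨min w (p l), Nat.lt_succ_of_le (min_le_right _ _)⟩ else Fin.last (p l)

theorem pt2_val_left (p : Fin k → ℕ) (i j : Fin k) (v w : ℕ) :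
    (pt2 p i v j w i : ℕ) = min v (p i) := by
  unfold pt2; rw [if_pos rfl]

theorem pt2_val_right (p : Fin k → ℕ) {i j : Fin k} (h : i ≠ j) (v w : ℕ) :
    (pt2 p i v j w j : ℕ) = min w (p j) := by
  unfold pt2; rw [if_neg h.symm, if_pos rfl]

theorem pt2_val_ne (p : Fin k → ℕ) {i j l : Fin k} (h : l ≠ i) (h' : l ≠ j) (v w : ℕ) :
    (pt2 p i v j w l : ℕ) = p l := by
  unfold pt2; rw [if_neg h, if_neg h']; rfl

theorem low_pt2_left (p : Fin k → ℕ) (i j : Fin k) (v w : ℕ) :
    low (pt2 p i v j w) i = pt p i v := by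
  apply idx_ext
  intro l
  by_cases hl : l = i
  · subst hl; rw [low_self, pt2_val_left, pt_val_self]
  · rw [low_of_ne _ hl, pt_val_ne p hl]; rfl

theorem low_pt2_right (p : Fin k → ℕ) {i j : Fin k} (hij : i ≠ j) (v w : ℕ) :
    low (pt2 p i v j w) j = pt p j w := by
  apply idx_ext
  intro l
  by_cases hl : l = j
  · subst hl; rw [low_self, pt2_val_right p hij, pt_val_self]
  · rw [low_of_ne _ hl, pt_val_ne p hl]; rfl

theorem ne_last_iff {p : Fin k → ℕ} {a : Idx p} {l : Fin k} :
    a l ≠ Fin.last (p l) ↔ (a l : ℕ) < p l := by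
  rw [Ne, Fin.ext_iff, Fin.val_last]
  have := (a l).2
  omega

/-- The two dimensional condition at the top. -/
theorem pt2_eq (hσ : FullLattice σ) {i j : Fin k} (hij : i ≠ j) {v w : ℕ}
    (hv : v < σ.shape i) (hw : w < σ.shape j) :
    σ.fn (pt2 σ.shape i v j w) = E σ i v ⊓ E σ j w := by
  apply le_antisymm
  · apply le_inf
    · unfold E
      rw [← low_pt2_left σ.shape i j v w]
      exact hσ.1.mono (le_low _ _)
    · unfold E
      rw [← low_pt2_right σ.shape hij v w]
      exact hσ.1.mono (le_low _ _)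
  · unfold E
    have h := inf_low_le hσ.1 (a := pt2 σ.shape i v j w) hij
      (ne_last_iff.2 (by rw [pt2_val_left]; omega))
      (ne_last_iff.2 (by rw [pt2_val_right _ hij]; omega))
      (fun l h1 h2 => by
        apply Fin.ext
        rw [pt2_val_ne _ h1 h2]; rfl)
    rw [low_pt2_left, low_pt2_right _ hij] at h
    exact h

theorem isSummand_sup (hσ : FullLattice σ) {i j : Fin k} (hij : i ≠ j) {v w : ℕ}
    (hv : v < σ.shape i) (hw : w < σ.shape j) : IsSummand (E σ i v ⊔ E σ j w) := by
  have h := isSummand_sup_low hσ.1 hσ.2.2 (a := pt2 σ.shape i v j w) (i := i) (j := j)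
      (ne_last_iff.2 (by rw [pt2_val_left]; omega))
      (ne_last_iff.2 (by rw [pt2_val_right _ hij]; omega))
      (fun l h1 h2 => by
        apply Fin.ext
        rw [pt2_val_ne _ h1 h2]; rfl)
  rw [low_pt2_left, low_pt2_right _ hij] at h
  exact h

/-- The point with value `v` in the directions `i, j, l`. -/
def pt3 (p : Fin k → ℕ) (i j l : Fin k) (v : ℕ) : Idx p :=
  fun m => if m = i ∨ m = j ∨ m = l then ⟨min v (p m), Nat.lt_succ_of_le (min_le_right _ _)⟩
    else Fin.last (p m)

theorem pt3_val {p : Fin k → ℕ} {i j l m : Fin k} (h : m = i ∨ m = j ∨ m = l) (v : ℕ) :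
    (pt3 p i j l v m : ℕ) = min v (p m) := by
  unfold pt3; rw [if_pos h]

theorem low_pt3 {p : Fin k → ℕ} {i j l m : Fin k} (h : m = i ∨ m = j ∨ m = l) (v : ℕ) :
    low (pt3 p i j l v) m = pt p m v := by
  apply idx_ext
  intro r
  by_cases hr : r = m
  · subst hr; rw [low_self, pt3_val h, pt_val_self]
  · rw [low_of_ne _ hr, pt_val_ne p hr]; rfl

theorem three (hσ : FullLattice σ) {i j l : Fin k} (hij : i ≠ j) (hil : i ≠ l) {v : ℕ}
    (hi : v < σ.shape i) (hj : v < σ.shape j) (hl : v < σ.shape l)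
    (h1 : E σ i v ⊓ E σ j v = ⊥) (h2 : E σ i v ⊓ E σ l v = ⊥)
    (h3 : E σ j v ⊔ E σ l v = ⊤) : E σ i v = ⊥ := by
  have e1 := low_pt3 (p := σ.shape) (i := i) (j := j) (l := l) (m := i) (Or.inl rfl) v
  have e2 := low_pt3 (p := σ.shape) (i := i) (j := j) (l := l) (m := j) (Or.inr (Or.inl rfl)) v
  have e3 := low_pt3 (p := σ.shape) (i := i) (j := j) (l := l) (m := l) (Or.inr (Or.inr rfl)) v
  unfold E at h1 h2 h3 ⊢
  rw [← e1, ← e2] at h1
  rw [← e1, ← e3] at h2
  rw [← e2, ← e3] at h3
  rw [← e1]
  apply three_low hσ.1 hij hil _ _ _ _ h1 h2 h3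
  · apply ne_last_iff.2; rw [pt3_val (Or.inl rfl)]; omega
  · apply ne_last_iff.2; rw [pt3_val (Or.inr (Or.inl rfl))]; omega
  · apply ne_last_iff.2; rw [pt3_val (Or.inr (Or.inr rfl))]; omega
  · intro m h1 h2 h3
    unfold pt3
    rw [if_neg]
    tauto

end full

section faces

variable (σ : Simplex R M k)

theorem delta_val_self (p : Fin k → ℕ) (i : Fin k) (j : ℕ)
    (a : Idx (Function.update p i (p i - 1))) :
    (delta p i j a i : ℕ) = min (if j ≤ (a i : ℕ) then (a i : ℕ) + 1 else (a i : ℕ)) (p i) := by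
  unfold delta
  simp

theorem delta_val_ne (p : Fin k → ℕ) {i l : Fin k} (hl : l ≠ i) (j : ℕ)
    (a : Idx (Function.update p i (p i - 1))) :
    (delta p i j a l : ℕ) = a l := by
  unfold delta
  have h := (a l).2
  have h2 : Function.update p i (p i - 1) l = p l := Function.update_of_ne hl _ _
  simp only [hl, false_and, if_false]
  omega

theorem face_shape_self (i : Fin k) (j : ℕ) : (face σ i j).shape i = σ.shape i - 1 := by
  unfold face; simp

theorem face_shape_ne {i l : Fin k} (h : l ≠ i) (j : ℕ) : (face σ i j).shape l = σ.shape l := by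
  unfold face; simp [h]

theorem E_face_ne {i l : Fin k} (hl : l ≠ i) {j : ℕ} (hj : j < σ.shape i) (v : ℕ) :
    E (face σ i j) l v = E σ l v := by
  unfold E
  change σ.fn (delta σ.shape i j (pt (Function.update σ.shape i (σ.shape i - 1)) l v)) = _
  congr 1
  apply idx_ext
  intro m
  by_cases hm : m = i
  · subst hm
    rw [delta_val_self, pt_val_ne _ hl.symm, pt_val_ne _ hl.symm, Function.update_self, if_pos]
    · omega
    · omega
  · rw [delta_val_ne _ hm]
    by_cases hml : m = l
    · subst hml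
      rw [pt_val_self, pt_val_self, Function.update_of_ne hm]
    · rw [pt_val_ne _ hml, pt_val_ne _ hml, Function.update_of_ne hm]

theorem E_face_ne_last {σ : Simplex R M k} (hσ : FullLattice σ) {i l : Fin k} (hl : l ≠ i)
    (hi : 0 < σ.shape i) {v : ℕ} (hv : v < σ.shape l) (h : E σ i (σ.shape i - 1) = ⊤) :
    E (face σ i (σ.shape i)) l v = E σ l v := by
  have h1 : E (face σ i (σ.shape i)) l v = σ.fn (pt2 σ.shape i (σ.shape i - 1) l v) := by
    unfold E
    change σ.fn (delta σ.shape i (σ.shape i)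
      (pt (Function.update σ.shape i (σ.shape i - 1)) l v)) = _
    congr 1
    apply idx_ext
    intro m
    by_cases hm : m = i
    · subst hm
      rw [delta_val_self, pt_val_ne _ hl.symm, Function.update_self, if_neg (by omega),
        pt2_val_left]
    · rw [delta_val_ne _ hm]
      by_cases hml : m = l
      · subst hml
        rw [pt_val_self, Function.update_of_ne hm, pt2_val_right _ hl.symm]
      · rw [pt_val_ne _ hml, Function.update_of_ne hm, pt2_val_ne _ hm hml]
  rw [h1, pt2_eq hσ hl.symm (by omega) hv, h, top_inf_eq]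

theorem E_face_self {i : Fin k} {j v : ℕ} (hv : v < σ.shape i) :
    E (face σ i j) i v = E σ i (if j ≤ v then v + 1 else v) := by
  unfold E
  change σ.fn (delta σ.shape i j (pt (Function.update σ.shape i (σ.shape i - 1)) i v)) = _
  congr 1
  apply idx_ext
  intro m
  by_cases hm : m = i
  · subst hm
    rw [delta_val_self, pt_val_self, pt_val_self, Function.update_self,
      min_eq_left (show v ≤ σ.shape m - 1 by omega)]
  · rw [delta_val_ne _ hm, pt_val_ne _ hm, pt_val_ne _ hm, Function.update_of_ne hm]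

theorem full_face_iff (i : Fin k) (j : ℕ) : Full (face σ i j) ↔
    (∀ a : Idx (Function.update σ.shape i (σ.shape i - 1)), (∃ l, a l = 0) →
      σ.fn (delta σ.shape i j a) = ⊥) ∧
      σ.fn (delta σ.shape i j (tp (Function.update σ.shape i (σ.shape i - 1)))) = ⊤ := Iff.rfl

theorem full_face_zero {σ : Simplex R M k} (hσ : FullLattice σ) {i : Fin k}
    (hi : 0 < σ.shape i) : Full (face σ i 0) ↔ E σ i 1 = ⊥ := by
  constructor
  · intro h
    have h1 : E (face σ i 0) i 0 = ⊥ := h.1 _ ⟨i, pt_zero _ i⟩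
    rw [E_face_self σ hi] at h1
    simpa using h1
  · intro h
    rw [full_face_iff]
    constructor
    · rintro a ⟨l, hl⟩
      by_cases hli : l = i
      · subst hli
        rw [eq_bot_iff, ← h]
        apply hσ.1.mono
        intro m
        rw [Fin.le_def]
        by_cases hm : m = l
        · subst hm
          rw [delta_val_self, pt_val_self, hl]
          simp
        · rw [pt_val_ne _ hm]
          exact Nat.le_of_lt_succ (delta σ.shape l 0 a m).2
      · apply hσ.2.1
        refine ⟨l, ?_⟩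
        apply Fin.ext
        rw [delta_val_ne _ hli, hl]
        rfl
    · have : delta σ.shape i 0 (tp (Function.update σ.shape i (σ.shape i - 1))) =
          tp σ.shape := by
        apply idx_ext
        intro m
        by_cases hm : m = i
        · subst hm
          rw [delta_val_self, tp_val, tp_val, Function.update_self, if_pos (Nat.zero_le _)]
          omega
        · rw [delta_val_ne _ hm]
          change (Function.update σ.shape i (σ.shape i - 1) m) = σ.shape m
          rw [Function.update_of_ne hm]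
      rw [this]
      exact hσ.2.2

theorem face_bot {σ : Simplex R M k} (hσ : FullLattice σ) {i : Fin k} {j : ℕ} (hj : 0 < j)
    (a : Idx (Function.update σ.shape i (σ.shape i - 1))) (h : ∃ l, a l = 0) :
    σ.fn (delta σ.shape i j a) = ⊥ := by
  obtain ⟨l, hl⟩ := h
  apply hσ.2.1
  refine ⟨l, ?_⟩
  apply Fin.ext
  by_cases hli : l = i
  · subst hli
    rw [delta_val_self, hl]
    rw [if_neg]
    · simp
    · rw [Fin.val_zero]; omega
  · rw [delta_val_ne _ hli, hl]
    rfl

theorem face_top_val (σ : Simplex R M k) (i : Fin k) (j : ℕ) (hi : 0 < σ.shape i) :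
    (face σ i j).fn (fun l => Fin.last _) = E σ i (if j ≤ σ.shape i - 1 then σ.shape i else
      σ.shape i - 1) := by
  have h : (fun l => Fin.last ((face σ i j).shape l)) =
      pt (face σ i j).shape i (σ.shape i - 1) := by
    rw [pt_top]
    · rfl
    · rw [face_shape_self]
  have h2 : (face σ i j).fn (fun l => Fin.last _) = E (face σ i j) i (σ.shape i - 1) := by
    rw [h]; rfl
  rw [h2, E_face_self σ (by omega)]
  congr 1
  split_ifs <;> omega

theorem full_face_mid {σ : Simplex R M k} (hσ : FullLattice σ) {i : Fin k} {j : ℕ} (hj : 0 < j)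
    (hj2 : j < σ.shape i) : Full (face σ i j) := by
  refine ⟨fun a h => face_bot hσ hj a h, ?_⟩
  rw [face_top_val σ i j (by omega), if_pos (by omega)]
  exact E_top hσ i le_rfl

theorem full_face_last {σ : Simplex R M k} (hσ : FullLattice σ) {i : Fin k}
    (hi : 0 < σ.shape i) : Full (face σ i (σ.shape i)) ↔ E σ i (σ.shape i - 1) = ⊤ := by
  have h1 := face_top_val σ i (σ.shape i) hi
  rw [if_neg (by omega)] at h1
  constructor
  · intro h
    rw [← h1]
    exact h.2
  · intro h
    refine ⟨fun a h' => face_bot hσ hi a h', ?_⟩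
    rw [h1]
    exact h

end faces

end Pool.Agent.KS6_96.Bd.SB
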