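import Pool.Agent.KS6_96.Bd.SBFun

/-!
# The functional `lam` vanishes on boundaries and is invariant up to coboundaries
-/

namespace Pool.Agent.KS6_96.Bd.SB

open Finset

variable {R : Type} [CommRing R] {M : Type} [AddCommGroup M] [Module R M]
variable {k : ℕ}

/-- The indicator. -/
def ind (m i : Fin k) : ℕ := if m = i then 1 else 0

theorem ind_self (i : Fin k) : ind i i = 1 := if_pos rfl

theorem ind_ne {m i : Fin k} (h : m ≠ i) : ind m i = 0 := if_neg h

/-- The shape `(1, …, 1) + eᵢ + eⱼ`. -/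
def Two (p : Fin k → ℕ) (i j : Fin k) : Prop := ∀ m, p m = 1 + ind m i + ind m j

/-- The shape `(1, …, 1) + eᵢ`. -/
def One (p : Fin k → ℕ) (i : Fin k) : Prop := ∀ m, p m = 1 + ind m i

theorem two_unique {p : Fin k → ℕ} {i j i' j' : Fin k} (hij : i < j) (hij' : i' < j')
    (h : Two p i j) (h' : Two p i' j') : i = i' ∧ j = j' := by
  have e : ∀ m, ind m i + ind m j = ind m i' + ind m j' := fun m => by
    have := h m; have := h' m; omega
  have e1 := e i
  have e2 := e j
  have e3 := e i'
  have e4 := e j'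
  unfold ind at e1 e2 e3 e4
  have n1 := hij.ne
  have n2 := hij'.ne
  constructor
  · by_contra hne
    by_cases h1 : i = j'
    · subst h1
      by_cases h2 : i' = j
      · subst h2; exact absurd (hij.trans hij') (lt_irrefl _)
      · simp only [if_true, n2.symm, hne, if_false, n2, h2] at e3
        simp at e3
    · simp [n1, hne, h1] at e1
  · by_contra hne
    by_cases h1 : j = i'
    · subst h1
      by_cases h2 : i = j'
      · subst h2; exact absurd (hij.trans hij') (lt_irrefl _)
      · simp [n2, n1, n2.symm, n1.symm, h2, hne, Ne.symm hne] at e4 e2 e1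
    · simp [n1.symm, hne, h1] at e2

theorem one_unique {p : Fin k → ℕ} {i i' : Fin k} (h : One p i) (h' : One p i') : i = i' := by
  have e1 := h i
  have e2 := h' i
  rw [ind_self] at e1
  by_contra hne
  rw [ind_ne hne] at e2
  omega

open Classical in
/-- The functional. -/
noncomputable def lam (G : Submodule R M → Submodule R M → ℤ) (σ : Simplex R M k) : ℤ :=
  ∑ i : Fin k, ∑ j : Fin k, if i < j ∧ Two σ.shape i j then
    (-1 : ℤ) ^ ((i : ℕ) + (j : ℕ)) * G (E σ i 1) (E σ j 1) else 0

theorem lam_eq (G : Submodule R M → Submodule R M → ℤ) {σ : Simplex R M k} {i j : Fin k}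
    (hij : i < j) (h : Two σ.shape i j) :
    lam G σ = (-1 : ℤ) ^ ((i : ℕ) + (j : ℕ)) * G (E σ i 1) (E σ j 1) := by
  classical
  unfold lam
  rw [Finset.sum_eq_single i, Finset.sum_eq_single j, if_pos ⟨hij, h⟩]
  · intro j' _ hne
    rw [if_neg]
    rintro ⟨h1, h2⟩
    exact hne (two_unique hij h1 h h2).2.symm
  · intro h; exact absurd (Finset.mem_univ _) h
  · intro i' _ hne
    apply Finset.sum_eq_zero
    intro j' _
    rw [if_neg]
    rintro ⟨h1, h2⟩
    exact hne (two_unique hij h1 h h2).1.symm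
  · intro h; exact absurd (Finset.mem_univ _) h

theorem lam_zero (G : Submodule R M → Submodule R M → ℤ) {σ : Simplex R M k}
    (h : ∀ i j, i < j → ¬ Two σ.shape i j) : lam G σ = 0 := by
  classical
  unfold lam
  apply Finset.sum_eq_zero
  intro i _
  apply Finset.sum_eq_zero
  intro j _
  rw [if_neg]
  rintro ⟨h1, h2⟩
  exact h i j h1 h2

open Classical in
/-- The primitive. -/
noncomputable def nu (h : Submodule R M → ℤ) (σ : Simplex R M k) : ℤ :=
  ∑ i : Fin k, if One σ.shape i then (-1 : ℤ) ^ ((i : ℕ) + 1) * h (E σ i 1) else 0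

theorem nu_eq (f : Submodule R M → ℤ) {σ : Simplex R M k} {i : Fin k}
    (h : One σ.shape i) : nu f σ = (-1 : ℤ) ^ ((i : ℕ) + 1) * f (E σ i 1) := by
  classical
  unfold nu
  rw [Finset.sum_eq_single i, if_pos h]
  · intro i' _ hne
    rw [if_neg]
    intro h1
    exact hne (one_unique h h1).symm
  · intro h; exact absurd (Finset.mem_univ _) h

theorem nu_zero (f : Submodule R M → ℤ) {σ : Simplex R M k}
    (h : ∀ i, ¬ One σ.shape i) : nu f σ = 0 := by
  classical
  unfold nu
  apply Finset.sum_eq_zero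
  intro i _
  rw [if_neg (h i)]

/-- The conditions on the symbol. -/
structure Sym (G : Submodule R M → Submodule R M → ℤ) : Prop where
  line : ∀ A B : Submodule R M, Line A → Line B → A ≤ B → A = B
  antisymm : ∀ A B, G A B = - G B A
  zero : ∀ A B, ¬ (Line A ∧ Line B) → G A B = 0

theorem Sym.self {G : Submodule R M → Submodule R M → ℤ} (hG : Sym G) (A : Submodule R M) :
    G A A = 0 := by
  have := hG.antisymm A A; omega

/-- The number of degrees before the direction `i`. -/
theorem sum_Iio_ind (i a : Fin k) : ∑ l ∈ Iio i, ind l a = if a < i then 1 else 0 := by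
  unfold ind
  rw [Finset.sum_ite_eq']
  simp only [Finset.mem_Iio]

theorem sum_Iio_one (i : Fin k) : ∑ _l ∈ Iio i, 1 = (i : ℕ) := by
  rw [Finset.sum_const, Fin.card_Iio]; simp

section lines

variable {σ : Simplex R M k} {G : Submodule R M → Submodule R M → ℤ}

/-- In a full lattice two distinct lines are complementary. -/
theorem compl_of_ne (hG : Sym G) (hσ : FullLattice σ) {i j : Fin k} (hij : i ≠ j)
    (hi : 1 < σ.shape i) (hj : 1 < σ.shape j) (h1 : Line (E σ i 1)) (h2 : Line (E σ j 1))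
    (hne : E σ i 1 ≠ E σ j 1) : IsCompl (E σ i 1) (E σ j 1) := by
  have e := pt2_eq hσ hij hi hj
  have s1 : IsSummand (E σ i 1 ⊓ E σ j 1) := by rw [← e]; exact hσ.1.summand _
  have s2 := isSummand_sup hσ hij hi hj
  apply IsCompl.of_eq
  · by_contra hb
    have hl : Line (E σ i 1 ⊓ E σ j 1) := by
      refine ⟨hb, ?_, s1⟩
      intro ht
      apply h1.2.1
      rw [eq_top_iff, ← ht]
      exact inf_le_left
    have a1 := hG.line _ _ hl h1 inf_le_left
    have a2 := hG.line _ _ hl h2 inf_le_right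
    exact hne (a1.symm.trans a2)
  · by_contra ht
    have hl : Line (E σ i 1 ⊔ E σ j 1) := by
      refine ⟨?_, ht, s2⟩
      intro hb
      apply h1.1
      rw [eq_bot_iff, ← hb]
      exact le_sup_left
    have a1 := hG.line _ _ h1 hl le_sup_left
    have a2 := hG.line _ _ h2 hl le_sup_right
    exact hne (a1.trans a2.symm)

theorem three_lines_eq (hG : Sym G) (hσ : FullLattice σ) {i j l : Fin k} (hij : i ≠ j)
    (hil : i ≠ l) (hjl : j ≠ l) (hi : 1 < σ.shape i) (hj : 1 < σ.shape j) (hl : 1 < σ.shape l)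
    (h1 : Line (E σ i 1)) (h2 : Line (E σ j 1)) (h3 : Line (E σ l 1)) :
    E σ i 1 = E σ j 1 ∨ E σ i 1 = E σ l 1 ∨ E σ j 1 = E σ l 1 := by
  by_contra hcon
  push Not at hcon
  obtain ⟨n1, n2, n3⟩ := hcon
  have c1 := compl_of_ne hG hσ hij hi hj h1 h2 n1
  have c2 := compl_of_ne hG hσ hil hi hl h1 h3 n2
  have c3 := compl_of_ne hG hσ hjl hj hl h2 h3 n3
  exact h1.1 (three hσ hij hil hi hj hl c1.inf_eq_bot c2.inf_eq_bot c3.sup_eq_top)

theorem P3 [Nontrivial M] (hG : Sym G) (hσ : FullLattice σ) {a b c : Fin k} (hab : a ≠ b)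
    (hac : a ≠ c) (hbc : b ≠ c) (ha : 1 < σ.shape a) (hb : 1 < σ.shape b) (hc : 1 < σ.shape c) :
    kap (E σ a 1) * G (E σ b 1) (E σ c 1) - kap (E σ b 1) * G (E σ a 1) (E σ c 1) +
      kap (E σ c 1) * G (E σ a 1) (E σ b 1) = 0 := by
  by_cases h1 : Line (E σ a 1)
  · by_cases h2 : Line (E σ b 1)
    · by_cases h3 : Line (E σ c 1)
      · rw [kap_line h1, kap_line h2, kap_line h3]
        rcases three_lines_eq hG hσ hab hac hbc ha hb hc h1 h2 h3 with h | h | h
        · rw [h, hG.self]; ring
        · rw [h, hG.self, hG.antisymm (E σ b 1)]; ring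
        · rw [h, hG.self]; ring
      · rw [kap_not_line (E_summand hσ c 1) h3, hG.zero _ _ (fun h => h3 h.2),
          hG.zero _ _ (fun h => h3 h.2)]
        ring
    · rw [kap_not_line (E_summand hσ b 1) h2, hG.zero _ _ (fun h => h2 h.1),
          hG.zero _ _ (fun h => h2 h.2)]
      ring
  · rw [kap_not_line (E_summand hσ a 1) h1, hG.zero (E σ a 1) (E σ c 1) (fun h => h1 h.1),
          hG.zero (E σ a 1) _ (fun h => h1 h.1)]
    ring

open Classical in
theorem P21 (hG : Sym G) (hσ : FullLattice σ) {a : Fin k}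
    (f : Submodule R M → ℤ) (hf : ∀ X, ¬ Line X → f X = 0) :
    (if E σ a 1 = ⊥ then f (E σ a 2) else 0) - f (E σ a 2) + f (E σ a 1) -
      (if E σ a 2 = ⊤ then f (E σ a 1) else 0) = 0 := by
  have hle : E σ a 1 ≤ E σ a 2 := E_mono hσ a (by norm_num)
  have sA := E_summand hσ a 1
  have sB := E_summand hσ a 2
  have fb : f ⊥ = 0 := hf _ (fun h => h.1 rfl)
  have ft : f ⊤ = 0 := hf _ (fun h => h.2.1 rfl)
  by_cases h1 : E σ a 1 = ⊥
  · rw [if_pos h1, h1, fb]; simp
  · rw [if_neg h1]
    by_cases h2 : E σ a 2 = ⊤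
    · rw [if_pos h2, h2, ft]; ring
    · rw [if_neg h2]
      have hA : Line (E σ a 1) := by
        refine ⟨h1, ?_, sA⟩
        intro ht
        apply h2
        rw [eq_top_iff, ← ht]
        exact hle
      have hB : Line (E σ a 2) := by
        refine ⟨?_, h2, sB⟩
        intro hb
        apply h1
        rw [eq_bot_iff, ← hb]
        exact hle
      rw [hG.line _ _ hA hB hle]; ring

end lines

end Pool.Agent.KS6_96.Bd.SB
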